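import Pool.Agent.MP_ca1109_lc.Csp.Defs

/-!
# Primitive positive definitions: basic operations
-/

namespace Pool.Agent.MP_ca1109_lc.Csp

/-- The predicate `P` on the assignments of `V` is defined by a primitive positive formula with at
most `s` atomic formulas (the quantified variables are indexed by a finite type). -/
def PDef (L : Lang) (V : Type) (s : ℕ) (P : (V → Bool) → Prop) : Prop :=
  ∃ (U : Type) (_ : Fintype U) (Φ : List (Atom L (V ⊕ U))), Φ.length ≤ s ∧
    ∀ x, P x ↔ ∃ y : U → Bool, ∀ φ ∈ Φ, φ.Holds (Sum.elim x y)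

variable {L L' : Lang} {V W U : Type} {s s' K : ℕ} {P Q : (V → Bool) → Prop}

/-- Renaming of the variables of an atomic formula. -/
def Atom.map (f : V → W) : Atom L V → Atom L W
  | .eq a b => .eq (f a) (f b)
  | .rel i w => .rel i (fun j => f (w j))

theorem Atom.holds_map (f : V → W) (φ : Atom L V) (x : W → Bool) :
    (φ.map f).Holds x ↔ φ.Holds (fun v => x (f v)) := by
  cases φ <;> rfl

theorem PDef.mono (h : PDef L V s P) (hs : s ≤ s') : PDef L V s' P := by
  obtain ⟨U, i, Φ, h1, h2⟩ := h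
  exact ⟨U, i, Φ, h1.trans hs, h2⟩

theorem PDef.congr (h : PDef L V s P) (hPQ : ∀ x, P x ↔ Q x) : PDef L V s Q := by
  obtain ⟨U, i, Φ, h1, h2⟩ := h
  exact ⟨U, i, Φ, h1, fun x => (hPQ x).symm.trans (h2 x)⟩

theorem PDef.true : PDef L V 0 (fun _ => True) :=
  ⟨Empty, inferInstance, [], le_rfl, fun _ => ⟨fun _ => ⟨fun e => e.elim, by simp⟩, fun _ => trivial⟩⟩

theorem PDef.atom (φ : Atom L V) : PDef L V 1 (fun x => φ.Holds x) := by
  refine ⟨Empty, inferInstance, [φ.map Sum.inl], by simp, fun x => ?_⟩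
  constructor
  · intro h
    refine ⟨fun e => e.elim, ?_⟩
    simpa [Atom.holds_map] using h
  · rintro ⟨y, hy⟩
    have := hy _ (List.mem_singleton.2 rfl)
    rwa [Atom.holds_map] at this

theorem PDef.eq (a b : V) : PDef L V 1 (fun x => x a = x b) := PDef.atom (.eq a b)

theorem PDef.and (h : PDef L V s P) (h' : PDef L V s' Q) :
    PDef L V (s + s') (fun x => P x ∧ Q x) := by
  obtain ⟨U, i, Φ, h1, h2⟩ := h
  obtain ⟨U', i', Φ', h1', h2'⟩ := h'
  refine ⟨U ⊕ U', inferInstance, Φ.map (Atom.map (Sum.map id Sum.inl)) ++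
    Φ'.map (Atom.map (Sum.map id Sum.inr)), ?_, fun x => ?_⟩
  · rw [List.length_append, List.length_map, List.length_map]
    exact Nat.add_le_add h1 h1'
  · have e1 : ∀ y : U ⊕ U' → Bool, (fun v => Sum.elim x y (Sum.map id Sum.inl v)) =
        Sum.elim x (fun u => y (Sum.inl u)) := fun y => by
      funext v; rcases v with v | v <;> rfl
    have e2 : ∀ y : U ⊕ U' → Bool, (fun v => Sum.elim x y (Sum.map id Sum.inr v)) =
        Sum.elim x (fun u => y (Sum.inr u)) := fun y => by
      funext v; rcases v with v | v <;> rfl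
    show P x ∧ Q x ↔ _
    rw [h2, h2']
    constructor
    · rintro ⟨⟨y, hy⟩, y', hy'⟩
      refine ⟨Sum.elim y y', fun φ hφ => ?_⟩
      rcases List.mem_append.1 hφ with hφ | hφ
      · obtain ⟨ψ, hψ, rfl⟩ := List.mem_map.1 hφ
        rw [Atom.holds_map, e1]
        exact hy ψ hψ
      · obtain ⟨ψ, hψ, rfl⟩ := List.mem_map.1 hφ
        rw [Atom.holds_map, e2]
        exact hy' ψ hψ
    · rintro ⟨y, hy⟩
      refine ⟨⟨fun u => y (Sum.inl u), fun ψ hψ => ?_⟩, fun u => y (Sum.inr u), fun ψ hψ => ?_⟩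
      · have := hy _ (List.mem_append.2 (Or.inl (List.mem_map.2 ⟨ψ, hψ, rfl⟩)))
        rwa [Atom.holds_map, e1] at this
      · have := hy _ (List.mem_append.2 (Or.inr (List.mem_map.2 ⟨ψ, hψ, rfl⟩)))
        rwa [Atom.holds_map, e2] at this

/-- Existential quantification. -/
theorem PDef.ex [Fintype U] {P : (V ⊕ U → Bool) → Prop} (h : PDef L (V ⊕ U) s P) :
    PDef L V s (fun x => ∃ y : U → Bool, P (Sum.elim x y)) := by
  obtain ⟨U', i, Φ, h1, h2⟩ := h
  refine ⟨U ⊕ U', inferInstance, Φ.map (Atom.map (Equiv.sumAssoc V U U')), ?_, fun x => ?_⟩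
  · rwa [List.length_map]
  · have e1 : ∀ y : U ⊕ U' → Bool, (fun v => Sum.elim x y (Equiv.sumAssoc V U U' v)) =
        Sum.elim (Sum.elim x fun u => y (Sum.inl u)) (fun u => y (Sum.inr u)) := fun y => by
      funext v; rcases v with (v | v) | v <;> rfl
    constructor
    · rintro ⟨y, hy⟩
      rw [h2] at hy
      obtain ⟨z, hz⟩ := hy
      refine ⟨Sum.elim y z, fun φ hφ => ?_⟩
      obtain ⟨ψ, hψ, rfl⟩ := List.mem_map.1 hφ
      rw [Atom.holds_map, e1]
      exact hz ψ hψ
    · rintro ⟨y, hy⟩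
      refine ⟨fun u => y (Sum.inl u), (h2 _).2 ⟨fun u => y (Sum.inr u), fun ψ hψ => ?_⟩⟩
      have := hy _ (List.mem_map.2 ⟨ψ, hψ, rfl⟩)
      rwa [Atom.holds_map, e1] at this

/-- Renaming of the variables. -/
theorem PDef.rename (h : PDef L V s P) (f : V → W) : PDef L W s (fun x => P (fun v => x (f v))) := by
  obtain ⟨U, i, Φ, h1, h2⟩ := h
  refine ⟨U, i, Φ.map (Atom.map (Sum.map f id)), by rwa [List.length_map], fun x => ?_⟩
  have e1 : ∀ y : U → Bool, (fun v => Sum.elim x y (Sum.map f id v)) =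
      Sum.elim (fun v => x (f v)) y := fun y => by
    funext v; rcases v with v | v <;> rfl
  show P (fun v => x (f v)) ↔ _
  rw [h2]
  constructor
  · rintro ⟨y, hy⟩
    refine ⟨y, fun φ hφ => ?_⟩
    obtain ⟨ψ, hψ, rfl⟩ := List.mem_map.1 hφ
    rw [Atom.holds_map, e1]
    exact hy ψ hψ
  · rintro ⟨y, hy⟩
    refine ⟨y, fun ψ hψ => ?_⟩
    have := hy _ (List.mem_map.2 ⟨ψ, hψ, rfl⟩)
    rwa [Atom.holds_map, e1] at this

/-- Conjunctions over lists. -/
theorem PDef.list {ι : Type*} (l : List ι) (R : ι → (V → Bool) → Prop)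
    (h : ∀ i ∈ l, PDef L V s (R i)) : PDef L V (l.length * s) (fun x => ∀ i ∈ l, R i x) := by
  induction l with
  | nil => exact (PDef.true.mono (Nat.zero_le _)).congr (by simp)
  | cons a l ih =>
    have h1 := (h a (List.mem_cons_self ..)).and (ih fun i hi => h i (List.mem_cons_of_mem _ hi))
    refine (h1.mono (le_of_eq ?_)).congr fun x => ?_
    · rw [List.length_cons]
      ring
    · simp

/-- Conjunctions over finite types. -/
theorem PDef.all {ι : Type*} [Fintype ι] (R : ι → (V → Bool) → Prop)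
    (h : ∀ i, PDef L V s (R i)) : PDef L V (Fintype.card ι * s) (fun x => ∀ i, R i x) := by
  have h1 := PDef.list (L := L) (s := s) (Finset.univ : Finset ι).toList R fun i _ => h i
  refine (h1.mono (le_of_eq ?_)).congr fun x => ?_
  · rw [Finset.length_toList, Finset.card_univ]
  · simp

/-- Interpretation: if the relations of `L'` are defined over `L` by at most `K` atomic formulas,
then every definition over `L'` gives a definition over `L`. -/
theorem PDef.subst (hK : 1 ≤ K)
    (h : ∀ i, PDef L (Fin (L'.arity i)) K (fun x => L'.rel i x = Bool.true))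
    (hP : PDef L' V s P) : PDef L V (s * K) P := by
  obtain ⟨U, i, Φ, h1, h2⟩ := hP
  have h3 : ∀ φ ∈ Φ, PDef L (V ⊕ U) K (fun x => φ.Holds x) := by
    intro φ _
    cases φ with
    | eq a b => exact (PDef.eq a b).mono hK
    | rel j w => exact (h j).rename w
  have h4 := (PDef.list Φ (fun φ x => φ.Holds x) h3).ex
  exact (h4.mono (Nat.mul_le_mul_right _ h1)).congr fun x => (h2 x).symm

/-- Tests and definitions. -/
theorem ptest_iff {m : ℕ} {T : (Fin m → Bool) → Bool} :
    PTest L s m T ↔ PDef L (Fin m) s (fun x => T x = Bool.true) := by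
  constructor
  · rintro ⟨a, Φ, h1, h2⟩
    exact ⟨Fin a, inferInstance, Φ, h1, h2⟩
  · rintro ⟨U, i, Φ, h1, h2⟩
    have e := Fintype.equivFin U
    refine ⟨Fintype.card U, Φ.map (Atom.map (Sum.map id e)), by rwa [List.length_map], fun x => ?_⟩
    have e1 : ∀ y : Fin (Fintype.card U) → Bool, (fun v => Sum.elim x y (Sum.map id e v)) =
        Sum.elim x (fun u => y (e u)) := fun y => by
      funext v; rcases v with v | v <;> rfl
    have h2' : T x = Bool.true ↔ _ := h2 x
    rw [h2']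
    constructor
    · rintro ⟨y, hy⟩
      refine ⟨fun u => y (e.symm u), fun φ hφ => ?_⟩
      obtain ⟨ψ, hψ, rfl⟩ := List.mem_map.1 hφ
      rw [Atom.holds_map, e1]
      simpa using hy ψ hψ
    · rintro ⟨y, hy⟩
      refine ⟨fun u => y (e u), fun ψ hψ => ?_⟩
      have := hy _ (List.mem_map.2 ⟨ψ, hψ, rfl⟩)
      rwa [Atom.holds_map, e1] at this

end Pool.Agent.MP_ca1109_lc.Csp
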