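import Pool.Agent.MP_ca1109_lc.Csp.A

/-!
# Relations preserved by the polymorphisms are definable
-/

namespace Pool.Agent.MP_ca1109_lc.Csp

variable {L : Lang}

theorem Pol.proj (L : Lang) {k : ℕ} (j : Fin k) : Pol L (fun x : Fin k → Bool => x j) :=
  fun _ _ h => h j

theorem Pol.comp {k n : ℕ} {f : (Fin k → Bool) → Bool} (hf : Pol L f)
    {g : Fin k → (Fin n → Bool) → Bool} (hg : ∀ j, Pol L (g j)) :
    Pol L (fun x => f fun j => g j x) :=
  fun i t h => hf i (fun j c => g j fun l => t l c) fun j => hg j i t h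

theorem Pol.congr {k : ℕ} {f g : (Fin k → Bool) → Bool} (hf : Pol L f) (h : ∀ x, f x = g x) :
    Pol L g := by
  have : f = g := funext h
  rwa [← this]

/-- A relation which is preserved by all polymorphisms of `L` is definable over `L`. -/
theorem inv_pol {r : ℕ} (R : (Fin r → Bool) → Bool)
    (h : ∀ (k : ℕ) (f : (Fin k → Bool) → Bool), Pol L f → ∀ t : Fin k → Fin r → Bool,
      (∀ j, R (t j) = true) → R (fun c => f fun j => t j c) = true) :
    ∃ s, PDef L (Fin r) s (fun x => R x = true) := by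
  classical
  let N := Fintype.card {x : Fin r → Bool // R x = true}
  let e : Fin N ≃ {x : Fin r → Bool // R x = true} := (Fintype.equivFin _).symm
  let t : Fin N → Fin r → Bool := fun n => (e n).1
  have h1 : PDef L (Fin r ⊕ (Fin N → Bool)) (Fintype.card (Fin r) * 1 +
      Fintype.card (Σ i : Fin L.card, Fin N → {w : Fin (L.arity i) → Bool // L.rel i w = true}) * 1)
      (fun z => (∀ c : Fin r, z (Sum.inl c) = z (Sum.inr fun n => t n c)) ∧
        ∀ p : Σ i : Fin L.card, Fin N → {w : Fin (L.arity i) → Bool // L.rel i w = true},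
          L.rel p.1 (fun c => z (Sum.inr fun n => (p.2 n).1 c)) = true) :=
    (PDef.all _ fun c => PDef.eq _ _).and (PDef.all _ fun p => PDef.atom (.rel p.1 _))
  refine ⟨_, (PDef.ex h1).congr fun x => ?_⟩
  constructor
  · rintro ⟨y, hy1, hy2⟩
    have hx : x = fun c => y fun n => t n c := funext hy1
    have hy : Pol L y := by
      intro i s hs
      exact hy2 ⟨i, fun n => ⟨s n, hs n⟩⟩
    rw [hx]
    exact h N y hy t fun n => (e n).2
  · intro hx
    refine ⟨fun u => u (e.symm ⟨x, hx⟩), fun c => ?_, fun p => ?_⟩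
    · show x c = t (e.symm ⟨x, hx⟩) c
      show x c = (e (e.symm ⟨x, hx⟩)).1 c
      rw [Equiv.apply_symm_apply]
    · exact (p.2 _).2

end Pool.Agent.MP_ca1109_lc.Csp
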