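import Pool.Agent.MP_ca1109_lc.Csp.B

/-!
# Ternary Boolean functions
-/

namespace Pool.Agent.MP_ca1109_lc.Csp

variable {L : Lang}

/-- Terms in three variables and a ternary function. -/
inductive Tm : Type
  | x
  | y
  | z
  | g (a b c : Tm)

/-- The value of a term. -/
def Tm.ev (g : Bool → Bool → Bool → Bool) (x y z : Bool) : Tm → Bool
  | .x => x
  | .y => y
  | .z => z
  | .g a b c => g (a.ev g x y z) (b.ev g x y z) (c.ev g x y z)

/-- Functions with a given table. -/
def mk8 (a0 a1 a2 a3 a4 a5 a6 a7 x y z : Bool) : Bool :=
  bif x then (bif y then (bif z then a7 else a6) else (bif z then a5 else a4))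
  else (bif y then (bif z then a3 else a2) else (bif z then a1 else a0))

/-- Equality of ternary functions. -/
def eqB (f g : Bool → Bool → Bool → Bool) : Bool :=
  (f false false false == g false false false) && ((f false false true == g false false true) &&
  ((f false true false == g false true false) && ((f false true true == g false true true) &&
  ((f true false false == g true false false) && ((f true false true == g true false true) &&
  ((f true true false == g true true false) && (f true true true == g true true true)))))))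

theorem eqB_iff {f g : Bool → Bool → Bool → Bool} (h : eqB f g = true) (x y z : Bool) :
    f x y z = g x y z := by
  simp only [eqB, Bool.and_eq_true, beq_iff_eq] at h
  obtain ⟨h0, h1, h2, h3, h4, h5, h6, h7⟩ := h
  cases x <;> cases y <;> cases z <;> assumption

/-- Essentially unary ternary functions. -/
def unB (g : Bool → Bool → Bool → Bool) : Bool :=
  eqB g (fun _ _ _ => false) || (eqB g (fun _ _ _ => true) || (eqB g (fun x _ _ => x) ||
  (eqB g (fun _ y _ => y) || (eqB g (fun _ _ z => z) || (eqB g (fun x _ _ => !x) ||
  (eqB g (fun _ y _ => !y) || eqB g (fun _ _ z => !z)))))))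

/-- The four functions which are found. -/
def tgt (f : Bool → Bool → Bool → Bool) : Bool :=
  eqB f (fun x y _ => x && y) || (eqB f (fun x y _ => x || y) ||
  (eqB f (fun x y z => (x && y) || ((x && z) || (y && z))) || eqB f (fun x y z => (x ^^ y) ^^ z)))

/-- The terms. -/
def tms : List Tm :=
  [.g (.g .x .x .y) (.g .y .y .x) (.g .x .x .y),
   .g (.g .x .x .y) (.g .x .y .y) .y,
   .g .x (.g .y .z .z) (.g .z .y .y),
   .g .x .x (.g .x .x .y),
   .g (.g .x .y .x) .y (.g .x .y .y),
   .g .x (.g .x .y .x) .x,
   .g .x (.g .x .y .y) (.g .x .y .y),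
   .g (.g .x .y .y) .y (.g .y .x .z),
   .g (.g .x .y .z) (.g .x .y .y) (.g .x .z .y),
   .g (.g .x .x .z) .x .y,
   .g .x (.g .y .x .z) (.g .z .x .y),
   .g (.g .x .x .x) (.g .x .y .x) .z]

/-- The check for one function. -/
def chk (g : Bool → Bool → Bool → Bool) : Bool :=
  unB g || tms.any fun t => tgt fun x y z => t.ev g x y z

theorem chk_mk8 : ∀ a0 a1 a2 a3 a4 a5 a6 a7 : Bool, chk (mk8 a0 a1 a2 a3 a4 a5 a6 a7) = true := by
  decide +kernel

theorem chk_all (g : Bool → Bool → Bool → Bool) : chk g = true := by
  have h : g = mk8 (g false false false) (g false false true) (g false true false)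
      (g false true true) (g true false false) (g true false true) (g true true false)
      (g true true true) := by
    funext x y z
    cases x <;> cases y <;> cases z <;> rfl
  rw [h]
  exact chk_mk8 _ _ _ _ _ _ _ _

theorem Pol.term {g : Bool → Bool → Bool → Bool}
    (hg : Pol L fun v : Fin 3 → Bool => g (v 0) (v 1) (v 2)) (t : Tm) :
    Pol L fun v : Fin 3 → Bool => t.ev g (v 0) (v 1) (v 2) := by
  induction t with
  | x => exact Pol.proj L 0
  | y => exact Pol.proj L 1
  | z => exact Pol.proj L 2
  | g a b c ha hb hc =>
    exact hg.comp (g := ![fun v => a.ev g (v 0) (v 1) (v 2), fun v => b.ev g (v 0) (v 1) (v 2),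
      fun v => c.ev g (v 0) (v 1) (v 2)]) (Fin.forall_fin_succ.2 ⟨ha, Fin.forall_fin_succ.2 ⟨hb,
        Fin.forall_fin_succ.2 ⟨hc, fun i => i.elim0⟩⟩⟩)

/-- The majority of three bits. -/
def maj3 (x y z : Bool) : Bool := (x && y) || ((x && z) || (y && z))

theorem nu_maj3 : NearUnanimity (fun v : Fin 3 → Bool => maj3 (v 0) (v 1) (v 2)) := by
  refine ⟨le_rfl, ?_⟩
  decide

/-- Essentially unary functions. -/
def Unary {k : ℕ} (f : (Fin k → Bool) → Bool) : Prop :=
  (∃ c, ∀ x, f x = c) ∨ ∃ i c, ∀ x, f x = (x i ^^ c)

theorem ternary_or {g : Bool → Bool → Bool → Bool}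
    (hg : Pol L fun v : Fin 3 → Bool => g (v 0) (v 1) (v 2)) :
    Unary (fun v : Fin 3 → Bool => g (v 0) (v 1) (v 2)) ∨ Horn L ∨ CoHorn L ∨ Easy L := by
  have h := chk_all g
  rw [chk, Bool.or_eq_true] at h
  rcases h with h | h
  · left
    simp only [unB, Bool.or_eq_true] at h
    rcases h with h | h | h | h | h | h | h | h
    · exact Or.inl ⟨false, fun v => eqB_iff h _ _ _⟩
    · exact Or.inl ⟨true, fun v => eqB_iff h _ _ _⟩
    · exact Or.inr ⟨0, false, fun v => (eqB_iff h _ _ _).trans (by simp)⟩
    · exact Or.inr ⟨1, false, fun v => (eqB_iff h _ _ _).trans (by simp)⟩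
    · exact Or.inr ⟨2, false, fun v => (eqB_iff h _ _ _).trans (by simp)⟩
    · exact Or.inr ⟨0, true, fun v => (eqB_iff h _ _ _).trans (by simp)⟩
    · exact Or.inr ⟨1, true, fun v => (eqB_iff h _ _ _).trans (by simp)⟩
    · exact Or.inr ⟨2, true, fun v => (eqB_iff h _ _ _).trans (by simp)⟩
  · right
    rw [List.any_eq_true] at h
    obtain ⟨t, -, ht⟩ := h
    have h1 := Pol.term hg t
    have h2 : ∀ i : Fin 3, Pol L (![fun x : Fin 2 → Bool => x 0, fun x => x 1, fun x => x 1] i) :=
      Fin.forall_fin_succ.2 ⟨Pol.proj L 0, Fin.forall_fin_succ.2 ⟨Pol.proj L 1,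
        Fin.forall_fin_succ.2 ⟨Pol.proj L 1, fun i => i.elim0⟩⟩⟩
    simp only [tgt, Bool.or_eq_true] at ht
    rcases ht with ht | ht | ht | ht
    · exact Or.inl ((h1.comp h2).congr fun x => eqB_iff ht _ _ _)
    · exact Or.inr (Or.inl ((h1.comp h2).congr fun x => eqB_iff ht _ _ _))
    · exact Or.inr (Or.inr (Or.inl ⟨3, _, nu_maj3, h1.congr fun x => eqB_iff ht _ _ _⟩))
    · exact Or.inr (Or.inr (Or.inr (h1.congr fun x => eqB_iff ht _ _ _)))

/-- A function all of whose ternary minors are essentially unary is essentially unary, if it maps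
the constant tuple `false` to `false`. -/
theorem unary_aux {k : ℕ} {f : (Fin k → Bool) → Bool}
    (h : ∀ σ : Fin k → Fin 3, Unary fun v : Fin 3 → Bool => f fun j => v (σ j))
    (h0 : f (fun _ => false) = false) : Unary f := by
  classical
  obtain ⟨F, hF⟩ : ∃ F : Finset (Fin k) → Bool, ∀ S, F S = f fun j => decide (j ∈ S) :=
    ⟨_, fun _ => rfl⟩
  have hf : ∀ x, f x = F (Finset.univ.filter fun j => x j = true) := fun x => by
    rw [hF]
    congr 1
    funext j
    simp
  by_cases h1 : f (fun _ => true) = true
  · have key : ∀ A B : Finset (Fin k), Disjoint A B → ∃ l : Fin 3, F A = decide (l = 0) ∧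
        F B = decide (l = 1) ∧ F (A ∪ B) = decide (l ≠ 2) := by
      intro A B hAB
      have hd : ∀ j, j ∈ A → j ∉ B := fun j hj hj' => Finset.disjoint_left.1 hAB hj hj'
      have h2 := h fun j => if j ∈ A then 0 else if j ∈ B then 1 else 2
      rcases h2 with ⟨c, h2⟩ | ⟨l, c, h2⟩
      · have h3 := h2 fun _ => false
        have h4 := h2 fun _ => true
        simp only at h3 h4
        rw [h0] at h3
        rw [h1, ← h3] at h4
        exact absurd h4 (by simp)
      · have hc : c = false := by
          have h3 := h2 fun _ => false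
          simp only at h3
          rw [h0] at h3
          simpa using h3.symm
        subst hc
        refine ⟨l, ?_, ?_, ?_⟩
        · have h3 := h2 ![true, false, false]
          simp only [Bool.xor_false] at h3
          rw [hF]
          refine Eq.trans (congrArg f ?_) (h3.trans ?_)
          · funext j
            by_cases hA : j ∈ A
            · simp [hA]
            · by_cases hB : j ∈ B <;> simp [hA, hB]
          · exact (by decide : ∀ l : Fin 3, (![true, false, false] : Fin 3 → Bool) l = decide (l = 0)) l
        · have h3 := h2 ![false, true, false]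
          simp only [Bool.xor_false] at h3
          rw [hF]
          refine Eq.trans (congrArg f ?_) (h3.trans ?_)
          · funext j
            by_cases hA : j ∈ A
            · simp [hA, hd j hA]
            · by_cases hB : j ∈ B <;> simp [hA, hB]
          · exact (by decide : ∀ l : Fin 3, (![false, true, false] : Fin 3 → Bool) l = decide (l = 1)) l
        · have h3 := h2 ![true, true, false]
          simp only [Bool.xor_false] at h3
          rw [hF]
          refine Eq.trans (congrArg f ?_) (h3.trans ?_)
          · funext j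
            by_cases hA : j ∈ A
            · simp [hA]
            · by_cases hB : j ∈ B <;> simp [hA, hB]
          · exact (by decide : ∀ l : Fin 3, (![true, true, false] : Fin 3 → Bool) l = decide (l ≠ 2)) l
    have hex : ∀ S : Finset (Fin k), F S = true → ∃ i ∈ S, F {i} = true := by
      intro S
      induction S using Finset.induction_on with
      | empty =>
        intro hS
        rw [hF] at hS
        simp [h0] at hS
      | insert a S ha ih =>
        intro hS
        obtain ⟨l, e1, e2, e3⟩ := key {a} S (by simpa using ha)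
        rw [Finset.insert_eq, e3] at hS
        by_cases hl : l = 0
        · exact ⟨a, Finset.mem_insert_self _ _, by rw [e1, hl]; rfl⟩
        · have hl' : l = 1 :=
            (by decide : ∀ l : Fin 3, decide (l ≠ 2) = true → ¬ l = 0 → l = 1) l hS hl
          obtain ⟨i, hi, hi'⟩ := ih (by rw [e2, hl']; rfl)
          exact ⟨i, Finset.mem_insert_of_mem hi, hi'⟩
    obtain ⟨i, -, hi⟩ := hex Finset.univ (by rw [hF]; simpa using h1)
    refine Or.inr ⟨i, false, fun x => ?_⟩
    rw [hf, Bool.xor_false]
    set S := Finset.univ.filter fun j => x j = true with hS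
    by_cases hx : x i = true
    · have hiS : i ∈ S := by simp [hS, hx]
      obtain ⟨l, e1, e2, e3⟩ := key {i} (S.erase i) (by simp)
      rw [← Finset.insert_eq, Finset.insert_erase hiS] at e3
      rw [e3, hx]
      rw [hi] at e1
      have : l = 0 := by simpa using e1.symm
      rw [this]
      rfl
    · have hiS : i ∉ S := by simp [hS, hx]
      obtain ⟨l, e1, e2, e3⟩ := key {i} S (by simpa using hiS)
      rw [hi] at e1
      have : l = 0 := by simpa using e1.symm
      rw [e2, this]
      simpa using hx
  · rw [Bool.not_eq_true] at h1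
    refine Or.inl ⟨false, fun x => ?_⟩
    have h2 := h fun j => if x j = true then 1 else 0
    rcases h2 with ⟨c, h2⟩ | ⟨l, c, h2⟩
    · have h3 := h2 fun _ => false
      have h4 := h2 ![false, true, false]
      simp only at h3 h4
      rw [h0] at h3
      rw [← h3] at h4
      refine Eq.trans (congrArg f ?_) h4
      funext j
      cases x j <;> rfl
    · have h3 := h2 fun _ => false
      have h4 := h2 fun _ => true
      simp only at h3 h4
      rw [h0] at h3
      rw [h1] at h4
      cases c
      · exact absurd h4 (by decide)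
      · exact absurd h3 (by decide)

theorem Unary.not {k : ℕ} {f : (Fin k → Bool) → Bool} (h : Unary f) : Unary (fun x => !(f x)) := by
  rcases h with ⟨c, h⟩ | ⟨i, c, h⟩
  · exact Or.inl ⟨!c, fun x => congrArg _ (h x)⟩
  · refine Or.inr ⟨i, !c, fun x => (congrArg _ (h x)).trans ?_⟩
    cases x i <;> cases c <;> rfl

/-- A function all of whose ternary minors are essentially unary is essentially unary. -/
theorem unary_of_minors {k : ℕ} {f : (Fin k → Bool) → Bool}
    (h : ∀ σ : Fin k → Fin 3, Unary fun v : Fin 3 → Bool => f fun j => v (σ j)) : Unary f := by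
  cases h0 : f fun _ => false
  · exact unary_aux h h0
  · have h1 := unary_aux (f := fun x => !(f x)) (fun σ => (h σ).not) (by simp [h0])
    have h2 := h1.not
    simpa using h2

/-- Every polymorphism is essentially unary, or one of four functions is a polymorphism. -/
theorem unary_or {k : ℕ} {f : (Fin k → Bool) → Bool} (hf : Pol L f) :
    Unary f ∨ Horn L ∨ CoHorn L ∨ Easy L := by
  by_cases h : ∀ σ : Fin k → Fin 3, Unary fun v : Fin 3 → Bool => f fun j => v (σ j)
  · exact Or.inl (unary_of_minors h)
  · push Not at h
    obtain ⟨σ, hσ⟩ := h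
    have h1 : Pol L fun v : Fin 3 → Bool => f fun j => v (σ j) := hf.comp fun j => Pol.proj L (σ j)
    have h2 : (fun v : Fin 3 → Bool => f fun j => v (σ j)) = fun v : Fin 3 → Bool =>
        (fun x y z : Bool => f fun j => ![x, y, z] (σ j)) (v 0) (v 1) (v 2) := by
      funext v
      congr 1
      funext j
      have : ∀ i : Fin 3, v i = ![v 0, v 1, v 2] i := by
        intro i
        fin_cases i <;> rfl
      exact this (σ j)
    rw [h2] at h1 hσ
    rcases ternary_or (g := fun x y z : Bool => f fun j => ![x, y, z] (σ j)) h1 with h3 | h3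
    · exact absurd h3 hσ
    · exact Or.inr h3

end Pool.Agent.MP_ca1109_lc.Csp
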