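import Pool.Agent.MP_ca1109_lc.Csp.C1
import Pool.Agent.MP_ca1109_lc.Post.Defs

/-!
# Polymorphisms of Horn languages
-/

namespace Pool.Agent.MP_ca1109_lc.Csp

open Pool.Agent.MP_ca1109_lc.Post (IsAnd)

variable {L : Lang} {n : ℕ}

theorem Pol.and (hL : Horn L) {a b : (Fin n → Bool) → Bool} (ha : Pol L a) (hb : Pol L b) :
    Pol L (fun x => a x && b x) :=
  Pol.comp (f := fun x : Fin 2 → Bool => x 0 && x 1) hL (g := ![a, b])
    (Fin.forall_fin_succ.2 ⟨ha, Fin.forall_fin_succ.2 ⟨hb, fun i => i.elim0⟩⟩)

theorem Pol.three {g : Bool → Bool → Bool → Bool}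
    (hg : Pol L fun v : Fin 3 → Bool => g (v 0) (v 1) (v 2)) {a b c : (Fin n → Bool) → Bool}
    (ha : Pol L a) (hb : Pol L b) (hc : Pol L c) : Pol L (fun x => g (a x) (b x) (c x)) :=
  hg.comp (g := ![a, b, c]) (Fin.forall_fin_succ.2 ⟨ha, Fin.forall_fin_succ.2 ⟨hb,
    Fin.forall_fin_succ.2 ⟨hc, fun i => i.elim0⟩⟩⟩)

/-- The function `a && (b || c)`. -/
def grd (a b c : Bool) : Bool := a && (b || c)

/-- A polymorphism of a Horn language which is not a conjunction gives `a && (b || c)`. -/
theorem guard_of {k : ℕ} (hL : Horn L) {f : (Fin k → Bool) → Bool} (hf : Pol L f)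
    (h : ¬ IsAnd f) : Pol L fun v : Fin 3 → Bool => grd (v 0) (v 1) (v 2) := by
  classical
  have p0 : Pol L fun v : Fin 3 → Bool => v 0 := Pol.proj L 0
  have p1 : Pol L fun v : Fin 3 → Bool => v 1 := Pol.proj L 1
  have p2 : Pol L fun v : Fin 3 → Bool => v 2 := Pol.proj L 2
  by_cases hm : ∀ x y : Fin k → Bool, (∀ j, x j = true → y j = true) → f x = true → f y = true
  · obtain ⟨F, hF⟩ : ∃ F : Finset (Fin k) → Bool, ∀ S, F S = f fun j => decide (j ∈ S) :=
      ⟨_, fun _ => rfl⟩
    have hfF : ∀ x, f x = F (Finset.univ.filter fun j => x j = true) := fun x => by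
      rw [hF]
      congr 1
      funext j
      simp
    have hmF : ∀ S T : Finset (Fin k), S ⊆ T → F S = true → F T = true := by
      intro S T hST hS
      rw [hF] at hS ⊢
      refine hm _ _ (fun j hj => ?_) hS
      rw [decide_eq_true_eq] at hj ⊢
      exact hST hj
    have hF0 : F ∅ = false := by
      by_contra hc
      rw [Bool.not_eq_false] at hc
      refine h (Or.inr ⟨∅, fun x => ?_⟩)
      simp only [Finset.notMem_empty, false_implies, implies_true, iff_true]
      rw [hfF]
      exact hmF _ _ (Finset.empty_subset _) hc
    have hne : (Finset.univ.filter fun S : Finset (Fin k) => F S = true).Nonempty := by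
      by_contra hc
      rw [Finset.not_nonempty_iff_eq_empty, Finset.filter_eq_empty_iff] at hc
      refine h (Or.inl fun x => ?_)
      rw [hfF]
      simpa using hc (Finset.mem_univ (Finset.univ.filter fun j => x j = true))
    obtain ⟨S, hS, hmin⟩ := Finset.exists_min_image _ Finset.card hne
    rw [Finset.mem_filter] at hS
    have hT : ∃ T, F T = true ∧ ¬ S ⊆ T := by
      by_contra hc
      push Not at hc
      refine h (Or.inr ⟨S, fun x => ?_⟩)
      rw [hfF]
      constructor
      · intro hx i hi
        simpa using hc _ hx hi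
      · intro hx
        refine hmF S _ (fun i hi => ?_) hS.2
        simpa using hx i hi
    obtain ⟨T, hT1, hT2⟩ := hT
    have hST : F (S ∩ T) = false := by
      by_contra hc
      rw [Bool.not_eq_false] at hc
      have h1 := hmin (S ∩ T) (by simpa using hc)
      have h2 := Finset.eq_of_subset_of_card_le Finset.inter_subset_left h1
      exact hT2 (Finset.inter_eq_left.1 h2)
    have hv : Pol L fun v : Fin 3 → Bool => f fun j => if j ∈ S then (if j ∈ T then v 0 else
        v 0 && v 1) else (if j ∈ T then v 0 && v 2 else v 0 && (v 1 && v 2)) := by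
      refine hf.comp (g := fun j v => if j ∈ S then (if j ∈ T then v 0 else
        v 0 && v 1) else (if j ∈ T then v 0 && v 2 else v 0 && (v 1 && v 2))) fun j => ?_
      by_cases h1 : j ∈ S <;> by_cases h2 : j ∈ T
      · simpa [h1, h2] using p0
      · simpa [h1, h2] using p0.and hL p1
      · simpa [h1, h2] using p0.and hL p2
      · simpa [h1, h2] using p0.and hL (p1.and hL p2)
    refine hv.congr fun v => ?_
    have e0 : f (fun _ => false) = false := by
      have h1 := hF0
      rw [hF] at h1
      simpa using h1
    have e1 : f (fun _ => true) = true := by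
      have := hmF S Finset.univ (Finset.subset_univ _) hS.2
      rw [hF] at this
      simpa using this
    have e2 := hS.2
    have e3 := hT1
    have e4 := hST
    rw [hF] at e2 e3 e4
    generalize v 0 = a
    generalize v 1 = b
    generalize v 2 = c
    cases a
    · refine Eq.trans (congrArg f ?_) e0
      funext j
      by_cases h1 : j ∈ S <;> by_cases h2 : j ∈ T <;> simp [h1, h2]
    · cases b <;> cases c
      · refine Eq.trans (congrArg f ?_) e4
        funext j
        by_cases h1 : j ∈ S <;> by_cases h2 : j ∈ T <;> simp [h1, h2]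
      · refine Eq.trans (congrArg f ?_) e3
        funext j
        by_cases h1 : j ∈ S <;> by_cases h2 : j ∈ T <;> simp [h1, h2]
      · refine Eq.trans (congrArg f ?_) e2
        funext j
        by_cases h1 : j ∈ S <;> by_cases h2 : j ∈ T <;> simp [h1, h2]
      · refine Eq.trans (congrArg f ?_) e1
        funext j
        by_cases h1 : j ∈ S <;> by_cases h2 : j ∈ T <;> simp [h1, h2]
  · push Not at hm
    obtain ⟨x, y, hxy, hx, hy⟩ := hm
    have hy : f y = false := by
      cases h1 : f y
      · rfl
      · exact absurd h1 hy
    have hv : Pol L fun v : Fin 3 → Bool => v 0 && f fun j => if x j = true then v 0 else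
        (if y j = true then v 0 && v 1 else v 0 && (v 1 && v 2)) := by
      refine p0.and hL (hf.comp (g := fun j v => if x j = true then v 0 else
        (if y j = true then v 0 && v 1 else v 0 && (v 1 && v 2))) fun j => ?_)
      by_cases h1 : x j = true
      · simpa [h1] using p0
      · by_cases h2 : y j = true
        · simpa [h1, h2] using p0.and hL p1
        · simpa [h1, h2] using p0.and hL (p1.and hL p2)
    obtain ⟨d, hd⟩ : ∃ d, f (fun _ => true) = d := ⟨_, rfl⟩
    have hq : Pol L fun v : Fin 3 → Bool =>
        (fun a b c : Bool => a && (!b || (c && d))) (v 0) (v 1) (v 2) := by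
      refine hv.congr fun v => ?_
      show _ = (v 0 && (!v 1 || (v 2 && d)))
      generalize v 0 = a
      generalize v 1 = b
      generalize v 2 = c
      cases a
      · rfl
      · have e1 : (f fun j => if x j = true then true else (if y j = true then true && b else
            true && (b && c))) = (!b || (c && d)) := by
          cases b
          · refine Eq.trans (congrArg f ?_) hx
            funext j
            cases hxj : x j <;> simp
          · cases c
            · refine Eq.trans (congrArg f ?_) hy
              funext j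
              cases hxj : x j
              · cases hyj : y j <;> simp
              · simp [hxy j hxj]
            · refine Eq.trans (congrArg f ?_) hd
              funext j
              simp
        rw [e1]
    cases d
    · have h1 : Pol L fun v : Fin 3 → Bool =>
          (fun a b _ : Bool => a && !b) (v 0) (v 1) (v 2) :=
        hq.congr fun v => by simp
      have h2 := Pol.three (n := 3) (g := fun a b _ => a && !b) h1 p0 p1 p0
      have h3 := Pol.three (g := fun a b _ => a && !b) h1 h2 p2 p0
      have h4 := Pol.three (g := fun a b _ => a && !b) h1 p0 h3 p0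
      refine h4.congr fun v => ?_
      show (v 0 && !((v 0 && !v 1) && !v 2)) = grd (v 0) (v 1) (v 2)
      generalize v 0 = a
      generalize v 1 = b
      generalize v 2 = c
      revert a b c
      decide
    · have h2 := Pol.three (n := 3) (g := fun a b c => a && (!b || (c && true))) hq p0 hq p2
      refine h2.congr fun v => ?_
      show (v 0 && (!(v 0 && (!v 1 || (v 2 && true))) || (v 2 && true))) = grd (v 0) (v 1) (v 2)
      generalize v 0 = a
      generalize v 1 = b
      generalize v 2 = c
      revert a b c
      decide

/-- At most one of the arguments is `false`. -/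
def few {k : ℕ} (x : Fin k → Bool) : Bool := decide (∃ i, ∀ j, j ≠ i → x j = true)

theorem nu_few {k : ℕ} (hk : 3 ≤ k) : NearUnanimity (few (k := k)) := by
  refine ⟨hk, fun i a b => ?_⟩
  cases a
  · rw [few, decide_eq_false_iff_not]
    rintro ⟨l, hl⟩
    have h1 : ∃ j : Fin k, j ≠ i ∧ j ≠ l := by
      by_contra hc
      push Not at hc
      have h2 : (Finset.univ : Finset (Fin k)) ⊆ {i, l} := by
        intro j _
        by_cases hj : j = i
        · simp [hj]
        · simp [hc j hj]
      have h3 := (Finset.card_le_card h2).trans Finset.card_le_two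
      rw [Finset.card_univ, Fintype.card_fin] at h3
      omega
    obtain ⟨j, hj1, hj2⟩ := h1
    have := hl j hj2
    rw [Function.update_of_ne hj1] at this
    exact absurd this (by simp)
  · rw [few, decide_eq_true_eq]
    exact ⟨i, fun j hj => by rw [Function.update_of_ne hj]⟩

/-- A Horn language with the polymorphism `a && (b || c)` has a near-unanimity polymorphism. -/
theorem easy_of_guard (hg : Pol L fun v : Fin 3 → Bool => grd (v 0) (v 1) (v 2)) : Easy L := by
  classical
  obtain ⟨k, hk⟩ : ∃ k, k = (Finset.univ.sup L.arity) + 3 := ⟨_, rfl⟩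
  refine Or.inl ⟨k, few, nu_few (by omega), fun i t ht => ?_⟩
  have hr : L.arity i < k := by
    have := Finset.le_sup (f := L.arity) (Finset.mem_univ i)
    omega
  have hG : ∀ s₁ s₂ s₃ : Fin (L.arity i) → Bool, L.rel i s₁ = true → L.rel i s₂ = true →
      L.rel i s₃ = true → L.rel i (fun c => s₁ c && (s₂ c || s₃ c)) = true := by
    intro s₁ s₂ s₃ h1 h2 h3
    exact hg i ![s₁, s₂, s₃] (Fin.forall_fin_succ.2 ⟨h1, Fin.forall_fin_succ.2 ⟨h2,
      Fin.forall_fin_succ.2 ⟨h3, fun i => i.elim0⟩⟩⟩)
  have hA : ∀ s₁ s₂ : Fin (L.arity i) → Bool, L.rel i s₁ = true → L.rel i s₂ = true →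
      L.rel i (fun c => s₁ c && s₂ c) = true := by
    intro s₁ s₂ h1 h2
    have := hG s₁ s₂ s₂ h1 h2 h2
    simpa using this
  -- an index which is not exceptional
  obtain ⟨js, hjs⟩ : ∃ js : Fin k, ∀ c, ¬ (t js c = false ∧ ∀ j, j ≠ js → t j c = true) := by
    by_contra hc
    push Not at hc
    choose φ hφ using hc
    have hinj : Function.Injective φ := by
      intro j j' hjj
      by_contra hne
      have h1 := (hφ j).1
      have h2 := (hφ j').2 j hne
      rw [← hjj] at h2
      rw [h1] at h2
      exact absurd h2 (by simp)
    have := Fintype.card_le_of_injective φ hinj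
    rw [Fintype.card_fin, Fintype.card_fin] at this
    omega
  have hJ : ∀ J : Finset (Fin k), J.Nonempty →
      L.rel i (fun c => decide (∀ j ∈ J, t j c = true)) = true := by
    intro J hJ
    induction hJ using Finset.Nonempty.cons_induction with
    | singleton a =>
      refine Eq.trans (congrArg _ ?_) (ht a)
      funext c
      simp
    | cons a J ha hJ ih =>
      refine Eq.trans (congrArg _ ?_) (hA _ _ (ht a) ih)
      funext c
      simp
  have hW : ∀ l : Fin k, L.rel i (fun c => decide (∀ j, j ≠ l → t j c = true)) = true := by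
    intro l
    have h1 : (Finset.univ.erase l).Nonempty := by
      rw [← Finset.card_pos, Finset.card_erase_of_mem (Finset.mem_univ _), Finset.card_univ,
        Fintype.card_fin]
      omega
    refine Eq.trans (congrArg _ ?_) (hJ _ h1)
    funext c
    simp
  have hI : ∀ I : Finset (Fin k), I.Nonempty →
      L.rel i (fun c => t js c && decide (∃ l ∈ I, ∀ j, j ≠ l → t j c = true)) = true := by
    intro I hI
    induction hI using Finset.Nonempty.cons_induction with
    | singleton a =>
      refine Eq.trans (congrArg _ ?_) (hA _ _ (ht js) (hW a))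
      funext c
      simp
    | cons a J ha hJ ih =>
      refine Eq.trans (congrArg _ ?_) (hG _ _ _ (ht js) (hW a) ih)
      funext c
      simp only [Finset.mem_cons, exists_eq_or_imp, Bool.decide_or]
      cases t js c <;> simp
  refine Eq.trans (congrArg _ ?_) (hI Finset.univ ⟨js, Finset.mem_univ _⟩)
  funext c
  have h1 : (∃ l ∈ (Finset.univ : Finset (Fin k)), ∀ j, j ≠ l → t j c = true) ↔
      ∃ l, ∀ j, j ≠ l → t j c = true := by simp
  rw [few, Bool.eq_iff_iff, Bool.and_eq_true, decide_eq_true_eq, decide_eq_true_eq, h1]
  constructor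
  · rintro ⟨l, hl⟩
    refine ⟨?_, l, hl⟩
    by_cases hl' : js = l
    · by_contra hc
      rw [Bool.not_eq_true] at hc
      exact hjs c ⟨hc, fun j hj => hl j (by rwa [← hl'])⟩
    · exact hl js hl'
  · exact fun h => h.2

/-- The polymorphisms of a Horn language which is not easy are conjunctions. -/
theorem isAnd_of {k : ℕ} (hL : Horn L) (hE : ¬ Easy L) {f : (Fin k → Bool) → Bool}
    (hf : Pol L f) : IsAnd f := by
  by_contra h
  exact hE (easy_of_guard (guard_of hL hf h))

end Pool.Agent.MP_ca1109_lc.Csp
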