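import Pool.Agent.MP_ca1109_lc.Csp.B
import Pool.Agent.MP_ca1109_lc.Post.P10

/-!
# Generators for the languages with a near-unanimity polymorphism or an affine polymorphism
-/

namespace Pool.Agent.MP_ca1109_lc.Csp

open Pool.Agent.H66 Pool.Agent.MP_ca1109_lc.Mpg
open Pool.Agent.MP_ca1109_lc.Hyb (MixedTest)

variable {L : Lang} {m : ℕ} {T : (Fin m → Bool) → Bool}

/-- The tests are preserved by the polymorphisms. -/
theorem PAny.pol (hT : PAny L m T) {k : ℕ} {f : (Fin k → Bool) → Bool} (hf : Pol L f)
    (t : Fin k → Fin m → Bool) (ht : ∀ j, T (t j) = true) :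
    T (fun c => f fun j => t j c) = true := by
  obtain ⟨s, a, Φ, -, hΦ⟩ := hT
  have h1 : ∀ j, ∃ y : Fin a → Bool, ∀ φ ∈ Φ, φ.Holds (Sum.elim (t j) y) :=
    fun j => (hΦ _).1 (ht j)
  choose y hy using h1
  rw [hΦ]
  refine ⟨fun c => f fun j => y j c, fun φ hφ => ?_⟩
  have e : Sum.elim (fun c => f fun j => t j c) (fun c => f fun j => y j c) =
      fun v => f fun j => Sum.elim (t j) (y j) v := by
    funext v
    rcases v with v | v <;> rfl
  rw [e]
  cases φ with
  | eq a b =>
    show (f fun j => Sum.elim (t j) (y j) a) = f fun j => Sum.elim (t j) (y j) b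
    congr 1
    funext j
    exact hy j _ hφ
  | rel i w => exact hf i (fun j c => Sum.elim (t j) (y j) (w c)) fun j => hy j _ hφ

/-- Baker and Pixley. -/
theorem baker_pixley {k : ℕ} {f : (Fin k → Bool) → Bool} (hf : NearUnanimity f)
    (hT : ∀ t : Fin k → Fin m → Bool, (∀ j, T (t j) = true) → T (fun c => f fun j => t j c) = true)
    (x : Fin m → Bool)
    (h : ∀ S : Finset (Fin m), S.card ≤ k - 1 → ∃ z, T z = true ∧ ∀ c ∈ S, z c = x c) :
    T x = true := by
  classical
  have h3 := hf.1
  have key : ∀ (n : ℕ) (S : Finset (Fin m)), S.card = n → ∃ z, T z = true ∧ ∀ c ∈ S, z c = x c := by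
    intro n
    induction n using Nat.strong_induction_on with
    | _ n ih =>
      intro S hS
      by_cases hn : n ≤ k - 1
      · exact h S (hS.trans_le hn)
      · obtain ⟨S', hS', hc⟩ := Finset.exists_subset_card_eq (show k ≤ S.card by omega)
        let e : Fin k ≃ S' := (Finset.equivFinOfCardEq hc).symm
        have h4 : ∀ i : Fin k, ∃ z, T z = true ∧ ∀ c ∈ S.erase (e i).1, z c = x c := by
          intro i
          refine ih (n - 1) (by omega) _ ?_
          rw [Finset.card_erase_of_mem (hS' (e i).2), hS]
        choose z hz1 hz2 using h4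
        refine ⟨fun c => f fun j => z j c, hT z hz1, fun c hc => ?_⟩
        by_cases hcS : c ∈ S'
        · obtain ⟨i, hi⟩ : ∃ i, (e i).1 = c := ⟨e.symm ⟨c, hcS⟩, by simp⟩
          have e1 : (fun j => z j c) = Function.update (fun _ => x c) i (z i c) := by
            funext j
            by_cases hj : j = i
            · subst hj
              simp
            · rw [Function.update_of_ne hj]
              refine hz2 j c (Finset.mem_erase.2 ⟨fun hcj => hj ?_, hc⟩)
              apply e.injective
              apply Subtype.ext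
              rw [← hcj, hi]
          show f (fun j => z j c) = x c
          rw [e1]
          exact hf.2 _ _ _
        · have e1 : (fun j => z j c) = Function.update (fun _ => x c) ⟨0, by omega⟩ (x c) := by
            rw [Function.update_eq_self]
            funext j
            exact hz2 j c (Finset.mem_erase.2 ⟨fun hcj => hcS (hcj ▸ (e j).2), hc⟩)
          show f (fun j => z j c) = x c
          rw [e1]
          exact hf.2 _ _ _
  obtain ⟨z, hz1, hz2⟩ := key _ Finset.univ rfl
  have : z = x := funext fun c => hz2 c (Finset.mem_univ c)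
  rwa [← this]

/-- A function determined by a sum in an abelian group. -/
theorem mixed_of {Γ : Type} [AddCommGroup Γ] {d : ℕ} {P : (Fin m → Bool) → Γ}
    (hP : P ∈ lowDeg (Fin m) Bool Γ d) (h : ∀ x, T x = true ↔ P x = 0) : MixedTest d 1 m T :=
  ⟨fun _ _ => 0, fun _ => Γ, fun _ => inferInstance, fun _ => P, fun _ c => c 0,
    fun _ => lowDeg_const 0, fun _ => hP, h⟩

theorem nu_mixed {k : ℕ} {f : (Fin k → Bool) → Bool} (hf : NearUnanimity f)
    (hT : ∀ t : Fin k → Fin m → Bool, (∀ j, T (t j) = true) →
      T (fun c => f fun j => t j c) = true) : MixedTest (k - 1) 1 m T := by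
  classical
  let good : Finset (Fin m) → (Fin m → Bool) → Prop := fun S x =>
    ∃ z, T z = true ∧ ∀ c ∈ S, z c = x c
  let 𝒮 : Finset (Finset (Fin m)) := Finset.univ.filter fun S => S.card ≤ k - 1
  refine mixed_of (P := ∑ S ∈ 𝒮, fun x => if good S x then (0 : ℤ) else 1)
    (AddSubgroup.sum_mem _ fun S hS => ?_) fun x => ?_
  · refine junta_mem S (Finset.mem_filter.1 hS).2 fun x y hxy => ?_
    have h1 : good S x ↔ good S y := by
      refine exists_congr fun z => and_congr_right fun _ => forall₂_congr fun c hc => ?_
      rw [hxy c hc]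
    show (if good S x then (0 : ℤ) else 1) = if good S y then (0 : ℤ) else 1
    simp only [h1]
  · rw [Finset.sum_apply, Finset.sum_eq_zero_iff_of_nonneg (fun S _ => by split_ifs <;> norm_num)]
    constructor
    · intro hx S _
      exact if_pos ⟨x, hx, fun _ _ => rfl⟩
    · intro hx
      refine baker_pixley hf hT x fun S hS => ?_
      by_contra hc
      have h1 := hx S (Finset.mem_filter.2 ⟨Finset.mem_univ _, hS⟩)
      rw [if_neg hc] at h1
      exact one_ne_zero h1

/-- The bit as an element of `ZMod 2`. -/
def bz (b : Bool) : ZMod 2 := if b then 1 else 0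

theorem affine_mixed (hT : ∀ x y z, T x = true → T y = true → T z = true →
      T (fun c => (x c ^^ y c) ^^ z c) = true) : MixedTest 1 1 m T := by
  classical
  by_cases h0 : ∃ x₀, T x₀ = true
  · obtain ⟨x₀, h0⟩ := h0
    let W : AddSubgroup (Fin m → ZMod 2) :=
      { carrier := {w | T (fun i => x₀ i ^^ decide (w i = 1)) = true}
        add_mem' := by
          intro w w' hw hw'
          have h1 := hT _ _ _ hw hw' h0
          refine Eq.trans (congrArg T ?_) h1
          funext i
          show (x₀ i ^^ decide (w i + w' i = 1)) = _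
          generalize w i = a
          generalize w' i = b
          generalize x₀ i = c
          revert a b c
          decide
        zero_mem' := by
          refine Eq.trans (congrArg T ?_) h0
          funext i
          simp
        neg_mem' := by
          intro w hw
          refine Eq.trans (congrArg T ?_) hw
          funext i
          show (x₀ i ^^ decide (-(w i) = 1)) = (x₀ i ^^ decide (w i = 1))
          generalize w i = a
          generalize x₀ i = c
          revert a c
          decide }
    have hP := Post.p10_mem (n := m) (R := (Fin m → ZMod 2) ⧸ W) 0 Finset.univ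
      fun i c => QuotientAddGroup.mk' W (Pi.single i (bz c - bz (x₀ i)))
    refine mixed_of hP fun x => ?_
    rw [zero_add, ← map_sum]
    have e1 : ∑ i, (Pi.single i (bz (x i) - bz (x₀ i)) : Fin m → ZMod 2) =
        fun i => bz (x i) - bz (x₀ i) := by
      rw [Finset.univ_sum_single fun i => bz (x i) - bz (x₀ i)]
    rw [e1, QuotientAddGroup.mk'_apply, QuotientAddGroup.eq_zero_iff]
    show T x = true ↔ T (fun i => x₀ i ^^ decide (bz (x i) - bz (x₀ i) = 1)) = true
    have e2 : (fun i => x₀ i ^^ decide (bz (x i) - bz (x₀ i) = 1)) = x := by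
      funext i
      generalize x i = a
      generalize x₀ i = c
      revert a c
      decide
    rw [e2]
  · push Not at h0
    refine mixed_of (P := fun _ => (1 : ℤ)) (lowDeg_const 1) fun x => ?_
    exact ⟨fun h => absurd h (h0 x), fun h => absurd h one_ne_zero⟩

/-- Easy languages. -/
theorem easy_gen (hL : Easy L) {e : ℝ} (he : 0 < e) : LogGen (PAny L) e := by
  rcases hL with ⟨k, f, hf, hp⟩ | hp
  · exact (Hyb.logGen_mixed (k - 1) 1 he).mono fun n T hT =>
      nu_mixed hf fun t ht => hT.pol hp t ht
  · refine (Hyb.logGen_mixed 1 1 he).mono fun n T hT => affine_mixed fun x y z hx hy hz => ?_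
    exact hT.pol hp ![x, y, z] (Fin.forall_fin_succ.2 ⟨hx, Fin.forall_fin_succ.2 ⟨hy,
      Fin.forall_fin_succ.2 ⟨hz, fun i => i.elim0⟩⟩⟩)

/-- `T` is defined by a conjunction of atomic formulas, without quantified variables. -/
def QFree (L : Lang) (m : ℕ) (T : (Fin m → Bool) → Bool) : Prop :=
  ∃ Φ : List (Atom L (Fin m)), ∀ x, T x = true ↔ ∀ φ ∈ Φ, φ.Holds x

/-- Tests without quantified variables. -/
theorem qfree_mixed (hT : QFree L m T) : MixedTest (max 2 (Finset.univ.sup L.arity)) 1 m T := by
  classical
  obtain ⟨Φ, hΦ⟩ := hT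
  have key : ∀ Φ : List (Atom L (Fin m)), ∃ P ∈ lowDeg (Fin m) Bool ℤ
      (max 2 (Finset.univ.sup L.arity)), ∀ x, 0 ≤ P x ∧ (P x = 0 ↔ ∀ φ ∈ Φ, φ.Holds x) := by
    intro Φ
    induction Φ with
    | nil => exact ⟨fun _ => 0, lowDeg_const 0, fun x => ⟨le_rfl, by simp⟩⟩
    | cons φ Φ ih =>
      obtain ⟨P, hP, h1⟩ := ih
      refine ⟨(fun x => if φ.Holds x then (0 : ℤ) else 1) + P, AddSubgroup.add_mem _ ?_ hP,
        fun x => ⟨?_, ?_⟩⟩
      · cases φ with
        | eq a b =>
          refine junta_mem {a, b} (Finset.card_le_two.trans (le_max_left _ _)) fun x y hxy => ?_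
          have ha := hxy a (by simp)
          have hb := hxy b (by simp)
          have h2 : (Atom.eq a b : Atom L (Fin m)).Holds x ↔ (Atom.eq a b : Atom L (Fin m)).Holds y := by
            show x a = x b ↔ y a = y b
            rw [ha, hb]
          simp only [h2]
        | rel i w =>
          refine junta_mem (Finset.univ.image w) ?_ fun x y hxy => ?_
          · refine Finset.card_image_le.trans (le_trans ?_ (le_max_right _ _))
            rw [Finset.card_univ, Fintype.card_fin]
            exact Finset.le_sup (Finset.mem_univ i)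
          · have h2 : (fun j => x (w j)) = fun j => y (w j) := by
              funext j
              exact hxy _ (by simp)
            have h3 : (Atom.rel i w : Atom L (Fin m)).Holds x ↔ (Atom.rel i w : Atom L (Fin m)).Holds y := by
              show L.rel i (fun j => x (w j)) = true ↔ L.rel i (fun j => y (w j)) = true
              rw [h2]
            simp only [h3]
      · have := (h1 x).1
        show 0 ≤ (if φ.Holds x then (0 : ℤ) else 1) + P x
        split_ifs <;> omega
      · have := (h1 x).1
        show (if φ.Holds x then (0 : ℤ) else 1) + P x = 0 ↔ _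
        rw [List.forall_mem_cons, ← (h1 x).2]
        by_cases hφ : φ.Holds x
        · simp [hφ]
        · simp only [hφ, if_false, false_and, iff_false]
          omega
  obtain ⟨P, hP, h1⟩ := key Φ
  exact mixed_of hP fun x => (hΦ x).trans (h1 x).2.symm

theorem qfree_gen (L : Lang) {e : ℝ} (he : 0 < e) : LogGen (QFree L) e :=
  (Hyb.logGen_mixed _ 1 he).mono fun _ _ hT => qfree_mixed hT

end Pool.Agent.MP_ca1109_lc.Csp
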