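import Pool.Agent.MP_ca1109_lc.Mpg.G0

/-!
# Tests defined by primitive positive formulas over a constraint language

* `Lang`: finitely many Boolean relations of arbitrary arities.
* `PTest L s m T`: the function `T` of `m` bits accepts `x` if and only if some `y` satisfies
  together with `x` a conjunction of at most `s` atomic formulas (equalities and relations of `L`);
  `PAny L m T`: the same without a bound on the number of atomic formulas; `Small L k m T`: the same
  with at most `m ^ (1 / k)` atomic formulas.
* `NTest s m T`: `T` is computed by a nondeterministic circuit of size at most `s`.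
* `Pol L f`: the Boolean function `f` is a polymorphism of `L`.
* `Easy L`: a near-unanimity function or the sum of three bits modulo two is a polymorphism of `L`;
  `Horn L`, `CoHorn L`: the conjunction, the disjunction of two bits is a polymorphism of `L`.
-/

namespace Pool.Agent.MP_ca1109_lc.Csp

open Pool.Agent.H66 Pool.Agent.MP_ca1109_lc.Mpg

/-- A finite constraint language: finitely many Boolean relations of arbitrary arities. -/
structure Lang where
  /-- the number of relations -/
  card : ℕ
  /-- the arities -/
  arity : Fin card → ℕ
  /-- the relations -/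
  rel : ∀ i, (Fin (arity i) → Bool) → Bool

/-- Atomic formulas with variables in `V`: equalities and relations of the language. -/
inductive Atom (L : Lang) (V : Type) : Type
  | eq (a b : V)
  | rel (i : Fin L.card) (w : Fin (L.arity i) → V)

/-- The atomic formula holds at the assignment `x`. -/
def Atom.Holds {L : Lang} {V : Type} (x : V → Bool) : Atom L V → Prop
  | .eq a b => x a = x b
  | .rel i w => L.rel i (fun j => x (w j)) = true

/-- `T` is defined by a primitive positive formula over `L` with at most `s` atomic formulas. -/
def PTest (L : Lang) (s m : ℕ) (T : (Fin m → Bool) → Bool) : Prop :=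
  ∃ (a : ℕ) (Φ : List (Atom L (Fin m ⊕ Fin a))), Φ.length ≤ s ∧
    ∀ x, T x = true ↔ ∃ y : Fin a → Bool, ∀ φ ∈ Φ, φ.Holds (Sum.elim x y)

/-- `T` is defined by a primitive positive formula over `L`. -/
def PAny (L : Lang) (m : ℕ) (T : (Fin m → Bool) → Bool) : Prop := ∃ s, PTest L s m T

/-- `T` is computed by a nondeterministic circuit of size at most `s`: `T x = true` if and only if
the circuit accepts `(x, y)` for some `y`. -/
def NTest (s m : ℕ) (T : (Fin m → Bool) → Bool) : Prop :=
  ∃ (a : ℕ) (C : Circuit (m + a)), C.size ≤ s ∧
    ∀ x, T x = true ↔ ∃ y : Fin a → Bool, C.eval (Fin.append x y) = true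

/-- `f` is a polymorphism of `L`: applied coordinatewise to `k` members of a relation of `L`, it
gives a member of this relation. -/
def Pol (L : Lang) {k : ℕ} (f : (Fin k → Bool) → Bool) : Prop :=
  ∀ (i : Fin L.card) (t : Fin k → Fin (L.arity i) → Bool), (∀ j, L.rel i (t j) = true) →
    L.rel i (fun c => f fun j => t j c) = true

/-- `f` has at least three arguments and takes the value `a` whenever all of them but at most one
are `a`. -/
def NearUnanimity {k : ℕ} (f : (Fin k → Bool) → Bool) : Prop :=
  3 ≤ k ∧ ∀ (i : Fin k) (a b : Bool), f (Function.update (fun _ => a) i b) = a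

/-- Some near-unanimity function, or the sum of three bits modulo two, is a polymorphism. -/
def Easy (L : Lang) : Prop :=
  (∃ (k : ℕ) (f : (Fin k → Bool) → Bool), NearUnanimity f ∧ Pol L f) ∨
    Pol L (fun x : Fin 3 → Bool => (x 0 ^^ x 1) ^^ x 2)

/-- Horn languages: the conjunction is a polymorphism. -/
def Horn (L : Lang) : Prop := Pol L (fun x : Fin 2 → Bool => x 0 && x 1)

/-- Dual Horn languages: the disjunction is a polymorphism. -/
def CoHorn (L : Lang) : Prop := Pol L (fun x : Fin 2 → Bool => x 0 || x 1)

/-- The tests of size at most `m ^ (1 / k)`. -/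
def Small (L : Lang) (k m : ℕ) (T : (Fin m → Bool) → Bool) : Prop := ∃ s, s ^ k ≤ m ∧ PTest L s m T

end Pool.Agent.MP_ca1109_lc.Csp
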