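import Pool.Agent.MP_ca1109_lc.Csp.C2
import Pool.Agent.MP_ca1109_lc.Post.P8

/-!
# Monotone circuits in Horn languages
-/

namespace Pool.Agent.MP_ca1109_lc.Csp

open Set Pool.Agent.H66 Pool.Agent.MP_ca1109_lc.Mpg
open Pool.Agent.MP_ca1109_lc.Post (IsAnd res)

variable {L : Lang} {K m n : ℕ} {V : Type}

/-- The relation `x 0 → x 1 → x 2` is definable with `K` atoms. -/
def Imp3 (L : Lang) (K : ℕ) : Prop :=
  PDef L (Fin 3) K fun x => x 0 = true → x 1 = true → x 2 = true

theorem imp3_of (hL : Horn L) (hE : ¬ Easy L) : ∃ K, Imp3 L K := by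
  obtain ⟨s, hs⟩ := inv_pol (L := L) (r := 3) (fun x => !(x 0) || (!(x 1) || x 2)) (by
    intro k f hf t ht
    rcases isAnd_of hL hE hf with h | ⟨S, h⟩
    · simp [h]
    · have h0 : ∀ b : Bool, (!b) = true ∨ b = true := by decide
      rcases h0 (f fun j => t j 0) with h1 | h1
      · simp [h1]
      rcases h0 (f fun j => t j 1) with h2 | h2
      · simp [h2]
      have h3 : (f fun j => t j 2) = true := by
        rw [h] at h1 h2 ⊢
        intro i hi
        have h4 := ht i
        have h5 := h1 i hi
        have h6 := h2 i hi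
        simp only [h5, h6] at h4
        simpa using h4
      simp [h3])
  refine ⟨s, hs.congr fun x => ?_⟩
  cases x 0 <;> cases x 1 <;> cases x 2 <;> simp

theorem Imp3.imp (h : Imp3 L K) (a b c : V) :
    PDef L V K fun x => x a = true → x b = true → x c = true :=
  PDef.rename h ![a, b, c]

/-- The assignment of the wires is closed: the gates are implications from the inputs to the
output. -/
def Gates.Closed {m : ℕ} : {n : ℕ} → Gates m n → (Fin (m + n) → Bool) → Prop
  | _, .nil, _ => True
  | _, .snoc (n := n) C g, z => Gates.Closed C (fun w => z w.castSucc) ∧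
      (g.eval (fun w => z (Fin.castSucc (n := m + n) w)) = true → z (Fin.last (m + n)) = true)

theorem closed_pdef (h : Imp3 L K) : ∀ {n : ℕ} (C : Gates m n), C.Mono →
    PDef L (Fin (m + n)) (2 * K * C.size) (Gates.Closed C)
  | _, .nil, _ => (PDef.true.mono (Nat.zero_le _)).congr fun _ => Iff.rfl
  | _, .snoc (n := n) C g, hC => by
    have ih := (closed_pdef h C hC.1).rename (fun w : Fin (m + n) => (w.castSucc : Fin (m + n + 1)))
    cases g with
    | and i j =>
      have h1 := ih.and (h.imp (i.castSucc : Fin (m + n + 1)) j.castSucc (Fin.last (m + n)))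
      refine (h1.mono ?_).congr fun z => and_congr_right fun _ => ?_
      · show 2 * K * C.size + K ≤ 2 * K * (C.size + 1)
        rw [Nat.mul_add]
        omega
      · show _ ↔ ((z i.castSucc && z j.castSucc) = true → z (Fin.last (m + n)) = true)
        rw [Bool.and_eq_true, and_imp]
    | or i j =>
      have h1 := ih.and ((h.imp (i.castSucc : Fin (m + n + 1)) i.castSucc (Fin.last (m + n))).and
        (h.imp (j.castSucc : Fin (m + n + 1)) j.castSucc (Fin.last (m + n))))
      refine (h1.mono ?_).congr fun z => and_congr_right fun _ => ?_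
      · show 2 * K * C.size + (K + K) ≤ 2 * K * (C.size + 1)
        rw [Nat.mul_add]
        omega
      · show _ ↔ ((z i.castSucc || z j.castSucc) = true → z (Fin.last (m + n)) = true)
        rw [Bool.or_eq_true]
        tauto
    | not i => exact absurd hC.2 id

theorem closed_eval (x : Fin m → Bool) : ∀ {n : ℕ} (C : Gates m n), Gates.Closed C (C.eval x)
  | _, .nil => trivial
  | _, .snoc (n := n) C g => by
    have h1 : (fun w : Fin (m + n) => (Gates.snoc C g).eval x w.castSucc) = C.eval x := by
      funext w
      exact Gates.eval_snoc_castSucc C g x w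
    refine ⟨?_, ?_⟩
    · show Gates.Closed C (fun w : Fin (m + n) => (Gates.snoc C g).eval x w.castSucc)
      rw [h1]
      exact closed_eval x C
    · show g.eval (fun w : Fin (m + n) => (Gates.snoc C g).eval x w.castSucc) = true →
        (Gates.snoc C g).eval x (Fin.last (m + n)) = true
      rw [h1]
      intro h2
      exact (Gates.eval_snoc_last C g x).trans h2

theorem closed_le (x : Fin m → Bool) : ∀ {n : ℕ} (C : Gates m n), C.Mono →
    ∀ z : Fin (m + n) → Bool, Gates.Closed C z → (∀ i, z (Fin.castAdd n i) = x i) →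
      ∀ w, C.eval x w = true → z w = true
  | _, .nil, _, z, _, hz, w, hw => (hz w).trans hw
  | _, .snoc (n := n) C g, hC, z, hcl, hz, w, hw => by
    have ih := closed_le x C hC.1 (fun w => z w.castSucc) hcl.1 hz
    revert hw
    refine Fin.lastCases (motive := fun w : Fin (m + n + 1) =>
      (Gates.snoc C g).eval x w = true → z w = true) ?_ (fun w => ?_) w
    · intro hw
      refine hcl.2 ?_
      have hw' : g.eval (C.eval x) = true := (Gates.eval_snoc_last C g x).symm.trans hw
      cases g with
      | and i j =>
        rw [Gate.eval, Bool.and_eq_true] at hw' ⊢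
        exact ⟨ih i hw'.1, ih j hw'.2⟩
      | or i j =>
        rw [Gate.eval, Bool.or_eq_true] at hw' ⊢
        exact hw'.imp (ih i) (ih j)
      | not i => exact absurd hC.2 id
    · intro hw
      exact ih w ((Gates.eval_snoc_castSucc C g x w).symm.trans hw)

theorem eval_castAdd (x : Fin m → Bool) (i : Fin m) : ∀ {n : ℕ} (C : Gates m n),
    C.eval x (Fin.castAdd n i) = x i
  | _, .nil => rfl
  | _, .snoc (n := n) C g =>
    (Gates.eval_snoc_castSucc C g x (Fin.castAdd n i)).trans (eval_castAdd x i C)

/-- The implication from the value of a monotone circuit to the conjunction of some variables. -/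
theorem imp_pdef (h : Imp3 L K) (C : Circuit m) (hC : C.Mono) (ι : Fin m → V) {r : ℕ}
    (l : Fin r → V) : PDef L V (2 * K * C.size + r * K) (fun x =>
      C.eval (fun i => x (ι i)) = true → ∀ j, x (l j) = true) := by
  obtain ⟨n, G, out⟩ := C
  let φ : Fin (m + n) → V ⊕ Fin n := Fin.addCases (fun i => Sum.inl (ι i)) fun i => Sum.inr i
  have h1 := (closed_pdef h G hC).rename φ
  have h2 := PDef.all (L := L) (V := V ⊕ Fin n) (s := K)
    (fun (j : Fin r) (z : V ⊕ Fin n → Bool) => z (φ out) = true → z (φ out) = true →
      z (Sum.inl (l j)) = true) fun j => h.imp _ _ _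
  rw [Fintype.card_fin] at h2
  refine (PDef.ex (h1.and h2)).congr fun x => ?_
  constructor
  · rintro ⟨y, hy1, hy2⟩ hx j
    have h3 := closed_le (fun i => x (ι i)) G hC (fun w => Sum.elim x y (φ w)) hy1
      (fun i => by simp [φ]) out hx
    exact hy2 j h3 h3
  · intro hx
    have e : (fun w => Sum.elim x (fun i => G.eval (fun i => x (ι i)) (Fin.natAdd m i)) (φ w)) =
        G.eval (fun i => x (ι i)) := by
      funext w
      refine Fin.addCases (fun i => ?_) (fun i => ?_) w
      · simp only [φ, Fin.addCases_left, Sum.elim_inl]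
        exact (eval_castAdd (fun i => x (ι i)) i G).symm
      · simp only [φ, Fin.addCases_right, Sum.elim_inr]
    refine ⟨fun i => G.eval (fun i => x (ι i)) (Fin.natAdd m i), ?_, fun j h3 _ => ?_⟩
    · show Gates.Closed G (fun w => Sum.elim x _ (φ w))
      rw [e]
      exact closed_eval _ G
    · have h4 := congrFun e out
      exact hx (h4.symm.trans h3) j

end Pool.Agent.MP_ca1109_lc.Csp
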