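import Pool.Agent.MP_ca1109_lc.Csp.E1
import Pool.Agent.MP_ca1109_lc.Post.P7

/-!
# Generators against Horn languages fool pairs of monotone circuits
-/

namespace Pool.Agent.MP_ca1109_lc.Csp

open Set Pool.Agent.H66 Pool.Agent.MP_ca1109_lc.Mpg
open Pool.Agent.MP_ca1109_lc.Post (res)

variable {L : Lang} {K M N : ℕ} {e : ℝ} {A : Type} [Fintype A] [Nonempty A]

/-- The bits `M, …, 2 M - 1` are `true`. -/
def ones (hN : 2 * M ≤ N) (x : Fin N → Bool) : Bool :=
  decide (∀ j : Fin M, x ⟨M + j, by omega⟩ = true)

theorem prob_all_true (M : ℕ) :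
    prob (fun y : Fin M → Bool => decide (∀ j, y j = true)) = (1 / 2) ^ M := by
  have h12 : (Finset.univ.filter fun y : Fin M → Bool =>
      (decide (∀ j, y j = true)) = true) = {fun _ => true} := by
    ext y
    simp only [Finset.mem_filter, Finset.mem_univ, true_and, Finset.mem_singleton,
      decide_eq_true_eq]
    exact ⟨fun h => funext h, fun h i => by rw [h]⟩
  rw [prob, h12, Finset.card_singleton, Fintype.card_fun, Fintype.card_bool, Fintype.card_fin]
  push_cast
  rw [div_pow, one_pow]

theorem prob_ones (hN : 2 * M ≤ N) : prob (ones hN) = (1 / 2) ^ M := by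
  rw [← prob_all_true M]
  refine prob_marginal (fun j : Fin M => (⟨M + j, by omega⟩ : Fin N)) (fun i j h => ?_)
    (fun y : Fin M → Bool => decide (∀ j, y j = true))
  apply Fin.ext
  have := congrArg Fin.val h
  simp only at this
  omega

theorem ptest_imp (h : Imp3 L K) (hM : M ≤ N) (hN : 2 * M ≤ N) (C : Circuit M) (hC : C.Mono)
    (hs : C.size ≤ M) :
    PTest L (4 * K * (M + 1)) N (fun x => !(C.eval (res hM x)) || ones hN x) := by
  rw [ptest_iff]
  have h1 := imp_pdef h C hC (fun i : Fin M => (Fin.castLE hM i : Fin N))
    (fun j : Fin M => (⟨M + j, by omega⟩ : Fin N))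
  refine (h1.mono ?_).congr fun x => ?_
  · calc 2 * K * C.size + M * K ≤ 2 * K * M + M * K :=
        Nat.add_le_add_right (Nat.mul_le_mul_left _ hs) _
      _ ≤ 4 * K * (M + 1) := by nlinarith
  · show (C.eval (res hM x) = true → ∀ j : Fin M, x ⟨M + j, _⟩ = true) ↔
      ((!(C.eval (res hM x)) || ones hN x) = true)
    rw [ones]
    cases C.eval (res hM x) <;> simp

theorem gets_or_all (hM : 0 < M) : ∃ C : Circuit M, C.Mono ∧ C.size ≤ M ∧
    ∀ x, C.eval x = decide (∃ i, x i = true) := by
  have h1 := Gets.list (neg := false) (B := bas M) (F := bas M)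
    ((List.finRange M).map fun i => fun x : Fin M → Bool => x i) (fun f hf => by
      obtain ⟨i, -, rfl⟩ := List.mem_map.1 hf
      exact inp_mem_bas i) false_mem_bas (Gets.refl false (bas M))
  rw [List.length_map, List.length_finRange, zero_add] at h1
  have e1 : (fun x : Fin M → Bool => ((List.finRange M).map fun i =>
      fun x : Fin M → Bool => x i).any fun f => f x) = fun x => decide (∃ i, x i = true) := by
    funext x
    rw [Bool.eq_iff_iff]
    simp
  rw [e1] at h1
  rcases h1.circuit with (hc | hc) | hc
  · have h2 := congrFun hc fun _ => true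
    have h3 : decide (∃ i : Fin M, (fun _ : Fin M => true) i = true) = true :=
      decide_eq_true ⟨⟨0, hM⟩, rfl⟩
    exact absurd (h3.symm.trans h2) (by simp)
  · rw [mem_singleton_iff] at hc
    have := congrFun hc fun _ => false
    simp at this
  · exact hc

theorem pair_horn (h : Imp3 L K) (hM0 : 0 < M) (hM : M ≤ N) (hN : 2 * M ≤ N) (he : 0 ≤ e)
    (G : A → Fin N → Bool)
    (hG : ∀ T, PTest L (4 * K * (M + 1)) N T → |prob (fun a => T (G a)) - prob T| ≤ e) :
    FoolsPair M (2 * e + 2 * (1 / 2) ^ M) fun a => res hM (G a) := by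
  have hpos : (0 : ℝ) ≤ (1 / 2) ^ M := by positivity
  -- the implication tests
  have kQ : ∀ C : Circuit M, C.Mono → C.size ≤ M →
      prob (fun a => !(C.eval (res hM (G a))) || ones hN (G a)) ≤
        prob (fun y => !(C.eval y)) + (1 / 2) ^ M + e := by
    intro C hC hs
    have h1 := (abs_le.1 (hG _ (ptest_imp h hM hN C hC hs))).2
    have h2 := prob_or_le (fun x : Fin N → Bool => !(C.eval (res hM x))) (ones hN)
    rw [prob_ones, Post.prob_res hM (fun y => !(C.eval y))] at h2
    linarith
  have kP : ∀ C : Circuit M, C.Mono → C.size ≤ M →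
      prob (fun a => C.eval (res hM (G a)) && !(ones hN (G a))) ≤ prob (fun y => C.eval y) + e := by
    intro C hC hs
    have h1 := (abs_le.1 (hG _ (ptest_imp h hM hN C hC hs))).1
    have h2 := prob_not (fun a => !(C.eval (res hM (G a))) || ones hN (G a))
    have h3 := prob_not (fun x : Fin N → Bool => !(C.eval (res hM x)) || ones hN x)
    have h4 : prob (fun x : Fin N → Bool => !(!(C.eval (res hM x)) || ones hN x)) ≤
        prob (fun y => C.eval y) := by
      rw [← Post.prob_res hM (fun y => C.eval y)]
      refine prob_mono fun x hx => ?_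
      revert hx
      cases C.eval (res hM x) <;> simp
    have h5 : (fun a => C.eval (res hM (G a)) && !(ones hN (G a))) =
        fun a => !(!(C.eval (res hM (G a))) || ones hN (G a)) := by
      funext a
      cases C.eval (res hM (G a)) <;> cases ones hN (G a) <;> rfl
    rw [h5]
    linarith
  intro S P Q hS hP hQ
  have hbig : prob (fun a => P (res hM (G a)) || !(Q (res hM (G a)))) ≤
      prob (fun a => P (res hM (G a)) && !(ones hN (G a))) +
        prob (fun a => !(Q (res hM (G a))) || ones hN (G a)) := by
    refine le_trans (prob_mono fun a => ?_) (prob_or_le _ _)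
    cases P (res hM (G a)) <;> cases Q (res hM (G a)) <;> cases ones hN (G a) <;> simp
  have hle1 := prob_le_one (fun a => P (res hM (G a)) || !(Q (res hM (G a))))
  have hP0 := prob_nonneg P
  have hQ0 := prob_nonneg (fun y => !(Q y))
  have hPP : prob P = 1 ∨ prob (fun a => P (res hM (G a)) && !(ones hN (G a))) ≤ prob P + e := by
    rcases hP.circuit with (hc | hc) | ⟨C, hC, hs, hCP⟩
    · right
      have h1 : (fun a => P (res hM (G a)) && !(ones hN (G a))) = fun _ => false := by
        funext a
        rw [hc]
        simp
      rw [h1, Post.p7_false]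
      positivity
    · left
      rw [mem_singleton_iff.1 hc]
      exact prob_const_true
    · right
      have h1 := kP C hC (by omega)
      simp only [hCP] at h1
      exact h1
  have hQQ : prob (fun y => !(Q y)) = 1 ∨ prob (fun a => !(Q (res hM (G a))) || ones hN (G a)) ≤
      prob (fun y => !(Q y)) + 2 * (1 / 2) ^ M + e := by
    rcases hQ.circuit with (hc | hc) | ⟨C, hC, hs, hCQ⟩
    · left
      have h1 : (fun y => !(Q y)) = fun _ => true := by
        funext y
        rw [hc]
        rfl
      rw [h1]
      exact prob_const_true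
    · right
      obtain ⟨C, hC, hs, hCQ⟩ := gets_or_all hM0
      have h1 := kQ C hC hs
      have h2 : prob (fun y => !(C.eval y)) = (1 / 2) ^ M := by
        rw [← prob_all_true M, ← prob_equiv (Equiv.piCongrRight fun _ : Fin M => Equiv.boolNot)
          (fun y : Fin M → Bool => decide (∀ j, y j = true))]
        congr 1
        funext y
        rw [hCQ]
        show (!(decide (∃ i, y i = true))) = decide (∀ j, (!(y j)) = true)
        rw [Bool.eq_iff_iff]
        simp
      have h3 : prob (fun a => !(Q (res hM (G a))) || ones hN (G a)) ≤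
          prob (fun a => !(C.eval (res hM (G a))) || ones hN (G a)) := by
        refine prob_mono fun a ha => ?_
        rw [mem_singleton_iff.1 hc] at ha
        simp only [Bool.not_true, Bool.false_or] at ha
        rw [ha]
        simp
      rw [h2] at h1
      linarith
    · right
      have h1 := kQ C hC (by omega)
      simp only [hCQ] at h1
      linarith
  show prob (fun a => P (res hM (G a)) || !(Q (res hM (G a)))) ≤ _
  rcases hPP with h1 | h1
  · linarith
  rcases hQQ with h2 | h2
  · linarith
  linarith

end Pool.Agent.MP_ca1109_lc.Csp
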