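import Pool.Agent.MP_ca1109_lc.Csp.E2

/-!
# Generators against Horn languages give generators against circuits
-/

namespace Pool.Agent.MP_ca1109_lc.Csp

open Set Pool.Agent.H66 Pool.Agent.MP_ca1109_lc.Mpg
open Pool.Agent.MP_ca1109_lc.Post (res)

variable {L : Lang} {k : ℕ} {e : ℝ}

theorem gen_of_imp3 {K : ℕ} (hL : Imp3 L K) (hk : 0 < k) (he : 0 < e) (he' : e < 1 / 2)
    (h : LogGen (Small L k) e) : GenExists (fun _ _ => True) (1 / 8) := by
  obtain ⟨D, G, hD, hG, hl, c, hc⟩ := h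
  obtain ⟨Q, hQ⟩ : ∃ Q, Q = 4 * K + 1 := ⟨_, rfl⟩
  have hNM : ∀ M : ℕ, (Q + 1) * (M + 1) ≤ ((Q + 1) * (M + 1)) ^ k := fun M =>
    Nat.le_self_pow hk.ne' _
  have hNM' : ∀ M : ℕ, 2 * M ≤ ((Q + 1) * (M + 1)) ^ k := fun M => by
    refine le_trans ?_ (hNM M)
    rw [hQ]
    nlinarith
  have hNt : Filter.Tendsto (fun M : ℕ => ((Q + 1) * (M + 1)) ^ k) Filter.atTop Filter.atTop :=
    Filter.tendsto_atTop_mono (fun M => le_trans (by show M ≤ 2 * M; omega) (hNM' M)) Filter.tendsto_id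
  have hp1 : ∀ {γ : Type} [Enc γ] {n : γ → ℕ}, PolyTime n →
      PolyTime fun c => ((Q + 1) * (n c + 1)) ^ k := fun hn =>
    polyTime_pow k (PolyTime.mul (PolyTime.const (Q + 1)) (PolyTime.add hn (PolyTime.const 1)))
  refine gen_of_pair (κ₀ := 1 / 2 + e) (by positivity) (by linarith) (by norm_num)
    (d := fun M => D (((Q + 1) * (M + 1)) ^ k))
    (G := fun M s => G (((Q + 1) * (M + 1)) ^ k) s) (hD.comp (hp1 PolyTime.id))
    (hG.comp ((hp1 PolyTime.fst).pair PolyTime.snd))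
    (c := max c 0 * (k * (Real.logb 2 ((Q : ℝ) + 1) + 2))) ?_
  have hlim : Filter.Tendsto (fun M : ℕ => (1 / 2 : ℝ) ^ M) Filter.atTop (nhds 0) :=
    tendsto_pow_atTop_nhds_zero_of_lt_one (by norm_num) (by norm_num)
  filter_upwards [hlim.eventually (gt_mem_nhds (show (0 : ℝ) < (1 / 2 - e) / 2 by linarith)),
    hNt.eventually hc, Filter.eventually_ge_atTop 2] with M hsm hM hM2
  refine ⟨?_, ?_⟩
  · have h1 := hM.1
    have hM2' : (2 : ℝ) ≤ M := by exact_mod_cast hM2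
    have hL0 : (0 : ℝ) ≤ Q := Nat.cast_nonneg Q
    have h2 : Real.logb 2 (((((Q + 1) * (M + 1)) ^ k : ℕ)) : ℝ) =
        k * (Real.logb 2 ((Q : ℝ) + 1) + Real.logb 2 ((M : ℝ) + 1)) := by
      push_cast
      rw [Real.logb_pow, Real.logb_mul (by positivity) (by positivity)]
    have h3 : Real.logb 2 ((M : ℝ) + 1) ≤ 1 + Real.logb 2 M := by
      have h4 : Real.logb 2 ((M : ℝ) + 1) ≤ Real.logb 2 (2 * M) :=
        Real.logb_le_logb_of_le (by norm_num) (by positivity) (by linarith)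
      rwa [Real.logb_mul (by norm_num) (by positivity), Real.logb_self_eq_one (by norm_num)] at h4
    have h5 : 1 ≤ Real.logb 2 M := by
      have h6 : Real.logb 2 2 ≤ Real.logb 2 (M : ℝ) :=
        Real.logb_le_logb_of_le (by norm_num) (by norm_num) hM2'
      rwa [Real.logb_self_eq_one (by norm_num)] at h6
    have h7 : 0 ≤ Real.logb 2 ((Q : ℝ) + 1) := Real.logb_nonneg (by norm_num) (by linarith)
    have h8 : 0 ≤ Real.logb 2 ((M : ℝ) + 1) := Real.logb_nonneg (by norm_num) (by linarith)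
    have hk0 : (0 : ℝ) ≤ k := Nat.cast_nonneg k
    have h9 : (k : ℝ) * (Real.logb 2 ((Q : ℝ) + 1) + Real.logb 2 ((M : ℝ) + 1)) ≤
        k * ((Real.logb 2 ((Q : ℝ) + 1) + 2) * Real.logb 2 M) := by
      refine mul_le_mul_of_nonneg_left ?_ hk0
      nlinarith
    calc (D (((Q + 1) * (M + 1)) ^ k) : ℝ) ≤ c * Real.logb 2 (((((Q + 1) * (M + 1)) ^ k : ℕ)) : ℝ) := h1
      _ = c * (k * (Real.logb 2 ((Q : ℝ) + 1) + Real.logb 2 ((M : ℝ) + 1))) := by rw [h2]
      _ ≤ max c 0 * (k * (Real.logb 2 ((Q : ℝ) + 1) + Real.logb 2 ((M : ℝ) + 1))) :=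
          mul_le_mul_of_nonneg_right (le_max_left _ _) (by positivity)
      _ ≤ max c 0 * (k * ((Real.logb 2 ((Q : ℝ) + 1) + 2) * Real.logb 2 M)) :=
          mul_le_mul_of_nonneg_left h9 (le_max_right _ _)
      _ = max c 0 * (k * (Real.logb 2 ((Q : ℝ) + 1) + 2)) * Real.logb 2 M := by ring
  · have h1 := pair_horn hL (A := Fin (D (((Q + 1) * (M + 1)) ^ k)) → Bool) (M := M)
      (by omega) (le_trans (by omega) (hNM' M)) (hNM' M) he.le
      (fun s => bits (((Q + 1) * (M + 1)) ^ k) (G (((Q + 1) * (M + 1)) ^ k) (List.ofFn s)))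
      (fun T hT => hM.2.2 T ⟨4 * K * (M + 1), Nat.pow_le_pow_left
        (Nat.mul_le_mul_right _ (by omega)) k, hT⟩)
    intro S P R hS hP hR
    have h2 := h1 S P R hS hP hR
    have h3 : prob (fun s : Fin (D (((Q + 1) * (M + 1)) ^ k)) → Bool =>
        P (bits M (G (((Q + 1) * (M + 1)) ^ k) (List.ofFn s))) ||
          !(R (bits M (G (((Q + 1) * (M + 1)) ^ k) (List.ofFn s))))) ≤
        prob P + prob (fun y => !(R y)) + (2 * e + 2 * (1 / 2) ^ M) := h2
    refine h3.trans ?_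
    linarith

end Pool.Agent.MP_ca1109_lc.Csp
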