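import Pool.Agent.MP_ca1109_lc.Post.P11

/-!
# Circuits for the satisfiability of Horn constraints
-/

namespace Pool.Agent.MP_ca1109_lc.Csp

open Set

/-- A constraint on the variables `w 0, …, w (r - 1)`. -/
structure Con (V : Type) where
  /-- the number of variables -/
  r : ℕ
  /-- the variables -/
  w : Fin r → V
  /-- the relation -/
  R : (Fin r → Bool) → Bool

/-- The constraint holds at `x`. -/
def Con.Holds {V : Type} (φ : Con V) (x : V → Bool) : Prop := φ.R (fun c => x (φ.w c)) = true

/-- The relation is closed under conjunction. -/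
def Con.Horn {V : Type} (φ : Con V) : Prop :=
  ∀ s t, φ.R s = true → φ.R t = true → φ.R (fun c => s c && t c) = true

open Classical in
/-- the least member above `b` -/
private noncomputable def F1_lst {r : ℕ} (R : BF r) (b : Fin r → Bool) : Fin r → Bool :=
  fun c => decide (∀ t : Fin r → Bool, R t = true → (∀ i, b i = true → t i = true) → t c = true)

private theorem F1_le {r : ℕ} (R : BF r) (b : Fin r → Bool) (c : Fin r) (h : b c = true) :
    F1_lst R b c = true := by
  unfold F1_lst
  rw [decide_eq_true_eq]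
  exact fun t _ ht => ht c h

private theorem F1_lst_le {r : ℕ} (R : BF r) (b t : Fin r → Bool) (ht : R t = true)
    (hb : ∀ i, b i = true → t i = true) (c : Fin r) (h : F1_lst R b c = true) : t c = true := by
  unfold F1_lst at h
  rw [decide_eq_true_eq] at h
  exact h t ht hb

open Classical in
private theorem F1_meet {r : ℕ} (R : BF r)
    (hR : ∀ s t, R s = true → R t = true → R (fun c => s c && t c) = true)
    (S : Finset (Fin r → Bool)) (hS : S.Nonempty) (h : ∀ t ∈ S, R t = true) :
    R (fun c => decide (∀ t ∈ S, t c = true)) = true := by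
  induction hS using Finset.Nonempty.cons_induction with
  | singleton a =>
    have : (fun c => decide (∀ t ∈ ({a} : Finset (Fin r → Bool)), t c = true)) = a := by
      funext c
      simp
    rw [this]
    exact h a (Finset.mem_singleton_self a)
  | cons a S ha hS ih =>
    have h1 := hR a _ (h a (Finset.mem_cons_self a S)) (ih fun t ht => h t (Finset.mem_cons_of_mem ht))
    have : (fun c => decide (∀ t ∈ Finset.cons a S ha, t c = true)) =
        fun c => a c && decide (∀ t ∈ S, t c = true) := by
      funext c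
      rw [Bool.eq_iff_iff]
      simp
    rw [this]
    exact h1

private theorem F1_lst_mem {r : ℕ} (R : BF r)
    (hR : ∀ s t, R s = true → R t = true → R (fun c => s c && t c) = true)
    (b : Fin r → Bool) (h : ∃ t, R t = true ∧ ∀ i, b i = true → t i = true) :
    R (F1_lst R b) = true := by
  classical
  obtain ⟨t0, h1, h2⟩ := h
  have := F1_meet R hR (Finset.univ.filter fun t => R t = true ∧ ∀ i, b i = true → t i = true)
    ⟨t0, by simp only [Finset.mem_filter, Finset.mem_univ, true_and]; exact ⟨h1, h2⟩⟩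
    (fun t ht => by
      simp only [Finset.mem_filter, Finset.mem_univ, true_and] at ht
      exact ht.1)
  convert this using 2
  funext c
  unfold F1_lst
  rw [Bool.eq_iff_iff, decide_eq_true_eq, decide_eq_true_eq]
  constructor
  · intro h t ht
    simp only [Finset.mem_filter, Finset.mem_univ, true_and] at ht
    exact h t ht.1 ht.2
  · intro h t ht ht'
    exact h t (by simp only [Finset.mem_filter, Finset.mem_univ, true_and]; exact ⟨ht, ht'⟩)

open Classical in
/-- one step of forward chaining -/
private noncomputable def F1_stp {V : Type} (φ : Con V) (v : V → Bool) : V → Bool :=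
  fun u => v u || decide (∃ c, φ.w c = u ∧ F1_lst φ.R (fun c => v (φ.w c)) c = true)

private theorem F1_stp_iff {V : Type} (φ : Con V) (v : V → Bool) (u : V) : F1_stp φ v u = true ↔
    v u = true ∨ ∃ c, φ.w c = u ∧ F1_lst φ.R (fun c => v (φ.w c)) c = true := by
  classical
  unfold F1_stp
  rw [Bool.or_eq_true, decide_eq_true_eq]

private theorem F1_stp_out {V : Type} (φ : Con V) (v : V → Bool) (u : V) (h : ∀ c, φ.w c ≠ u) :
    F1_stp φ v u = v u := by
  rw [Bool.eq_iff_iff, F1_stp_iff]
  constructor
  · rintro (h' | ⟨c, hc, -⟩)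
    · exact h'
    · exact absurd hc (h c)
  · exact Or.inl

private theorem F1_stp_a {V : Type} (φ : Con V) (v : V → Bool) (u : V) (h : v u = true) :
    F1_stp φ v u = true := (F1_stp_iff φ v u).2 (Or.inl h)

private theorem F1_stp_b {V : Type} (φ : Con V) (v z : V → Bool) (hv : ∀ u, v u = true → z u = true)
    (hz : φ.Holds z) (u : V) (h : F1_stp φ v u = true) : z u = true := by
  rcases (F1_stp_iff φ v u).1 h with h | ⟨c, rfl, hc⟩
  · exact hv u h
  · exact F1_lst_le φ.R (fun c => v (φ.w c)) (fun c => z (φ.w c)) hz (fun i hi => hv _ hi) c hc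

private theorem F1_stp_c {V : Type} (φ : Con V) (hφ : φ.Horn) (v z : V → Bool)
    (hv : ∀ u, v u = true → z u = true) (hz : φ.Holds z) (h : F1_stp φ v = v) : φ.Holds v := by
  have h1 := F1_lst_mem φ.R hφ (fun c => v (φ.w c)) ⟨fun c => z (φ.w c), hz, fun i hi => hv _ hi⟩
  have h2 : F1_lst φ.R (fun c => v (φ.w c)) = fun c => v (φ.w c) := by
    funext c
    rw [Bool.eq_iff_iff]
    constructor
    · intro hc
      have : F1_stp φ v (φ.w c) = true := (F1_stp_iff φ v _).2 (Or.inr ⟨c, rfl, hc⟩)
      rwa [h] at this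
    · exact F1_le φ.R (fun c => v (φ.w c)) c
  rw [h2] at h1
  exact h1

/-- one pass of forward chaining -/
private noncomputable def F1_pass {V : Type} (Φ : List (Con V)) (v : V → Bool) : V → Bool :=
  Φ.foldl (fun v φ => F1_stp φ v) v

private theorem F1_pass_cons {V : Type} (φ : Con V) (Φ : List (Con V)) (v : V → Bool) :
    F1_pass (φ :: Φ) v = F1_pass Φ (F1_stp φ v) := rfl

private theorem F1_pass_a {V : Type} (Φ : List (Con V)) (v : V → Bool) (u : V) (h : v u = true) :
    F1_pass Φ v u = true := by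
  induction Φ generalizing v with
  | nil => exact h
  | cons φ Φ ih => exact ih _ (F1_stp_a φ v u h)

private theorem F1_pass_b {V : Type} (Φ : List (Con V)) (v z : V → Bool)
    (hv : ∀ u, v u = true → z u = true) (hz : ∀ φ ∈ Φ, φ.Holds z) (u : V)
    (h : F1_pass Φ v u = true) : z u = true := by
  induction Φ generalizing v with
  | nil => exact hv u h
  | cons φ Φ ih =>
    exact ih _ (F1_stp_b φ v z hv (hz φ List.mem_cons_self))
      (fun ψ hψ => hz ψ (List.mem_cons_of_mem _ hψ)) h

private theorem F1_pass_c {V : Type} (Φ : List (Con V)) (v : V → Bool) (h : F1_pass Φ v = v) :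
    ∀ φ ∈ Φ, F1_stp φ v = v := by
  induction Φ with
  | nil => simp
  | cons φ Φ ih =>
    have h1 : F1_stp φ v = v := by
      funext u
      rw [Bool.eq_iff_iff]
      constructor
      · intro hu
        rw [← h]
        exact F1_pass_a Φ _ u hu
      · exact F1_stp_a φ v u
    rw [F1_pass_cons, h1] at h
    intro ψ hψ
    rcases List.mem_cons.1 hψ with rfl | hψ
    · exact h1
    · exact ih h ψ hψ

private theorem F1_pass_out {V : Type} (Φ : List (Con V)) (v : V → Bool) (u : V)
    (h : ∀ φ ∈ Φ, ∀ c, φ.w c ≠ u) : F1_pass Φ v u = v u := by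
  induction Φ generalizing v with
  | nil => rfl
  | cons φ Φ ih =>
    rw [F1_pass_cons, ih _ fun ψ hψ => h ψ (List.mem_cons_of_mem _ hψ),
      F1_stp_out φ v u (h φ List.mem_cons_self)]

open Classical in
private theorem F1_fix {V : Type} (W : Finset V) (p : (V → Bool) → V → Bool)
    (h1 : ∀ v u, v u = true → p v u = true) (h2 : ∀ v u, u ∉ W → p v u = v u) (v : V → Bool) (t : ℕ) :
    p (p^[t] v) = p^[t] v ∨ t < (W.filter fun u => p^[t + 1] v u = true).card := by
  have key : ∀ v, p v ≠ v → (W.filter fun u => v u = true).card <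
      (W.filter fun u => p v u = true).card := by
    intro v hv
    apply Finset.card_lt_card
    rw [Finset.ssubset_iff_of_subset]
    · obtain ⟨u, hu⟩ := Function.ne_iff.1 hv
      have hW : u ∈ W := by
        by_contra hW
        exact hu (h2 v u hW)
      have h3 : v u ≠ true := fun h => hu (by rw [h, h1 v u h])
      have h4 : p v u = true := by
        rcases hh : p v u with _ | _
        · rw [hh] at hu
          rcases hh' : v u with _ | _
          · exact absurd hh'.symm hu
          · exact absurd hh' h3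
        · rfl
      exact ⟨u, by simp only [Finset.mem_filter]; exact ⟨hW, h4⟩,
        by simp only [Finset.mem_filter]; exact fun h => h3 h.2⟩
    · intro u hu
      simp only [Finset.mem_filter] at hu ⊢
      exact ⟨hu.1, h1 _ _ hu.2⟩
  induction t with
  | zero =>
    by_cases h : p (p^[0] v) = p^[0] v
    · exact Or.inl h
    · right
      have := key _ h
      exact lt_of_le_of_lt (Nat.zero_le _) this
  | succ t ih =>
    by_cases h : p (p^[t + 1] v) = p^[t + 1] v
    · exact Or.inl h
    · right
      rcases ih with ih | ih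
      · exfalso
        apply h
        rw [Function.iterate_succ_apply', ih, ih]
      · have h3 := key _ h
        rw [← Function.iterate_succ_apply' p (t + 1) v] at h3
        simp only [Nat.succ_eq_add_one] at h3
        omega

private theorem F1_iter_b {V : Type} (Φ : List (Con V)) (v z : V → Bool)
    (hv : ∀ u, v u = true → z u = true) (hz : ∀ φ ∈ Φ, φ.Holds z) (t : ℕ) (u : V)
    (h : (F1_pass Φ)^[t] v u = true) : z u = true := by
  induction t generalizing u with
  | zero => exact hv u h
  | succ t ih =>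
    rw [Function.iterate_succ_apply'] at h
    exact F1_pass_b Φ _ z ih hz u h

private theorem F1_iter_a {V : Type} (Φ : List (Con V)) (v : V → Bool) (t : ℕ) (u : V)
    (h : v u = true) : (F1_pass Φ)^[t] v u = true := by
  induction t with
  | zero => exact h
  | succ t ih =>
    rw [Function.iterate_succ_apply']
    exact F1_pass_a Φ _ u ih

/-- the assignment after sufficiently many passes is a fixed point -/
private theorem F1_fixed {V : Type} (Φ : List (Con V)) (r0 : ℕ) (h : ∀ φ ∈ Φ, φ.r ≤ r0) (v : V → Bool) :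
    F1_pass Φ ((F1_pass Φ)^[r0 * Φ.length] v) = (F1_pass Φ)^[r0 * Φ.length] v := by
  classical
  have hW : ((Φ.flatMap fun φ => List.ofFn φ.w).toFinset : Finset V).card ≤ r0 * Φ.length := by
    refine (List.toFinset_card_le _).trans ?_
    rw [List.length_flatMap]
    have h1 := List.sum_le_card_nsmul (Φ.map fun φ => (List.ofFn φ.w).length) r0 (by
      intro x hx
      obtain ⟨φ, hφ, rfl⟩ := List.mem_map.1 hx
      rw [List.length_ofFn]
      exact h φ hφ)
    rw [List.length_map, smul_eq_mul] at h1
    rw [Nat.mul_comm]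
    exact h1
  have h1 := F1_fix ((Φ.flatMap fun φ => List.ofFn φ.w).toFinset : Finset V) (F1_pass Φ)
    (F1_pass_a Φ) (fun v u hu => by
      apply F1_pass_out
      intro φ hφ c hc
      apply hu
      rw [List.mem_toFinset, List.mem_flatMap]
      refine ⟨φ, hφ, ?_⟩
      rw [List.mem_ofFn]
      exact ⟨c, hc⟩) v (r0 * Φ.length)
  rcases h1 with h1 | h1
  · exact h1
  · exfalso
    have := Finset.card_filter_le ((Φ.flatMap fun φ => List.ofFn φ.w).toFinset : Finset V)
      (fun u => (F1_pass Φ)^[r0 * Φ.length + 1] v u = true)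
    omega

/-! gates -/

private theorem F1_all (r0 : ℕ) : ∃ K, ∀ r ≤ r0, ∀ g : BF r, Gets true (bas r) K {g} := by
  classical
  have h1 : ∀ r : ℕ, ∃ K, ∀ g : BF r, Gets true (bas r) K {g} := by
    intro r
    choose Kg hKg using fun g : BF r => Post.gets_any g
    exact ⟨Finset.univ.sup Kg, fun g => (hKg g).weaken subset_rfl
      (Finset.le_sup (Finset.mem_univ g)) subset_rfl⟩
  choose K hK using h1
  exact ⟨(Finset.range (r0 + 1)).sup K, fun r hr g => (hK r g).weaken subset_rfl
    (Finset.le_sup (Finset.mem_range.2 (by omega))) subset_rfl⟩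

/-- the functions of a family -/
private def F1_fam {m : ℕ} {V : Type} (v : (Fin m → Bool) → V → Bool) : Set (BF m) :=
  range fun u : V => fun x => v x u

private theorem F1_fn {m r K : ℕ} {V : Type} (v : (Fin m → Bool) → V → Bool) (w : Fin r → V) (g : BF r)
    (h : Gets true (bas r) K {g}) :
    Gets true (bas m ∪ F1_fam v) K {fun x => g (fun c => v x (w c))} := by
  have h1 := h.pull (fun x : Fin m → Bool => fun c => v x (w c))
  refine h1.weaken ?_ le_rfl (by rw [image_singleton])
  rintro _ ⟨f, hf, rfl⟩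
  rcases hf with ⟨j, rfl⟩ | (hf | hf)
  · exact Or.inr ⟨w j, rfl⟩
  · left
    rw [hf]
    exact false_mem_bas
  · left
    rw [mem_singleton_iff.1 hf]
    exact true_mem_bas

private theorem F1_gets_stp {m K r0 : ℕ} {V : Type} (hK : ∀ r ≤ r0, ∀ g : BF r, Gets true (bas r) K {g})
    (v : (Fin m → Bool) → V → Bool) (φ : Con V) (hφ : φ.r ≤ r0) :
    Gets true (bas m ∪ F1_fam v) (r0 * K) (F1_fam fun x => F1_stp φ (v x)) := by
  classical
  have h1 : ∀ c : Fin φ.r, Gets true (bas m ∪ F1_fam v) K {fun x => F1_stp φ (v x) (φ.w c)} := by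
    intro c
    have h2 := F1_fn v φ.w (fun b => b c || decide (∃ c', φ.w c' = φ.w c ∧ F1_lst φ.R b c' = true))
      (hK φ.r hφ _)
    convert h2 using 3 with x
    rw [Bool.eq_iff_iff, F1_stp_iff, Bool.or_eq_true, decide_eq_true_eq]
  have h2 := (Gets.iUnion K _ h1).union (Gets.refl true (bas m ∪ F1_fam v))
  refine h2.weaken subset_rfl ?_ ?_
  · rw [Fintype.card_fin, Nat.add_zero]
    exact Nat.mul_le_mul_right _ hφ
  · rintro _ ⟨u, rfl⟩
    by_cases hu : ∃ c, φ.w c = u
    · obtain ⟨c, rfl⟩ := hu
      exact Or.inl (mem_iUnion.2 ⟨c, rfl⟩)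
    · push Not at hu
      right; right
      refine ⟨u, ?_⟩
      funext x
      exact (F1_stp_out φ (v x) u hu).symm

private theorem F1_gets_pass {m K r0 : ℕ} {V : Type} (hK : ∀ r ≤ r0, ∀ g : BF r, Gets true (bas r) K {g})
    (Φ : List (Con V)) (hΦ : ∀ φ ∈ Φ, φ.r ≤ r0) (v : (Fin m → Bool) → V → Bool) :
    Gets true (bas m ∪ F1_fam v) (Φ.length * (r0 * K)) (F1_fam fun x => F1_pass Φ (v x)) := by
  induction Φ generalizing v with
  | nil => exact (Gets.refl true _).weaken subset_rfl (Nat.zero_le _) subset_union_right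
  | cons φ Φ ih =>
    have h1 := F1_gets_stp hK v φ (hΦ φ List.mem_cons_self)
    have h2 := ih (fun ψ hψ => hΦ ψ (List.mem_cons_of_mem _ hψ)) (fun x => F1_stp φ (v x))
    have h3 := h1.trans' (h2.weaken (B' := bas m ∪ F1_fam v ∪ F1_fam fun x => F1_stp φ (v x))
      (by
        rintro f (hf | hf)
        · exact Or.inl (Or.inl hf)
        · exact Or.inr hf) le_rfl subset_rfl)
    refine h3.weaken subset_rfl (le_of_eq ?_) subset_rfl
    rw [List.length_cons]
    ring

private theorem F1_gets_iter {m K r0 : ℕ} {V : Type} (hK : ∀ r ≤ r0, ∀ g : BF r, Gets true (bas r) K {g})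
    (Φ : List (Con V)) (hΦ : ∀ φ ∈ Φ, φ.r ≤ r0) (v : (Fin m → Bool) → V → Bool) (t : ℕ) :
    Gets true (bas m ∪ F1_fam v) (t * (Φ.length * (r0 * K)))
      (F1_fam fun x => (F1_pass Φ)^[t] (v x)) := by
  induction t with
  | zero => exact (Gets.refl true _).weaken subset_rfl (Nat.zero_le _) subset_union_right
  | succ t ih =>
    have h2 := F1_gets_pass hK Φ hΦ (fun x => (F1_pass Φ)^[t] (v x))
    have h3 := ih.trans' (h2.weaken
      (B' := bas m ∪ F1_fam v ∪ F1_fam fun x => (F1_pass Φ)^[t] (v x))
      (by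
        rintro f (hf | hf)
        · exact Or.inl (Or.inl hf)
        · exact Or.inr hf) le_rfl subset_rfl)
    refine h3.weaken subset_rfl (le_of_eq ?_) ?_
    · ring
    · rintro _ ⟨u, rfl⟩
      refine ⟨u, ?_⟩
      funext x
      exact (congrFun (Function.iterate_succ_apply' (F1_pass Φ) t (v x)) u).symm

/-- Projections of conjunctions of Horn constraints are decided by small circuits. Proof:

Let `V = Fin m ⊕ Fin a`.
* Least elements. For a Horn relation `R : BF r` and `b : Fin r → Bool` let `lst R b c` be `true` iff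
  every `t` with `R t` and `b ≤ t` has `t c = true` (so it is constantly `true` if there is no such
  `t`). If some `t` with `R t`, `b ≤ t` exists then `R (lst R b)` (the conjunction of finitely many
  members). Always `b ≤ lst R b`.
* Step. For a constraint `φ` and `v : V → Bool` let `stp φ v u = v u || ⋁_{c, φ.w c = u} lst φ.R (v ∘ φ.w) c`.
  Then (a) `v ≤ stp φ v`; (b) if `v ≤ z` and `φ.Holds z` then `stp φ v ≤ z`; (c) if `stp φ v = v`, `v ≤ z`
  and `φ.Holds z` for some `z` then `φ.Holds v`.
* Pass. `pass v = Φ.foldl (fun v φ => stp φ v) v`: (a), (b) (for `z` which satisfies all of `Φ`) hold;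
  if `pass v = v` then `stp φ v = v` for all `φ ∈ Φ` (by (a) all intermediate assignments are `v`).
* Let `W` be the finite set of the variables which occur in `Φ`, `W.card ≤ r0 * Φ.length`.
  `pass v` and `v` agree outside `W`. Starting with `v₀ x = Sum.elim x (fun _ => false)` the iterates
  `pass^[t] (v₀ x)` increase; so for `t = W.card` we have a fixed point `v* x` of `pass` (as long as the
  iterate is not a fixed point the number of true variables in `W` increases).
* `T x = true ↔ (∀ φ ∈ Φ, φ.Holds (v* x)) ∧ ∀ i : Fin m, v* x (inl i) = x i`. From right to left: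
  `y i = v* x (inr i)`. From left to right: if `y` is a witness, `z = Sum.elim x y`, then `v* x ≤ z` by
  (b) and `x ≤ v*` on the inputs by (a), so `v*` and `x` agree on the inputs, and (c).
* Gates. Let `K₁` be such that `Gets true (bas r) K₁ {g}` for all `r ≤ r0` and `g : BF r` (finitely
  many: `Post.gets_any`, `Gets.weaken`, sups). With `𝓕 v = {x ↦ v x u | u : V}` for a family
  `v : (Fin m → Bool) → V → Bool`: `𝓕 (v₀) ⊆ bas m`, and
  `Gets true (bas m ∪ 𝓕 v) (r0 * K₁) (𝓕 (fun x => stp φ (v x)))`: for `u = φ.w c` the function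
  `stp φ v u` is a function `g : BF φ.r` of `v ∘ φ.w` (pull `g` along `x ↦ v x ∘ φ.w`, `Gets.pull`), and it
  is `v u` for the other `u`; `Gets.iUnion` over `c : Fin φ.r`. So a pass costs `Φ.length * r0 * K₁`, and
  `v*` costs `(r0 * Φ.length) * (Φ.length * r0 * K₁)` (`Gets.trans`, `Gets.weaken`). The final
  check is the conjunction (`Gets.list_and`) of `Φ.length` functions `φ.R (v* ∘ φ.w)`, of cost `K₁`
  each, and of the `m` functions `v* (inl i) == x i`, of cost `K₁` each if `r0 ≥ 2` (or pull a
  function of two bits). -/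
theorem con_gets (r0 : ℕ) : ∃ K, ∀ (m a : ℕ) (Φ : List (Con (Fin m ⊕ Fin a))),
    (∀ φ ∈ Φ, φ.r ≤ r0 ∧ φ.Horn) → ∀ T : BF m,
      (∀ x, T x = true ↔ ∃ y : Fin a → Bool, ∀ φ ∈ Φ, φ.Holds (Sum.elim x y)) →
        Gets true (bas m) (K * (m + Φ.length + 1) ^ 3) {T} := by
  classical
  obtain ⟨K₁, hK₁⟩ := F1_all (r0 + 2)
  refine ⟨r0 * r0 * K₁ + K₁ + 1, ?_⟩
  intro m a Φ hΦ T hT
  have hr : ∀ φ ∈ Φ, φ.r ≤ r0 := fun φ hφ => (hΦ φ hφ).1
  have hK : ∀ r ≤ r0, ∀ g : BF r, Gets true (bas r) K₁ {g} := fun r hr g => hK₁ r (by omega) g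
  obtain ⟨v0, hv0⟩ : ∃ v0 : (Fin m → Bool) → Fin m ⊕ Fin a → Bool,
    v0 = fun x => Sum.elim x (fun _ => false) := ⟨_, rfl⟩
  obtain ⟨vs, hvs⟩ : ∃ vs : (Fin m → Bool) → Fin m ⊕ Fin a → Bool,
    vs = fun x => (F1_pass Φ)^[r0 * Φ.length] (v0 x) := ⟨_, rfl⟩
  -- correctness
  have hcorr : ∀ x, T x = true ↔ (∀ φ ∈ Φ, φ.Holds (vs x)) ∧ ∀ i, vs x (Sum.inl i) = x i := by
    intro x
    rw [hT x]
    constructor
    · rintro ⟨y, hy⟩
      have h0 : ∀ u, v0 x u = true → (Sum.elim x y : Fin m ⊕ Fin a → Bool) u = true := by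
        rintro (i | i) h
        · rw [hv0] at h; exact h
        · rw [hv0] at h; simp at h
      have hle : ∀ u, vs x u = true → (Sum.elim x y : Fin m ⊕ Fin a → Bool) u = true := by
        intro u hu
        rw [hvs] at hu
        exact F1_iter_b Φ (v0 x) _ h0 hy _ u hu
      have hfix : F1_pass Φ (vs x) = vs x := by
        rw [hvs]
        exact F1_fixed Φ r0 hr (v0 x)
      refine ⟨fun φ hφ => ?_, fun i => ?_⟩
      · exact F1_stp_c φ (hΦ φ hφ).2 (vs x) _ hle (hy φ hφ) (F1_pass_c Φ (vs x) hfix φ hφ)
      · rw [Bool.eq_iff_iff]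
        constructor
        · intro h
          exact hle _ h
        · intro h
          rw [hvs]
          refine F1_iter_a Φ (v0 x) _ _ ?_
          rw [hv0]
          exact h
    · rintro ⟨h1, h2⟩
      refine ⟨fun i => vs x (Sum.inr i), ?_⟩
      have e : (Sum.elim x (fun i => vs x (Sum.inr i)) : Fin m ⊕ Fin a → Bool) = vs x := by
        funext u
        rcases u with i | i
        · exact (h2 i).symm
        · rfl
      rw [e]
      exact h1
  -- gates
  have g1 : Gets true (bas m) (r0 * Φ.length * (Φ.length * (r0 * K₁))) (F1_fam vs) := by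
    have h1 := F1_gets_iter hK Φ hr v0 (r0 * Φ.length)
    rw [hvs]
    refine h1.weaken ?_ le_rfl subset_rfl
    rintro f (hf | ⟨u, rfl⟩)
    · exact hf
    · rw [hv0]
      rcases u with i | i
      · exact inp_mem_bas i
      · exact false_mem_bas
  have g2 : Gets true (bas m ∪ F1_fam vs) (Φ.length * K₁)
      (⋃ k : Fin Φ.length, {fun x => (Φ[k]).R (fun c => vs x ((Φ[k]).w c))}) := by
    have := Gets.iUnion (ι := Fin Φ.length) (neg := true) (B := bas m ∪ F1_fam vs) K₁
      (fun k => {fun x => (Φ[k]).R (fun c => vs x ((Φ[k]).w c))})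
      (fun k => F1_fn vs (Φ[k]).w (Φ[k]).R (hK _ (hr _ (List.getElem_mem _)) _))
    rwa [Fintype.card_fin] at this
  have g3 : Gets true (bas m ∪ F1_fam vs) (m * K₁)
      (⋃ i : Fin m, {fun x : Fin m → Bool => vs x (Sum.inl i) == x i}) := by
    have := Gets.iUnion (ι := Fin m) (neg := true) (B := bas m ∪ F1_fam vs) K₁
      (fun i => {fun x : Fin m → Bool => vs x (Sum.inl i) == x i}) (fun i => by
        have h1 := F1_fn (m := m) (V := Fin m ⊕ Fin a ⊕ Unit)
          (fun x => Sum.elim (fun j => x j) (fun _ => vs x (Sum.inl i)))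
          (![Sum.inr (Sum.inr ()), Sum.inl i] : Fin 2 → _) (fun b : Fin 2 → Bool => b 0 == b 1)
          (hK₁ 2 (by omega) _)
        refine h1.weaken ?_ le_rfl ?_
        · rintro f (hf | ⟨u, rfl⟩)
          · exact Or.inl hf
          · rcases u with j | u
            · exact Or.inl (inp_mem_bas j)
            · exact Or.inr ⟨Sum.inl i, rfl⟩
        · rw [singleton_subset_iff]
          exact rfl)
    rwa [Fintype.card_fin] at this
  have g4 := (g2.union g3).union (Gets.refl true (bas m ∪ F1_fam vs))
  have g5 := Gets.list_and (neg := true)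
    ((List.finRange Φ.length).map (fun k : Fin Φ.length => fun x => (Φ[k]).R (fun c => vs x ((Φ[k]).w c))) ++
      (List.finRange m).map (fun i => fun x : Fin m → Bool => vs x (Sum.inl i) == x i))
    (fun f hf => by
      rcases List.mem_append.1 hf with hf | hf
      · obtain ⟨k, -, rfl⟩ := List.mem_map.1 hf
        exact Or.inl (Or.inl (mem_iUnion.2 ⟨k, rfl⟩))
      · obtain ⟨k, -, rfl⟩ := List.mem_map.1 hf
        exact Or.inl (Or.inr (mem_iUnion.2 ⟨k, rfl⟩)))
    (Or.inr (Or.inl true_mem_bas)) g4
  have g6 := g1.trans' g5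
  have e : (fun x => ((List.finRange Φ.length).map
      (fun k : Fin Φ.length => fun x => (Φ[k]).R (fun c => vs x ((Φ[k]).w c))) ++
      (List.finRange m).map (fun i => fun x : Fin m → Bool => vs x (Sum.inl i) == x i)).all
        fun f => f x) = T := by
    funext x
    rw [Bool.eq_iff_iff, hcorr x, List.all_eq_true]
    constructor
    · intro h
      constructor
      · intro φ hφ
        obtain ⟨k, hk, rfl⟩ := List.getElem_of_mem hφ
        exact h _ (List.mem_append.2 (Or.inl (List.mem_map.2 ⟨⟨k, hk⟩, List.mem_finRange _, rfl⟩)))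
      · intro i
        have := h _ (List.mem_append.2 (Or.inr (List.mem_map.2 ⟨i, List.mem_finRange _, rfl⟩)))
        exact beq_iff_eq.1 this
    · rintro ⟨h1, h2⟩ f hf
      rcases List.mem_append.1 hf with hf | hf
      · obtain ⟨k, -, rfl⟩ := List.mem_map.1 hf
        exact h1 _ (List.getElem_mem _)
      · obtain ⟨k, -, rfl⟩ := List.mem_map.1 hf
        exact beq_iff_eq.2 (h2 k)
  rw [e] at g6
  refine g6.weaken subset_rfl ?_ subset_rfl
  simp only [List.length_append, List.length_map, List.length_finRange, Nat.add_zero]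
  have hp : 1 ≤ m + Φ.length + 1 := by omega
  have e1 : m + Φ.length + 1 ≤ (m + Φ.length + 1) ^ 3 := by
    calc m + Φ.length + 1 = (m + Φ.length + 1) ^ 1 := (pow_one _).symm
      _ ≤ _ := Nat.pow_le_pow_right hp (by norm_num)
  have e2 : Φ.length * Φ.length ≤ (m + Φ.length + 1) ^ 3 := by
    calc Φ.length * Φ.length ≤ (m + Φ.length + 1) * (m + Φ.length + 1) :=
          Nat.mul_le_mul (by omega) (by omega)
      _ = (m + Φ.length + 1) ^ 2 := by ring
      _ ≤ _ := Nat.pow_le_pow_right hp (by norm_num)
  have e3 : r0 * Φ.length * (Φ.length * (r0 * K₁)) = r0 * r0 * K₁ * (Φ.length * Φ.length) := by ring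
  have e4 : Φ.length * K₁ + m * K₁ + (Φ.length + m) = (K₁ + 1) * (m + Φ.length) := by ring
  rw [e3, e4]
  calc r0 * r0 * K₁ * (Φ.length * Φ.length) + (K₁ + 1) * (m + Φ.length)
      ≤ r0 * r0 * K₁ * (m + Φ.length + 1) ^ 3 + (K₁ + 1) * (m + Φ.length + 1) ^ 3 :=
        Nat.add_le_add (Nat.mul_le_mul_left _ e2) (Nat.mul_le_mul_left _ (by omega))
    _ = (r0 * r0 * K₁ + K₁ + 1) * (m + Φ.length + 1) ^ 3 := by ring

end Pool.Agent.MP_ca1109_lc.Csp
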