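import Pool.Agent.MP_ca1109_lc.Mpg.G0
import Pool.Agent.MP_ca1109_lc.Post.P11

/-!
# Generators with shorter outputs
-/

namespace Pool.Agent.MP_ca1109_lc.Csp

open Set Pool.Agent.H66 Pool.Agent.MP_ca1109_lc.Mpg Pool.Agent.MP_ca1109_lc.Post

/-- The first `m` bits of a generator with `N m` bits of output, after some postprocessing.

Proof: `D' m = D (N m)`, `G' m s = post m (G (N m) s)`. `PolyTime`: `.comp`, `.pair`, `PolyTime.fst`,
`PolyTime.snd` as in `gen_of_key` (`Post/P8.lean`) and `p11_G_poly` (`Post/P11.lean`).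
`D (N m) ≤ c * logb 2 (N m) ≤ |c| * q * logb 2 m` and this is `< m` for large `m` (`Post.p11_log`), as
in `Post.gen_large` (`Post/P11.lean`; there `0 ≤ logb 2 (N m)` needs `1 ≤ N m`, which holds
eventually by `hN1`). The last condition: apply `key` with `A = Fin (D (N m)) → Bool` and
`l s = G (N m) (List.ofFn s)`, of length `N m` by the hypothesis on lengths. -/
theorem logGen_shrink {𝒯 𝒯' : ∀ n : ℕ, ((Fin n → Bool) → Bool) → Prop} {e e' : ℝ} (N : ℕ → ℕ)
    (hN : PolyTime N) (hN1 : Filter.Tendsto N Filter.atTop Filter.atTop) (q : ℕ)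
    (hN2 : ∀ᶠ m : ℕ in Filter.atTop, N m ≤ m ^ q) (post : ℕ → List Bool → List Bool)
    (hpost : PolyTime fun p : ℕ × List Bool => post p.1 p.2) (hlen : ∀ m l, (post m l).length = m)
    (key : ∀ᶠ m : ℕ in Filter.atTop, ∀ T, 𝒯' m T → ∀ (A : Type) [Fintype A] [Nonempty A]
      (l : A → List Bool), (∀ a, (l a).length = N m) →
      (∀ T', 𝒯 (N m) T' → |prob (fun a => T' (bits (N m) (l a))) - prob T'| ≤ e) →
        |prob (fun a => T (bits m (post m (l a)))) - prob T| ≤ e')
    (h : LogGen 𝒯 e) : LogGen 𝒯' e' := by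
  obtain ⟨D, G, hD, hG, hl, c, hc⟩ := h
  refine ⟨fun m => D (N m), fun m s => post m (G (N m) s), hD.comp hN,
    hpost.comp (PolyTime.fst.pair (hG.comp ((hN.comp PolyTime.fst).pair PolyTime.snd))),
    fun m s _ => hlen m _, |c| * q, ?_⟩
  filter_upwards [hN1.eventually hc, hN2, key, p11_log (|c| * q) (by positivity),
    Filter.eventually_ge_atTop 2, hN1.eventually_ge_atTop 1] with m hm hmq hkey hlog hm2 hN1'
  obtain ⟨hm1, -, hm3⟩ := hm
  have hbound : (D (N m) : ℝ) ≤ |c| * q * Real.logb 2 m := by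
    have h2 : (N m : ℝ) ≤ (m : ℝ) ^ q := by exact_mod_cast hmq
    have h3 : (0 : ℝ) < (N m : ℝ) := by exact_mod_cast hN1'
    have h4 := Real.logb_le_logb_of_le (by norm_num : (1 : ℝ) < 2) h3 h2
    rw [Real.logb_pow] at h4
    have h5 : 1 ≤ (N m : ℝ) := by exact_mod_cast hN1'
    have h6 : 0 ≤ Real.logb 2 (N m) := Real.logb_nonneg (by norm_num) h5
    calc (D (N m) : ℝ) ≤ c * Real.logb 2 (N m) := hm1
      _ ≤ |c| * Real.logb 2 (N m) := mul_le_mul_of_nonneg_right (le_abs_self c) h6
      _ ≤ |c| * ((q : ℝ) * Real.logb 2 m) := mul_le_mul_of_nonneg_left h4 (abs_nonneg c)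
      _ = |c| * q * Real.logb 2 m := by ring
  refine ⟨hbound, ?_, ?_⟩
  · have h2 : (D (N m) : ℝ) < (m : ℝ) := lt_of_le_of_lt hbound hlog
    exact_mod_cast h2
  · intro T hT
    exact hkey T hT (Fin (D (N m)) → Bool) (fun s => G (N m) (List.ofFn s))
      (fun s => hl _ _ (by rw [List.length_ofFn])) hm3

/-- Generators against all circuits fool all tests with circuits of polynomial size.

Proof: as `Post.gen_large` (`Post/P11.lean`): copy its proof with `hK m T hT` in place of the bound
`K * m ^ k` for the tests; only the bound for large `m` is used (it is under `filter_upwards`). -/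
theorem gen_large' {𝒯 : ∀ n : ℕ, ((Fin n → Bool) → Bool) → Prop} (K k : ℕ)
    (hK : ∀ᶠ m : ℕ in Filter.atTop, ∀ T, 𝒯 m T → Gets true (bas m) (K * m ^ k) {T})
    (h : GenExists (fun _ _ => True) (1 / 8)) {e : ℝ} (he : 0 < e) : LogGen 𝒯 e := by
  obtain ⟨ε, hε⟩ : ∃ ε : ℝ, ε = min e (1 / 2) := ⟨_, rfl⟩
  have hε0 : 0 < ε := by rw [hε]; exact lt_min he (by norm_num)
  have hε1 : ε < 1 := by rw [hε]; exact lt_of_le_of_lt (min_le_right _ _) (by norm_num)
  have hεe : ε ≤ e := by rw [hε]; exact min_le_left _ _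
  have h1 : GenExists (fun _ C => C.nots ≤ 1) (1 / 8) :=
    (threshold.1 (1 / 8) (1 / 8) (by norm_num) (by norm_num) (by norm_num) (by norm_num)).2 h
  obtain ⟨d, G, hd, hG, hl, c, hc⟩ :=
    (threshold.1 (1 / 8) ε (by norm_num) (by norm_num) hε0 hε1).1 h1
  refine ⟨fun m => d (p11_N K k m), p11_G G K k, hd.comp (p11_poly K k), p11_G_poly hG K k, ?_,
    |c| * (2 * k + 3), ?_⟩
  · intro m s _
    rw [p11_G, List.length_map, List.length_range]
  have hN : Filter.Tendsto (p11_N K k) Filter.atTop Filter.atTop :=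
    Filter.tendsto_atTop_mono (p11_le K k) Filter.tendsto_id
  filter_upwards [hK, hN.eventually hc, p11_log (|c| * (2 * k + 3)) (by positivity), Filter.eventually_ge_atTop 2,
    Filter.eventually_ge_atTop (K + 1)] with m hKm hm hlog hm2 hmK
  obtain ⟨hm1, -, hm3⟩ := hm
  have hm0 : (1 : ℝ) < m := by exact_mod_cast hm2
  have hbound : (d (p11_N K k m) : ℝ) ≤ |c| * (2 * k + 3) * Real.logb 2 m := by
    have h2 : (p11_N K k m : ℝ) ≤ (m : ℝ) ^ (2 * k + 3) := by exact_mod_cast p11_pow K k m hm2 hmK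
    have h3 : (0 : ℝ) < (p11_N K k m : ℝ) := by
      have : 0 < p11_N K k m := lt_of_lt_of_le (by omega) (p11_le K k m)
      exact_mod_cast this
    have h4 := Real.logb_le_logb_of_le (by norm_num : (1 : ℝ) < 2) h3 h2
    rw [Real.logb_pow] at h4
    have h5 : 1 ≤ (p11_N K k m : ℝ) := by
      have : 1 ≤ p11_N K k m := le_trans (by omega) (p11_le K k m)
      exact_mod_cast this
    have h6 : 0 ≤ Real.logb 2 (p11_N K k m) := Real.logb_nonneg (by norm_num) h5
    calc (d (p11_N K k m) : ℝ) ≤ c * Real.logb 2 (p11_N K k m) := hm1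
      _ ≤ |c| * Real.logb 2 (p11_N K k m) := mul_le_mul_of_nonneg_right (le_abs_self c) h6
      _ ≤ |c| * (((2 * k + 3 : ℕ) : ℝ) * Real.logb 2 m) := mul_le_mul_of_nonneg_left h4 (abs_nonneg c)
      _ = |c| * (2 * k + 3) * Real.logb 2 m := by push_cast; ring
  refine ⟨hbound, ?_, ?_⟩
  · have h2 : (d (p11_N K k m) : ℝ) < (m : ℝ) := lt_of_le_of_lt hbound hlog
    exact_mod_cast h2
  · intro T hT
    have hg := hKm T hT
    have hg2 := hg.pull (fun x : Fin (p11_N K k m) → Bool => fun i : Fin m => x (Fin.castLE (p11_le K k m) i))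
    have hg3 : Gets true (bas (p11_N K k m)) (K * m ^ k)
        {fun x : Fin (p11_N K k m) → Bool => T (fun i : Fin m => x (Fin.castLE (p11_le K k m) i))} := by
      refine hg2.weaken ?_ le_rfl ?_
      · rintro _ ⟨f, hf, rfl⟩
        rcases hf with ⟨j, rfl⟩ | (hf | hf)
        · exact inp_mem_bas _
        · rw [hf]
          exact false_mem_bas
        · rw [mem_singleton_iff.1 hf]
          exact true_mem_bas
      · rw [image_singleton]
    have e1 : prob (fun s : Fin (d (p11_N K k m)) → Bool => T (bits m (p11_G G K k m (List.ofFn s)))) =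
        prob (fun s : Fin (d (p11_N K k m)) → Bool => (fun x : Fin (p11_N K k m) → Bool =>
          T (fun i : Fin m => x (Fin.castLE (p11_le K k m) i))) (bits (p11_N K k m) (G (p11_N K k m) (List.ofFn s)))) := by
      simp only [p11_bits]
    have e2 : prob T = prob (fun x : Fin (p11_N K k m) → Bool => T (fun i : Fin m => x (Fin.castLE (p11_le K k m) i))) :=
      (prob_marginal (fun i : Fin m => Fin.castLE (p11_le K k m) i) (Fin.castLE_injective _) T).symm
    show |prob (fun s : Fin (d (p11_N K k m)) → Bool => T (bits m (p11_G G K k m (List.ofFn s)))) - prob T| ≤ e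
    rw [e1, e2]
    generalize (fun x : Fin (p11_N K k m) → Bool => T (fun i : Fin m => x (Fin.castLE (p11_le K k m) i))) = T' at hg3 ⊢
    have hconst : ∀ (A : Type) [Fintype A] [Nonempty A], prob (fun _ : A => true) = 1 := by
      intro A _ _
      unfold prob
      rw [Finset.filter_true_of_mem (fun _ _ => rfl), Finset.card_univ]
      exact div_self (Nat.cast_ne_zero.2 Fintype.card_ne_zero)
    have hconst' : ∀ (A : Type) [Fintype A], prob (fun _ : A => false) = 0 := by
      intro A _
      unfold prob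
      rw [Finset.filter_false_of_mem (fun _ _ => Bool.false_ne_true), Finset.card_empty, Nat.cast_zero, zero_div]
    rcases p11_circuit hg3 with (hf | hf) | ⟨C, hC1, hC2⟩
    · rw [hf, hconst', hconst', sub_zero, abs_zero]
      exact he.le
    · rw [mem_singleton_iff.1 hf, hconst, hconst, sub_self, abs_zero]
      exact he.le
    · have h7 := hm3 C trivial (hC1.trans (p11_le' K k m))
      unfold advantage at h7
      simp only [hC2] at h7
      exact h7.trans hεe

end Pool.Agent.MP_ca1109_lc.Csp
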