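import Pool.Agent.MP_ca1109_lc.Csp.A
import Pool.Agent.MP_ca1109_lc.Csp.F1
import Pool.Agent.MP_ca1109_lc.Csp.H0

/-!
# Generators for Horn languages
-/

namespace Pool.Agent.MP_ca1109_lc.Csp

open Set Pool.Agent.H66 Pool.Agent.MP_ca1109_lc.Mpg

variable {L : Lang}

/-- The constraint of an atom. -/
def Atom.con {V : Type} : Atom L V → Con V
  | .eq a b => ⟨2, ![a, b], fun t => t 0 == t 1⟩
  | .rel i w => ⟨L.arity i, w, L.rel i⟩

theorem Atom.con_holds {V : Type} (φ : Atom L V) (x : V → Bool) : φ.con.Holds x ↔ φ.Holds x := by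
  cases φ with
  | eq a b =>
    show (x a == x b) = true ↔ x a = x b
    exact beq_iff_eq
  | rel i w => exact Iff.rfl

theorem Atom.con_horn {V : Type} (hL : Horn L) (φ : Atom L V) : φ.con.Horn := by
  cases φ with
  | eq a b =>
    show ∀ s t : Fin 2 → Bool, (s 0 == s 1) = true → (t 0 == t 1) = true →
      ((s 0 && t 0) == (s 1 && t 1)) = true
    intro s t hs ht
    rw [beq_iff_eq] at hs ht ⊢
    rw [hs, ht]
  | rel i w =>
    intro s t hs ht
    exact hL i ![s, t] (Fin.forall_fin_succ.2 ⟨hs, Fin.forall_fin_succ.2 ⟨ht, fun i => i.elim0⟩⟩)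

theorem horn_gets (hL : Horn L) : ∃ K, ∀ (m s : ℕ) (T : (Fin m → Bool) → Bool), PTest L s m T →
    Gets true (bas m) (K * (m + s + 1) ^ 3) {T} := by
  obtain ⟨K, hK⟩ := con_gets (max 2 (Finset.univ.sup L.arity))
  refine ⟨K, fun m s T hT => ?_⟩
  obtain ⟨a, Φ, h1, h2⟩ := hT
  have h3 := hK m a (Φ.map Atom.con) (fun φ hφ => by
    obtain ⟨φ, hφ, rfl⟩ := List.mem_map.1 hφ
    refine ⟨?_, φ.con_horn hL⟩
    cases φ with
    | eq a b => exact le_max_left _ _
    | rel i w => exact (Finset.le_sup (f := L.arity) (Finset.mem_univ i)).trans (le_max_right _ _)) T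
    (fun x => (h2 x).trans (exists_congr fun y => by
      simp only [List.forall_mem_map, Atom.con_holds]))
  rw [List.length_map] at h3
  refine h3.weaken subset_rfl (Nat.mul_le_mul_left _ (Nat.pow_le_pow_left ?_ 3)) subset_rfl
  omega

theorem horn_large (hL : Horn L) (h : GenExists (fun _ _ => True) (1 / 8)) (k : ℕ) {e : ℝ}
    (he : 0 < e) : LogGen (fun m T => PTest L (m ^ k) m T) e := by
  obtain ⟨K, hK⟩ := horn_gets hL
  refine gen_large' (27 * K) (3 * (k + 1)) ?_ h he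
  filter_upwards [Filter.eventually_ge_atTop 1] with m hm T hT
  refine (hK m _ T hT).weaken subset_rfl ?_ subset_rfl
  have h1 : m + m ^ k + 1 ≤ 3 * m ^ (k + 1) := by
    have h2 : m ≤ m ^ (k + 1) := Nat.le_self_pow (by omega) m
    have h3 : m ^ k ≤ m ^ (k + 1) := Nat.pow_le_pow_right hm (by omega)
    omega
  calc K * (m + m ^ k + 1) ^ 3 ≤ K * (3 * m ^ (k + 1)) ^ 3 :=
        Nat.mul_le_mul_left _ (Nat.pow_le_pow_left h1 3)
    _ = 27 * K * m ^ (3 * (k + 1)) := by ring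

end Pool.Agent.MP_ca1109_lc.Csp
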