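import Pool.Agent.MP_ca1109_lc.Csp.E3

/-!
# Duality of constraint languages
-/

namespace Pool.Agent.MP_ca1109_lc.Csp

open Set Pool.Agent.H66 Pool.Agent.MP_ca1109_lc.Mpg
open Pool.Agent.MP_ca1109_lc.Post (dl)

variable {L : Lang} {s m k : ℕ} {T : (Fin m → Bool) → Bool}

/-- All tuples are complemented. -/
def Lang.dual (L : Lang) : Lang := ⟨L.card, L.arity, fun i x => L.rel i fun j => !(x j)⟩

theorem ptest_flip (h : PTest L s m T) : PTest L.dual s m (fun x => T fun i => !(x i)) := by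
  obtain ⟨a, Φ, h1, h2⟩ := h
  let ψ : Atom L (Fin m ⊕ Fin a) → Atom L.dual (Fin m ⊕ Fin a) := fun φ =>
    match φ with
    | .eq a b => .eq a b
    | .rel i w => .rel (L := L.dual) i w
  have hψ : ∀ (φ : Atom L (Fin m ⊕ Fin a)) (z : Fin m ⊕ Fin a → Bool),
      (ψ φ).Holds z ↔ φ.Holds fun v => !(z v) := by
    intro φ z
    cases φ with
    | eq a b =>
      show z a = z b ↔ (!(z a)) = !(z b)
      cases z a <;> cases z b <;> simp
    | rel i w => exact Iff.rfl
  refine ⟨a, Φ.map ψ, by rwa [List.length_map], fun x => ?_⟩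
  rw [h2]
  have e : ∀ y : Fin a → Bool, (fun v => !(Sum.elim x y v)) =
      Sum.elim (fun i => !(x i)) fun i => !(y i) := fun y => by
    funext v
    rcases v with v | v <;> rfl
  constructor
  · rintro ⟨y, hy⟩
    refine ⟨fun i => !(y i), fun φ' hφ' => ?_⟩
    obtain ⟨φ, hφ, rfl⟩ := List.mem_map.1 hφ'
    rw [hψ, e]
    simpa using hy φ hφ
  · rintro ⟨y, hy⟩
    refine ⟨fun i => !(y i), fun φ hφ => ?_⟩
    have := hy _ (List.mem_map.2 ⟨φ, hφ, rfl⟩)
    rwa [hψ, e] at this

theorem ptest_flip' (h : PTest L.dual s m T) : PTest L s m (fun x => T fun i => !(x i)) := by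
  obtain ⟨a, Φ, h1, h2⟩ := h
  let ψ : Atom L.dual (Fin m ⊕ Fin a) → Atom L (Fin m ⊕ Fin a) := fun φ =>
    match φ with
    | .eq a b => .eq a b
    | .rel i w => .rel (L := L) i w
  have hψ : ∀ (φ : Atom L.dual (Fin m ⊕ Fin a)) (z : Fin m ⊕ Fin a → Bool),
      (ψ φ).Holds z ↔ φ.Holds fun v => !(z v) := by
    intro φ z
    cases φ with
    | eq a b =>
      show z a = z b ↔ (!(z a)) = !(z b)
      cases z a <;> cases z b <;> simp
    | rel i w =>
      show L.rel i (fun j => z (w j)) = true ↔ L.rel i (fun j => !(!(z (w j)))) = true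
      simp
  refine ⟨a, Φ.map ψ, by rwa [List.length_map], fun x => ?_⟩
  rw [h2]
  have e : ∀ y : Fin a → Bool, (fun v => !(Sum.elim x y v)) =
      Sum.elim (fun i => !(x i)) fun i => !(y i) := fun y => by
    funext v
    rcases v with v | v <;> rfl
  constructor
  · rintro ⟨y, hy⟩
    refine ⟨fun i => !(y i), fun φ' hφ' => ?_⟩
    obtain ⟨φ, hφ, rfl⟩ := List.mem_map.1 hφ'
    rw [hψ, e]
    simpa using hy φ hφ
  · rintro ⟨y, hy⟩
    refine ⟨fun i => !(y i), fun φ hφ => ?_⟩
    have := hy _ (List.mem_map.2 ⟨φ, hφ, rfl⟩)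
    rwa [hψ, e] at this

theorem pol_dual {k : ℕ} {f : (Fin k → Bool) → Bool} (h : Pol L f) :
    Pol L.dual (fun x => !(f fun j => !(x j))) := by
  intro i t ht
  have h1 := h i (fun j c => !(t j c)) ht
  show L.rel i (fun c => !(!(f fun j => !(t j c)))) = true
  simpa using h1

theorem pol_dual' {k : ℕ} {f : (Fin k → Bool) → Bool} (h : Pol L.dual f) :
    Pol L (fun x => !(f fun j => !(x j))) := by
  intro i t ht
  have h1 := h i (fun j c => !(t j c)) (fun j => by
    show L.rel i (fun c => !(!(t j c))) = true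
    simpa using ht j)
  exact h1

theorem nu_dual {k : ℕ} {f : (Fin k → Bool) → Bool} (h : NearUnanimity f) :
    NearUnanimity (fun x : Fin k → Bool => !(f fun j => !(x j))) := by
  refine ⟨h.1, fun i a b => ?_⟩
  have e : (fun j => !(Function.update (fun _ => a) i b j)) =
      Function.update (fun _ => !a) i (!b) := by
    funext j
    by_cases hj : j = i
    · subst hj
      simp
    · rw [Function.update_of_ne hj, Function.update_of_ne hj]
  show (!(f fun j => !(Function.update (fun _ => a) i b j))) = a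
  rw [e, h.2]
  simp

theorem easy_dual (h : Easy L) : Easy L.dual := by
  rcases h with ⟨k, f, h1, h2⟩ | h
  · exact Or.inl ⟨k, _, nu_dual h1, pol_dual h2⟩
  · refine Or.inr ((pol_dual h).congr fun x => ?_)
    show (!((!(x 0) ^^ !(x 1)) ^^ !(x 2))) = ((x 0 ^^ x 1) ^^ x 2)
    cases x 0 <;> cases x 1 <;> cases x 2 <;> rfl

theorem easy_dual' (h : Easy L.dual) : Easy L := by
  rcases h with ⟨k, f, h1, h2⟩ | h
  · exact Or.inl ⟨k, _, nu_dual h1, pol_dual' h2⟩
  · refine Or.inr ((pol_dual' h).congr fun x => ?_)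
    show (!((!(x 0) ^^ !(x 1)) ^^ !(x 2))) = ((x 0 ^^ x 1) ^^ x 2)
    cases x 0 <;> cases x 1 <;> cases x 2 <;> rfl

theorem horn_dual (h : CoHorn L) : Horn L.dual := by
  refine (pol_dual h).congr fun x => ?_
  show (!(!(x 0) || !(x 1))) = (x 0 && x 1)
  cases x 0 <;> cases x 1 <;> rfl

/-- Complementing the output bits of a generator. -/
theorem logGen_flip {𝒯 𝒯' : ∀ n : ℕ, ((Fin n → Bool) → Bool) → Prop}
    (h𝒯 : ∀ n T, 𝒯' n T → 𝒯 n (fun x => T fun i => !(x i))) {e : ℝ} (h : LogGen 𝒯 e) :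
    LogGen 𝒯' e := by
  have h1 : LogGen (fun n T => 𝒯 n (fun x => !(T x))) e := by
    obtain ⟨D, G, hD, hG, hl, c, hc⟩ := h
    refine ⟨D, G, hD, hG, hl, c, ?_⟩
    filter_upwards [hc] with n hn
    refine ⟨hn.1, hn.2.1, fun T hT => ?_⟩
    have h2 := hn.2.2 _ hT
    rw [prob_not, prob_not, abs_sub_comm] at h2
    rw [show prob (fun s : Fin (D n) → Bool => T (bits n (G n (List.ofFn s)))) - prob T =
      1 - prob T - (1 - prob (fun s : Fin (D n) → Bool => T (bits n (G n (List.ofFn s))))) by ring]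
    exact h2
  refine Post.logGen_dual (fun n T hT => ?_) h1
  have h2 := h𝒯 n T hT
  have e1 : (fun x => !(dl T x)) = fun x : Fin n → Bool => T fun i => !(x i) := by
    funext x
    simp [dl]
  show 𝒯 n (fun x => !(dl T x))
  rwa [e1]

theorem small_flip {e : ℝ} (h : LogGen (Small L k) e) : LogGen (Small L.dual k) e :=
  logGen_flip (fun _ _ hT => hT.imp fun _ hs => ⟨hs.1, ptest_flip' hs.2⟩) h

theorem pow_flip {e : ℝ} (h : LogGen (fun m T => PTest L.dual (m ^ k) m T) e) :
    LogGen (fun m T => PTest L (m ^ k) m T) e :=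
  logGen_flip (fun _ _ hT => ptest_flip hT) h

end Pool.Agent.MP_ca1109_lc.Csp
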