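import Pool.Agent.MP_ca1109_lc.Csp.A
import Pool.Agent.MP_ca1109_lc.Csp.H0

/-!
# Nondeterministic circuits for the tests of a constraint language
-/

namespace Pool.Agent.MP_ca1109_lc.Csp

open Set Pool.Agent.H66 Pool.Agent.MP_ca1109_lc.Mpg

/-- `T x = true ↔ ∃ y, f (x, y) = true` for some `f` which is computed by `s` gates. -/
def NGets (s m : ℕ) (T : (Fin m → Bool) → Bool) : Prop :=
  ∃ (a : ℕ) (f : BF (m + a)), Gets true (bas (m + a)) s {f} ∧
    ∀ x, T x = true ↔ ∃ y : Fin a → Bool, f (Fin.append x y) = true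

/-- A function given by a derivation is constant or computed by a circuit. -/
theorem NGets.ntest {s m : ℕ} {T : (Fin m → Bool) → Bool} (h : NGets s m T) : NTest (s + 1) m T := by
  obtain ⟨a, f, hf, hT⟩ := h
  rcases Post.p11_circuit hf with (hc | hc) | ⟨C, hC1, hC2⟩
  · let w : Fin (m + 1) := Fin.last m
    let g1 : Gates (m + 1) 1 := Gates.snoc (.nil : Gates (m + 1) 0) (.not w)
    let g2 : Gates (m + 1) 2 := Gates.snoc g1 (.and w.castSucc (Fin.last (m + 1)))
    refine ⟨1, ⟨2, g2, Fin.last (m + 2)⟩, ?_, fun x => ?_⟩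
    · show 0 + 0 + 1 ≤ s + 1
      omega
    · rw [hT]
      constructor
      · rintro ⟨y, hy⟩
        rw [hc] at hy
        exact absurd hy Bool.false_ne_true
      · rintro ⟨y, hy⟩
        exfalso
        have h1 : g2.eval (Fin.append x y) (Fin.last (m + 2)) =
            (g1.eval (Fin.append x y) w.castSucc && g1.eval (Fin.append x y) (Fin.last (m + 1))) :=
          Gates.eval_snoc_last g1 _ _
        have h2 : g1.eval (Fin.append x y) w.castSucc = Fin.append x y w :=
          Gates.eval_snoc_castSucc _ _ _ _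
        have h3 : g1.eval (Fin.append x y) (Fin.last (m + 1)) = !(Fin.append x y w) :=
          Gates.eval_snoc_last _ _ _
        have hy' : g2.eval (Fin.append x y) (Fin.last (m + 2)) = true := hy
        rw [h1, h2, h3, Bool.and_not_self] at hy'
        exact Bool.false_ne_true hy'
  · rw [mem_singleton_iff] at hc
    refine ⟨1, ⟨0, .nil, Fin.last m⟩, Nat.zero_le _, fun x => ?_⟩
    rw [hT]
    constructor
    · intro _
      refine ⟨fun _ => true, ?_⟩
      show Fin.append x (fun _ => true) (Fin.natAdd m (0 : Fin 1)) = true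
      rw [Fin.append_right]
    · intro _
      exact ⟨fun _ => false, by rw [hc]⟩
  · exact ⟨a, C, hC1.trans (Nat.le_succ s), fun x => by simp only [hC2]; exact hT x⟩

/-- `circuit_gets` (`MonoCirc.lean`). -/
theorem NTest.nGets {s m : ℕ} {T : (Fin m → Bool) → Bool} (h : NTest s m T) : NGets s m T := by
  obtain ⟨a, C, hC, hT⟩ := h
  exact ⟨a, fun x => C.eval x, circuit_gets C hC, hT⟩

theorem H1_pull {M r s : ℕ} {f : BF r} (h : Gets true (bas r) s {f}) (w : Fin r → Fin M) :
    Gets true (bas M) s {fun z => f (fun j => z (w j))} := by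
  have h1 := h.pull (fun z : Fin M → Bool => fun j => z (w j))
  refine h1.weaken ?_ le_rfl ?_
  · rintro _ ⟨g, hg, rfl⟩
    rcases hg with ⟨j, rfl⟩ | (hg | hg)
    · exact inp_mem_bas (w j)
    · rw [hg]
      exact false_mem_bas
    · rw [mem_singleton_iff.1 hg]
      exact true_mem_bas
  · rw [image_singleton]

/-- More input bits. -/
theorem NGets.res {s m N : ℕ} {T : (Fin m → Bool) → Bool} (h : NGets s m T) (hN : m ≤ N) :
    NGets s N (fun x => T (fun i => x (Fin.castLE hN i))) := by
  obtain ⟨a, f, hf, hT⟩ := h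
  refine ⟨a, fun z => f (fun j => z (Fin.addCases (fun i => Fin.castAdd a (Fin.castLE hN i))
    (fun i => Fin.natAdd N i) j)), H1_pull hf _, fun x => ?_⟩
  rw [hT]
  refine exists_congr fun y => ?_
  have : (fun j : Fin (m + a) => Fin.append x y (Fin.addCases (fun i => Fin.castAdd a (Fin.castLE hN i))
      (fun i => Fin.natAdd N i) j)) = Fin.append (fun i => x (Fin.castLE hN i)) y := by
    funext j
    refine Fin.addCases (fun i => ?_) (fun i => ?_) j
    · rw [Fin.addCases_left, Fin.append_left, Fin.append_left]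
    · rw [Fin.addCases_right, Fin.append_right, Fin.append_right]
  beta_reduce
  rw [this]

/-- The value of an atomic formula. -/
def H1_val {L : Lang} {V : Type} (x : V → Bool) : Atom L V → Bool
  | .eq a b => decide (x a = x b)
  | .rel i w => L.rel i (fun j => x (w j))

theorem H1_val_iff {L : Lang} {V : Type} (x : V → Bool) (φ : Atom L V) :
    H1_val x φ = true ↔ φ.Holds x := by
  cases φ with
  | eq a b => exact decide_eq_true_iff
  | rel i w => exact Iff.rfl

/-- Tests of a constraint language are computed by nondeterministic circuits. -/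
theorem ptest_nGets (L : Lang) : ∃ K, ∀ (s m : ℕ) (T : (Fin m → Bool) → Bool), PTest L s m T →
    NGets (K * s) m T := by
  classical
  have hch : ∀ i, ∃ K, Gets true (bas (L.arity i)) K {L.rel i} := fun i => Post.gets_any (L.rel i)
  choose Ki hKi using hch
  obtain ⟨K2, hK2⟩ := Post.gets_any (fun x : Fin 2 → Bool => decide (x 0 = x 1))
  obtain ⟨K, hK⟩ : ∃ K, K = K2 + Finset.univ.sup Ki := ⟨_, rfl⟩
  have hKr : ∀ i, Gets true (bas (L.arity i)) K {L.rel i} := fun i =>
    (hKi i).weaken subset_rfl ((Finset.le_sup (Finset.mem_univ i)).trans (by omega)) subset_rfl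
  have hKe : Gets true (bas 2) K {fun x : Fin 2 → Bool => decide (x 0 = x 1)} :=
    hK2.weaken subset_rfl (by omega) subset_rfl
  have atom : ∀ (M : ℕ) (V : Type) (e : V → Fin M) (φ : Atom L V),
      Gets true (bas M) K {fun z => H1_val (fun v => z (e v)) φ} := by
    intro M V e φ
    cases φ with
    | eq a b =>
      have h1 := H1_pull hKe ![e a, e b]
      exact h1
    | rel i w => exact H1_pull (hKr i) (fun j => e (w j))
  have conj : ∀ (M : ℕ) (V : Type) (e : V → Fin M) (Φ : List (Atom L V)),
      Gets true (bas M) ((K + 1) * Φ.length) {fun z => Φ.all fun φ => H1_val (fun v => z (e v)) φ} := by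
    intro M V e Φ
    induction Φ with
    | nil => exact Gets.of_subset (by simpa using true_mem_bas)
    | cons φ Φ ih =>
      have h1 := (atom M V e φ).union ih
      have h2 := h1.and (f := fun z : Fin M → Bool => H1_val (fun v => z (e v)) φ)
        (g := fun z : Fin M → Bool => Φ.all fun φ => H1_val (fun v => z (e v)) φ)
        (Or.inl (mem_singleton _)) (Or.inr (mem_singleton _))
      refine h2.weaken subset_rfl (by rw [List.length_cons]; apply le_of_eq; ring) ?_
      rw [singleton_subset_iff]
      exact mem_insert _ _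
  refine ⟨K + 1, ?_⟩
  rintro s m T ⟨a, Φ, hΦ, hT⟩
  refine ⟨a, fun z => Φ.all fun φ => H1_val (fun v => z (Sum.elim (Fin.castAdd a) (Fin.natAdd m) v)) φ,
    (conj (m + a) _ (Sum.elim (Fin.castAdd a) (Fin.natAdd m)) Φ).weaken subset_rfl
      (Nat.mul_le_mul_left _ hΦ) subset_rfl, fun x => ?_⟩
  rw [hT]
  refine exists_congr fun y => ?_
  have : (fun v : Fin m ⊕ Fin a => Fin.append x y (Sum.elim (Fin.castAdd a) (Fin.natAdd m) v)) =
      Sum.elim x y := by
    funext v
    rcases v with v | v
    · simp only [Sum.elim_inl, Fin.append_left]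
    · simp only [Sum.elim_inr, Fin.append_right]
  beta_reduce
  rw [this, List.all_eq_true]
  exact forall₂_congr fun φ _ => (H1_val_iff _ φ).symm

theorem H1_mono {s s' m : ℕ} {T : (Fin m → Bool) → Bool} (h : NTest s m T) (hs : s ≤ s') :
    NTest s' m T := by
  obtain ⟨a, C, hC, hT⟩ := h
  exact ⟨a, C, hC.trans hs, hT⟩

/-- Generators against nondeterministic circuits of linear size fool the tests of size `m ^ k`. -/
theorem nd_gen (L : Lang) (k : ℕ) {e : ℝ} (h : LogGen (fun m T => NTest m m T) e) :
    LogGen (fun m T => PTest L (m ^ k) m T) e := by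
  obtain ⟨K, hK⟩ := ptest_nGets L
  refine logGen_shrink (𝒯 := fun m T => NTest m m T) (e := e) (Post.p11_N (K + 1) k)
    (Post.p11_poly (K + 1) k) (Filter.tendsto_atTop_mono (Post.p11_le (K + 1) k) Filter.tendsto_id)
    (2 * k + 3) ?_ (fun m l => (List.range m).map fun i => l.getD i false) ?_ ?_ ?_ h
  · filter_upwards [Filter.eventually_ge_atTop 2, Filter.eventually_ge_atTop (K + 1 + 1)] with m h1 h2
    exact Post.p11_pow (K + 1) k m h1 h2
  · exact PolyTime.map (f := fun (p : ℕ × List Bool) (i : ℕ) => p.2.getD i false)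
      (PolyTime.range PolyTime.fst) (PolyTime.getD PolyTime.snd (PolyTime.snd.comp PolyTime.fst) false)
  · intro m l
    rw [List.length_map, List.length_range]
  · filter_upwards [Filter.eventually_ge_atTop 1] with m hm
    intro T hT A _ _ l _ hfool
    have h1 := ((hK (m ^ k) m T hT).res (Post.p11_le (K + 1) k m)).ntest
    have h2 : K * m ^ k + 1 ≤ Post.p11_N (K + 1) k m := by
      have h3 : 1 ≤ m ^ k := Nat.one_le_pow _ _ hm
      calc K * m ^ k + 1 ≤ K * m ^ k + m ^ k := by omega
        _ = (K + 1) * m ^ k := by ring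
        _ ≤ _ := Post.p11_le' (K + 1) k m
    have h4 := hfool _ (H1_mono h1 h2)
    have e2 : prob T = prob (fun x : Fin (Post.p11_N (K + 1) k m) → Bool =>
        T (fun i : Fin m => x (Fin.castLE (Post.p11_le (K + 1) k m) i))) :=
      (prob_marginal (fun i : Fin m => Fin.castLE (Post.p11_le (K + 1) k m) i)
        (Fin.castLE_injective _) T).symm
    have e1 : ∀ a, bits m ((List.range m).map fun i => (l a).getD i false) =
        fun i => bits (Post.p11_N (K + 1) k m) (l a) (Fin.castLE (Post.p11_le (K + 1) k m) i) := by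
      intro a
      funext i
      unfold bits
      rw [List.getD_eq_getElem?_getD, List.getElem?_map, List.getElem?_range i.2]
      rfl
    simp only [e1]
    rw [e2]
    exact h4

end Pool.Agent.MP_ca1109_lc.Csp
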