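import Pool.Agent.MP_ca1109_lc.Csp.A
import Pool.Agent.MP_ca1109_lc.Csp.H0

/-!
# Nondeterministic circuits as primitive positive formulas
-/

namespace Pool.Agent.MP_ca1109_lc.Csp

open Set Pool.Agent.H66 Pool.Agent.MP_ca1109_lc.Mpg

/-- All relations which contain the two constant tuples and are invariant under complementation are
definable with at most `K` atoms, if they have at most five variables. -/
def Rich (L : Lang) (K : ℕ) : Prop :=
  ∀ (r : ℕ), r ≤ 5 → ∀ R : (Fin r → Bool) → Bool, R (fun _ => false) = true →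
    (∀ x, R (fun i => !(x i)) = R x) → PDef L (Fin r) K (fun x => R x = true)

/-- One AND or OR gate (`op`): the new wire is a new variable. -/
private theorem H3_step {L : Lang} {K m n : ℕ} (hL : Rich L K) {V : Type} (ι : Fin m → V) (u v : V)
    (C : Gates m n) (g : Gate (m + n)) (op : Bool → Bool → Bool) (i j : Fin (m + n))
    (hg : ∀ z, g.eval z = op (z i) (z j)) (hc : g.cost = 1)
    (ih : ∃ (U : Type) (_ : Fintype U) (Q : (V ⊕ U → Bool) → Prop) (b : Fin (m + n) → V ⊕ U)
      (σ : Fin (m + n) → Bool),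
      PDef L (V ⊕ U) (K * C.size) Q ∧
      (∀ x : V → Bool, ∃ y : U → Bool, Q (Sum.elim x y)) ∧
      ∀ (x : V → Bool) (y : U → Bool), Q (Sum.elim x y) → x u ≠ x v →
        ∀ w, ((Sum.elim x y (b w) ^^ x u) ^^ σ w) = C.eval (fun i => x (ι i) ^^ x u) w) :
    ∃ (U : Type) (_ : Fintype U) (Q : (V ⊕ U → Bool) → Prop) (b : Fin (m + (n + 1)) → V ⊕ U)
      (σ : Fin (m + (n + 1)) → Bool),
      PDef L (V ⊕ U) (K * (Gates.snoc C g).size) Q ∧
      (∀ x : V → Bool, ∃ y : U → Bool, Q (Sum.elim x y)) ∧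
      ∀ (x : V → Bool) (y : U → Bool), Q (Sum.elim x y) → x u ≠ x v →
        ∀ w, ((Sum.elim x y (b w) ^^ x u) ^^ σ w) =
          (Gates.snoc C g).eval (fun i => x (ι i) ^^ x u) w := by
  obtain ⟨U, hU, Q, b, σ, h1, h2, h3⟩ := ih
  let old : V ⊕ U → V ⊕ (U ⊕ Unit) := Sum.map id Sum.inl
  have hold : ∀ (x : V → Bool) (y : U ⊕ Unit → Bool) (p : V ⊕ U),
      Sum.elim x y (old p) = Sum.elim x (fun q => y (Sum.inl q)) p := by
    intro x y p
    rcases p with p | p <;> rfl
  let R : (Fin 5 → Bool) → Bool := fun z => decide (z 0 = z 1) ||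
    decide ((z 4 ^^ z 0) = op ((z 2 ^^ z 0) ^^ σ i) ((z 3 ^^ z 0) ^^ σ j))
  have hR0 : R (fun _ => false) = true := by simp [R]
  have hR1 : ∀ x, R (fun i => !(x i)) = R x := by
    intro x
    have e1 : ∀ a b : Bool, ((!a) ^^ (!b)) = (a ^^ b) := by decide
    have e2 : ∀ a b : Bool, decide ((!a) = (!b)) = decide (a = b) := by decide
    simp only [R, e1, e2]
  let f : Fin 5 → V ⊕ (U ⊕ Unit) :=
    ![Sum.inl u, Sum.inl v, old (b i), old (b j), Sum.inr (Sum.inr ())]
  have hRP := (hL 5 le_rfl R hR0 hR1).rename f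
  have hQP := (h1.rename old).and hRP
  have hRf : ∀ z : V ⊕ (U ⊕ Unit) → Bool, R (fun k => z (f k)) = true ↔
      (z (Sum.inl u) = z (Sum.inl v) ∨ (z (Sum.inr (Sum.inr ())) ^^ z (Sum.inl u)) =
        op ((z (old (b i)) ^^ z (Sum.inl u)) ^^ σ i) ((z (old (b j)) ^^ z (Sum.inl u)) ^^ σ j)) := by
    intro z
    simp only [R, f, Bool.or_eq_true, decide_eq_true_eq]
    rfl
  refine ⟨U ⊕ Unit, inferInstance, _,
    Fin.snoc (α := fun _ => V ⊕ (U ⊕ Unit)) (fun w => old (b w)) (Sum.inr (Sum.inr ())),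
    Fin.snoc (α := fun _ => Bool) σ false, hQP.mono (le_of_eq ?_), ?_, ?_⟩
  · show K * C.size + K = K * (C.size + g.cost)
    rw [hc]; ring
  · intro x
    obtain ⟨y, hy⟩ := h2 x
    refine ⟨Sum.elim y (fun _ => op ((Sum.elim x y (b i) ^^ x u) ^^ σ i)
      ((Sum.elim x y (b j) ^^ x u) ^^ σ j) ^^ x u), ?_, ?_⟩
    · have : (fun p => Sum.elim x (Sum.elim y (fun _ => op ((Sum.elim x y (b i) ^^ x u) ^^ σ i)
          ((Sum.elim x y (b j) ^^ x u) ^^ σ j) ^^ x u)) (old p)) = Sum.elim x y := by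
        funext p
        rw [hold]
        rfl
      rw [this]
      exact hy
    · rw [hRf]
      right
      rw [hold, hold]
      simp only [Sum.elim_inl, Sum.elim_inr]
      rw [Bool.xor_assoc, Bool.xor_self, Bool.xor_false]
  · intro x y hy huv w
    obtain ⟨hy1, hy2⟩ := hy
    have e1 : (fun p => Sum.elim x y (old p)) = Sum.elim x (fun q => y (Sum.inl q)) := by
      funext p
      exact hold x y p
    rw [e1] at hy1
    have h4 := h3 x _ hy1 huv
    rw [hRf] at hy2
    simp only [Sum.elim_inl, Sum.elim_inr, hold] at hy2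
    have hy3 := hy2.resolve_left huv
    rw [h4 i, h4 j] at hy3
    refine Fin.lastCases (motive := fun w : Fin (m + n + 1) =>
      ((Sum.elim x y (Fin.snoc (α := fun _ => V ⊕ (U ⊕ Unit)) (fun w => old (b w))
        (Sum.inr (Sum.inr ())) w) ^^ x u) ^^ Fin.snoc (α := fun _ => Bool) σ false w) =
          (Gates.snoc C g).eval (fun i => x (ι i) ^^ x u) w) ?_ (fun w => ?_) w
    · refine Eq.trans ?_ (Gates.eval_snoc_last C g _).symm
      rw [hg, Fin.snoc_last, Fin.snoc_last, Bool.xor_false]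
      exact hy3
    · rw [Fin.snoc_castSucc, Fin.snoc_castSucc, hold, h4 w]
      exact (Gates.eval_snoc_castSucc C g _ w).symm

/-- The wires of a sequence of gates, up to signs and up to the value of `u`, with one group of
at most `K` atoms for each AND and OR gate. -/
theorem gates_pdef {L : Lang} {K m n : ℕ} (hL : Rich L K) {V : Type} (ι : Fin m → V) (u v : V)
    (C : Gates m n) :
    ∃ (U : Type) (_ : Fintype U) (Q : (V ⊕ U → Bool) → Prop) (b : Fin (m + n) → V ⊕ U)
      (σ : Fin (m + n) → Bool),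
      PDef L (V ⊕ U) (K * C.size) Q ∧
      (∀ x : V → Bool, ∃ y : U → Bool, Q (Sum.elim x y)) ∧
      ∀ (x : V → Bool) (y : U → Bool), Q (Sum.elim x y) → x u ≠ x v →
        ∀ w, ((Sum.elim x y (b w) ^^ x u) ^^ σ w) = C.eval (fun i => x (ι i) ^^ x u) w := by
  induction C with
  | nil =>
    refine ⟨Empty, inferInstance, fun _ => True, fun w => Sum.inl (ι w), fun _ => false,
      PDef.true.mono (Nat.zero_le _), fun x => ⟨fun e => e.elim, trivial⟩, ?_⟩
    intro x y _ _ w
    rw [Bool.xor_false]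
    rfl
  | @snoc n C g ih =>
    cases g with
    | and i j => exact H3_step hL ι u v C (.and i j) (· && ·) i j (fun _ => rfl) rfl ih
    | or i j => exact H3_step hL ι u v C (.or i j) (· || ·) i j (fun _ => rfl) rfl ih
    | not i =>
      obtain ⟨U, hU, Q, b, σ, h1, h2, h3⟩ := ih
      refine ⟨U, hU, Q, Fin.snoc (α := fun _ => V ⊕ U) b (b i),
        Fin.snoc (α := fun _ => Bool) σ (!(σ i)), h1, h2, ?_⟩
      intro x y hy huv w
      have h4 := h3 x y hy huv
      refine Fin.lastCases (motive := fun w : Fin (m + n + 1) =>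
        ((Sum.elim x y (Fin.snoc (α := fun _ => V ⊕ U) b (b i) w) ^^ x u) ^^
          Fin.snoc (α := fun _ => Bool) σ (!(σ i)) w) =
            (Gates.snoc C (.not i)).eval (fun i => x (ι i) ^^ x u) w) ?_ (fun w => ?_) w
      · refine Eq.trans ?_ (Gates.eval_snoc_last C _ _).symm
        rw [Gate.eval, Fin.snoc_last, Fin.snoc_last, ← h4 i]
        have e1 : ∀ a b : Bool, (a ^^ !b) = !(a ^^ b) := by decide
        exact e1 _ _
      · rw [Fin.snoc_castSucc, Fin.snoc_castSucc, h4 w]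
        exact (Gates.eval_snoc_castSucc C _ _ w).symm

/-- The test `[w is constant] ∨ T (x ⊕ w₀)` of the `2 m` bits `x`, `w`. -/
theorem ntest_pdef {L : Lang} {K : ℕ} (hL : Rich L K) {m s : ℕ} (hm : 0 < m)
    {T : (Fin m → Bool) → Bool} (hT : NTest s m T) :
    PDef L (Fin m ⊕ Fin m) (m * (K * (s + 1))) (fun z =>
      (∀ j, z (Sum.inr ⟨0, hm⟩) = z (Sum.inr j)) ∨
        T (fun i => z (Sum.inl i) ^^ z (Sum.inr ⟨0, hm⟩)) = true) := by
  obtain ⟨a, C, hC, hT⟩ := hT
  have key : ∀ j : Fin m, PDef L (Fin m ⊕ Fin m) (K * (s + 1)) (fun z =>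
      z (Sum.inr ⟨0, hm⟩) = z (Sum.inr j) ∨
        T (fun i => z (Sum.inl i) ^^ z (Sum.inr ⟨0, hm⟩)) = true) := by
    intro j
    let ι : Fin (m + a) → (Fin m ⊕ Fin m) ⊕ Fin a :=
      Fin.addCases (fun i => Sum.inl (Sum.inl i)) (fun i => Sum.inr i)
    obtain ⟨U, hU, Q, b, σ, h1, h2, h3⟩ := gates_pdef hL ι (Sum.inl (Sum.inr ⟨0, hm⟩))
      (Sum.inl (Sum.inr j)) C.gates
    let R : (Fin 3 → Bool) → Bool := fun z => decide (z 0 = z 1) || ((z 2 ^^ z 0) ^^ σ C.out)
    have hR0 : R (fun _ => false) = true := by simp [R]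
    have hR1 : ∀ x, R (fun i => !(x i)) = R x := by
      intro x
      have e1 : ∀ a b : Bool, ((!a) ^^ (!b)) = (a ^^ b) := by decide
      have e2 : ∀ a b : Bool, decide ((!a) = (!b)) = decide (a = b) := by decide
      simp only [R, e1, e2]
    let f : Fin 3 → ((Fin m ⊕ Fin m) ⊕ Fin a) ⊕ U :=
      ![Sum.inl (Sum.inl (Sum.inr ⟨0, hm⟩)), Sum.inl (Sum.inl (Sum.inr j)), b C.out]
    have hRP := (hL 3 (by norm_num) R hR0 hR1).rename f
    have hRf : ∀ z : ((Fin m ⊕ Fin m) ⊕ Fin a) ⊕ U → Bool, R (fun k => z (f k)) = true ↔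
        (z (Sum.inl (Sum.inl (Sum.inr ⟨0, hm⟩))) = z (Sum.inl (Sum.inl (Sum.inr j))) ∨
          ((z (b C.out) ^^ z (Sum.inl (Sum.inl (Sum.inr ⟨0, hm⟩)))) ^^ σ C.out) = true) := by
      intro z
      simp only [R, f, Bool.or_eq_true, decide_eq_true_eq]
      rfl
    have h4 := (h1.and hRP).ex.ex
    refine (h4.mono ?_).congr fun z => ?_
    · have : K * C.gates.size + K = K * (C.gates.size + 1) := by ring
      rw [this]
      exact Nat.mul_le_mul_left _ (Nat.add_le_add_right hC 1)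
    · have e3 : ∀ t : Fin a → Bool, (fun i => Sum.elim z t (ι i) ^^ z (Sum.inr ⟨0, hm⟩)) =
          Fin.append (fun i => z (Sum.inl i) ^^ z (Sum.inr ⟨0, hm⟩))
            (fun i => t i ^^ z (Sum.inr ⟨0, hm⟩)) := by
        intro t
        funext i
        refine Fin.addCases (fun i => ?_) (fun i => ?_) i
        · simp only [ι, Fin.addCases_left, Fin.append_left, Sum.elim_inl]
        · simp only [ι, Fin.addCases_right, Fin.append_right, Sum.elim_inr]
      constructor
      · rintro ⟨t, y, hQ, hR⟩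
        rw [hRf] at hR
        by_cases huv : z (Sum.inr ⟨0, hm⟩) = z (Sum.inr j)
        · exact Or.inl huv
        · right
          have hR' := hR.resolve_left huv
          have h5 := h3 _ y hQ huv C.out
          rw [hT]
          refine ⟨fun i => t i ^^ z (Sum.inr ⟨0, hm⟩), ?_⟩
          rw [← e3 t]
          exact h5.symm.trans hR'
      · intro h
        by_cases huv : z (Sum.inr ⟨0, hm⟩) = z (Sum.inr j)
        · obtain ⟨y, hy⟩ := h2 (Sum.elim z (fun _ => false))
          refine ⟨fun _ => false, y, hy, ?_⟩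
          rw [hRf]
          exact Or.inl huv
        · have h' := h.resolve_left huv
          rw [hT] at h'
          obtain ⟨y0, hy0⟩ := h'
          obtain ⟨y, hy⟩ := h2 (Sum.elim z (fun i => y0 i ^^ z (Sum.inr ⟨0, hm⟩)))
          refine ⟨fun i => y0 i ^^ z (Sum.inr ⟨0, hm⟩), y, hy, ?_⟩
          rw [hRf]
          right
          have h5 := h3 _ y hy huv C.out
          refine h5.trans ?_
          have e4 : (fun i : Fin a => (y0 i ^^ z (Sum.inr ⟨0, hm⟩)) ^^ z (Sum.inr ⟨0, hm⟩)) = y0 := by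
            funext i
            rw [Bool.xor_assoc, Bool.xor_self, Bool.xor_false]
          have e5 := e3 (fun i => y0 i ^^ z (Sum.inr ⟨0, hm⟩))
          rw [e4] at e5
          have e6 : C.gates.eval (fun i => Sum.elim z (fun i => y0 i ^^ z (Sum.inr ⟨0, hm⟩)) (ι i) ^^
              z (Sum.inr ⟨0, hm⟩)) C.out = true := by
            rw [e5]
            exact hy0
          exact e6
  have h5 := PDef.all (L := L) (fun (j : Fin m) (z : Fin m ⊕ Fin m → Bool) =>
    z (Sum.inr ⟨0, hm⟩) = z (Sum.inr j) ∨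
      T (fun i => z (Sum.inl i) ^^ z (Sum.inr ⟨0, hm⟩)) = true) key
  refine (h5.mono (le_of_eq (by rw [Fintype.card_fin]))).congr fun z => ?_
  exact forall_or_right

end Pool.Agent.MP_ca1109_lc.Csp
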