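import Pool.Agent.MP_ca1109_lc.Csp.C1
import Pool.Agent.MP_ca1109_lc.Csp.E2
import Pool.Agent.MP_ca1109_lc.Csp.H1
import Pool.Agent.MP_ca1109_lc.Csp.H3

/-!
# Languages whose polymorphisms are essentially unary
-/

namespace Pool.Agent.MP_ca1109_lc.Csp

open Set Pool.Agent.H66 Pool.Agent.MP_ca1109_lc.Mpg

variable {L : Lang}

theorem rich_of (hU : ∀ (k : ℕ) (f : (Fin k → Bool) → Bool), Pol L f → Unary f) :
    ∃ K, Rich L K := by
  classical
  have h1 : ∀ (r : ℕ) (R : (Fin r → Bool) → Bool), ∃ s, R (fun _ => false) = true →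
      (∀ x, R (fun i => !(x i)) = R x) → PDef L (Fin r) s (fun x => R x = true) := by
    intro r R
    by_cases h : R (fun _ => false) = true ∧ ∀ x, R (fun i => !(x i)) = R x
    · obtain ⟨h0, hn⟩ := h
      obtain ⟨s, hs⟩ := inv_pol (L := L) R (by
        intro k f hf t ht
        rcases hU k f hf with ⟨c, hc⟩ | ⟨i, c, hc⟩
        · have e : (fun c => f fun j => t j c) = fun _ => c := funext fun _ => hc _
          rw [e]
          cases c
          · exact h0
          · have := hn fun _ => false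
            rw [h0] at this
            exact this
        · have e : (fun c => f fun j => t j c) = fun l => (t i l ^^ c) := funext fun _ => hc _
          rw [e]
          cases c
          · simpa using ht i
          · have := hn (t i)
            rw [ht i] at this
            simpa using this)
      exact ⟨s, fun _ _ => hs⟩
    · exact ⟨0, fun h0 hn => absurd ⟨h0, hn⟩ h⟩
  choose s hs using h1
  refine ⟨(Finset.range 6).sup fun r => Finset.univ.sup fun R => s r R, fun r hr R h0 hn => ?_⟩
  refine (hs r R h0 hn).mono ?_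
  refine le_trans (Finset.le_sup (f := fun R => s r R) (Finset.mem_univ R)) ?_
  exact Finset.le_sup (f := fun r => Finset.univ.sup fun R => s r R)
    (Finset.mem_range.2 (by omega))

/-- The postprocessing: the first `m` bits plus the bit `m`. -/
def flp (m : ℕ) (l : List Bool) : List Bool :=
  (List.range m).map fun i => if l.getD m false = true then !(l.getD i false) else l.getD i false

theorem flp_poly : PolyTime fun p : ℕ × List Bool => flp p.1 p.2 := by
  have h1 : PolyTime fun q : (ℕ × List Bool) × ℕ => q.1.2.getD q.2 false :=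
    PolyTime.getD PolyTime.snd (PolyTime.snd.comp PolyTime.fst) false
  have h2 : PolyTime fun q : (ℕ × List Bool) × ℕ => q.1.2.getD q.1.1 false :=
    PolyTime.getD (PolyTime.fst.comp PolyTime.fst) (PolyTime.snd.comp PolyTime.fst) false
  exact PolyTime.map (f := fun (p : ℕ × List Bool) (i : ℕ) =>
      if p.2.getD p.1 false = true then !(p.2.getD i false) else p.2.getD i false)
    (PolyTime.range PolyTime.fst) (PolyTime.ite h2 (PolyTime.not h1) h1)

theorem flp_bits {m N : ℕ} (h : 2 * m ≤ N) (hm : 0 < m) (l : List Bool) :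
    bits m (flp m l) = fun i => (bits N l (Fin.castLE (by omega) i) ^^ bits N l ⟨m, by omega⟩) := by
  funext i
  unfold bits flp
  rw [List.getD_eq_getElem?_getD, List.getElem?_map, List.getElem?_range i.2]
  show (if l.getD m false = true then !(l.getD i false) else l.getD i false) =
    (l.getD i false ^^ l.getD m false)
  cases l.getD m false <;> cases l.getD i false <;> rfl

/-- The bits `m, …, 2 m - 1` are equal. -/
def eqs (m N : ℕ) (h : 2 * m ≤ N) (hm : 0 < m) (z : Fin N → Bool) : Bool :=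
  decide (∀ j : Fin m, z ⟨m, by omega⟩ = z ⟨m + j, by omega⟩)

theorem prob_eqs {m N : ℕ} (h : 2 * m ≤ N) (hm : 0 < m) :
    prob (eqs m N h hm) = 2 * (1 / 2) ^ m := by
  have h1 : prob (eqs m N h hm) =
      prob (fun y : Fin m → Bool => decide (∀ j, y ⟨0, hm⟩ = y j)) := by
    have h2 := prob_marginal (fun j : Fin m => (⟨m + j, by omega⟩ : Fin N)) (fun i j h => by
      apply Fin.ext
      have := congrArg Fin.val h
      simp only at this
      omega) (fun y : Fin m → Bool => decide (∀ j, y ⟨0, hm⟩ = y j))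
    rw [← h2]
    rfl
  have h12 : (Finset.univ.filter fun y : Fin m → Bool =>
      (decide (∀ j, y ⟨0, hm⟩ = y j)) = true) = {(fun _ => false), (fun _ => true)} := by
    ext y
    simp only [Finset.mem_filter, Finset.mem_univ, true_and, Finset.mem_singleton,
      decide_eq_true_eq, Finset.mem_insert]
    constructor
    · intro hy
      cases h0 : y ⟨0, hm⟩
      · exact Or.inl (funext fun j => by rw [← hy j, h0])
      · exact Or.inr (funext fun j => by rw [← hy j, h0])
    · rintro (rfl | rfl) <;> simp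
  have hne : (fun _ : Fin m => false) ≠ fun _ => true := fun h => by
    have := congrFun h ⟨0, hm⟩
    simp at this
  rw [h1, prob, h12, Finset.card_pair hne, Fintype.card_fun, Fintype.card_bool, Fintype.card_fin]
  push_cast
  rw [div_pow, one_pow]
  ring

theorem prob_flp {m N : ℕ} (h : 2 * m ≤ N) (hm : 0 < m) (T : (Fin m → Bool) → Bool) :
    prob (fun z : Fin N → Bool =>
      T fun i => (z (Fin.castLE (by omega) i) ^^ z ⟨m, by omega⟩)) = prob T := by
  let φ : (Fin N → Bool) → (Fin N → Bool) := fun z i =>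
    if (i : ℕ) < m then (z i ^^ z ⟨m, by omega⟩) else z i
  have hφ : Function.Involutive φ := by
    intro z
    funext i
    show (if (i : ℕ) < m then ((if (i : ℕ) < m then (z i ^^ z ⟨m, by omega⟩) else z i) ^^
      (if m < m then (z ⟨m, by omega⟩ ^^ z ⟨m, by omega⟩) else z ⟨m, by omega⟩)) else
        (if (i : ℕ) < m then (z i ^^ z ⟨m, by omega⟩) else z i)) = z i
    rw [if_neg (lt_irrefl m)]
    split_ifs
    · cases z i <;> cases z ⟨m, by omega⟩ <;> rfl
    · rfl
  have h1 := prob_equiv hφ.toPerm (fun z : Fin N → Bool => T fun i => z (Fin.castLE (by omega) i))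
  have h2 := Post.prob_res (show m ≤ N by omega) T
  refine Eq.trans ?_ (h1.trans h2)
  congr 1
  funext z
  congr 1
  funext i
  show _ = if (i : ℕ) < m then (z (Fin.castLE (by omega) i) ^^ z ⟨m, by omega⟩) else
    z (Fin.castLE (by omega) i)
  rw [if_pos i.2]

theorem ptest_flp {K m s N : ℕ} (hL : Rich L K) (h : 2 * m ≤ N) (hm : 0 < m)
    {T : (Fin m → Bool) → Bool} (hT : NTest s m T) :
    PTest L (m * (K * (s + 1))) N (fun z => eqs m N h hm z ||
      T fun i => (z (Fin.castLE (by omega) i) ^^ z ⟨m, by omega⟩)) := by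
  rw [ptest_iff]
  refine ((ntest_pdef hL hm hT).rename (Sum.elim (fun i : Fin m => (Fin.castLE (by omega) i : Fin N))
    fun j : Fin m => (⟨m + j, by omega⟩ : Fin N))).congr fun z => ?_
  rw [Bool.or_eq_true, eqs, decide_eq_true_eq]
  exact Iff.rfl

theorem ntest_false (m : ℕ) : NTest 1 m (fun _ => false) :=
  NGets.ntest (s := 0) ⟨0, fun _ => false, Gets.of_subset (by
    rw [singleton_subset_iff]
    exact false_mem_bas), fun x => by simp⟩

theorem NTest.mono {s s' m : ℕ} {T : (Fin m → Bool) → Bool} (h : NTest s m T) (hs : s ≤ s') :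
    NTest s' m T := by
  obtain ⟨a, C, h1, h2⟩ := h
  exact ⟨a, C, h1.trans hs, h2⟩

theorem PTest.mono {s s' m : ℕ} {T : (Fin m → Bool) → Bool} (h : PTest L s m T) (hs : s ≤ s') :
    PTest L s' m T := by
  obtain ⟨a, Φ, h1, h2⟩ := h
  exact ⟨a, Φ, h1.trans hs, h2⟩

/-- The postprocessed generator against the tests `T` for which the guarded test is small. -/
theorem flp_key {K k m : ℕ} {e : ℝ} (hL : Rich L K) (hN1 : 2 * m ≤ ((K + 1) * (m + 1) ^ 2) ^ k)
    (hm : 0 < m) {A : Type} [Fintype A] [Nonempty A] (l : A → List Bool)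
    (hG : ∀ T', Small L k (((K + 1) * (m + 1) ^ 2) ^ k) T' →
      |prob (fun a => T' (bits (((K + 1) * (m + 1) ^ 2) ^ k) (l a))) - prob T'| ≤ e)
    {T : (Fin m → Bool) → Bool} (hT : NTest m m T) :
    prob (fun a => T (bits m (flp m (l a)))) ≤ prob T + e + 2 * (1 / 2) ^ m ∧
      prob T ≤ prob (fun a => T (bits m (flp m (l a)))) + 2 * e + 2 * (1 / 2) ^ m := by
  have key : ∀ T' : (Fin m → Bool) → Bool, NTest m m T' →
      |prob (fun a => eqs m _ hN1 hm (bits (((K + 1) * (m + 1) ^ 2) ^ k) (l a)) ||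
        T' (bits m (flp m (l a)))) - prob (fun z => eqs m _ hN1 hm z ||
          T' fun i => (z (Fin.castLE (by omega) i) ^^ z ⟨m, by omega⟩))| ≤ e := by
    intro T' hT'
    have h1 := ptest_flp hL hN1 hm hT'
    have h2 := hG _ ⟨m * (K * (m + 1)), Nat.pow_le_pow_left (by nlinarith) k, h1⟩
    simp only [flp_bits hN1 hm]
    exact h2
  have k1 := abs_le.1 (key T hT)
  have k2 := (abs_le.1 (key (fun _ => false) ((ntest_false m).mono hm))).2
  simp only [Bool.or_false] at k2
  rw [prob_eqs hN1 hm] at k2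
  have p1 := prob_flp hN1 hm T
  have p2 := prob_or_le (eqs m _ hN1 hm) (fun z : Fin (((K + 1) * (m + 1) ^ 2) ^ k) → Bool =>
    T fun i => (z (Fin.castLE (by omega) i) ^^ z ⟨m, by omega⟩))
  rw [prob_eqs hN1 hm, p1] at p2
  have p3 : prob T ≤ prob (fun z => eqs m _ hN1 hm z ||
      T fun i => (z (Fin.castLE (by omega) i) ^^ z ⟨m, by omega⟩)) := by
    rw [← p1]
    exact prob_mono fun z hz => by rw [hz]; simp
  have p4 : prob (fun a => T (bits m (flp m (l a)))) ≤
      prob (fun a => eqs m _ hN1 hm (bits (((K + 1) * (m + 1) ^ 2) ^ k) (l a)) ||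
        T (bits m (flp m (l a)))) := prob_mono fun a ha => by rw [ha]; simp
  have p5 := prob_or_le (fun a => eqs m _ hN1 hm (bits (((K + 1) * (m + 1) ^ 2) ^ k) (l a)))
    (fun a => T (bits m (flp m (l a))))
  constructor
  · linarith [k1.2]
  · linarith [k1.1]

theorem flp_shrink {K k : ℕ} (hL : Rich L K) (hk : 0 < k) {e e' : ℝ}
    {𝒯 : ∀ n : ℕ, ((Fin n → Bool) → Bool) → Prop}
    (key : ∀ᶠ m : ℕ in Filter.atTop, ∀ T, 𝒯 m T → ∀ (A : Type) [Fintype A] [Nonempty A]
      (G : A → Fin m → Bool), (∀ T', NTest m m T' →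
        prob (fun a => T' (G a)) ≤ prob T' + e + 2 * (1 / 2) ^ m ∧
        prob T' ≤ prob (fun a => T' (G a)) + 2 * e + 2 * (1 / 2) ^ m) →
        |prob (fun a => T (G a)) - prob T| ≤ e')
    (h : LogGen (Small L k) e) : LogGen 𝒯 e' := by
  have hN1 : ∀ m : ℕ, 2 * m ≤ ((K + 1) * (m + 1) ^ 2) ^ k := fun m => by
    refine le_trans ?_ (Nat.le_self_pow hk.ne' _)
    nlinarith [Nat.zero_le (K * (m + 1) ^ 2)]
  refine logGen_shrink (𝒯 := Small L k) (fun m => ((K + 1) * (m + 1) ^ 2) ^ k) ?_ ?_ (5 * k) ?_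
    flp flp_poly (fun m l => by rw [flp, List.length_map, List.length_range]) ?_ h
  · exact polyTime_pow k (PolyTime.mul (PolyTime.const (K + 1))
      (polyTime_pow 2 (PolyTime.add PolyTime.id (PolyTime.const 1))))
  · exact Filter.tendsto_atTop_mono (fun m => le_trans (by show m ≤ 2 * m; omega) (hN1 m))
      Filter.tendsto_id
  · filter_upwards [Filter.eventually_ge_atTop (K + 1), Filter.eventually_ge_atTop 2] with m hm hm2
    rw [pow_mul]
    refine Nat.pow_le_pow_left ?_ k
    calc (K + 1) * (m + 1) ^ 2 ≤ m * (m ^ 2) ^ 2 :=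
          Nat.mul_le_mul hm (Nat.pow_le_pow_left (by nlinarith) 2)
      _ = m ^ 5 := by ring
  · filter_upwards [key, Filter.eventually_ge_atTop 1] with m hkey hm T hT A _ _ l hl hG
    exact hkey T hT A (fun a => bits m (flp m (l a))) fun T' hT' => flp_key hL (hN1 m) hm l hG hT'

theorem tail_small {d : ℝ} (hd : 0 < d) :
    ∀ᶠ m : ℕ in Filter.atTop, 2 * (1 / 2 : ℝ) ^ m < d := by
  have hlim : Filter.Tendsto (fun M : ℕ => (1 / 2 : ℝ) ^ M) Filter.atTop (nhds 0) :=
    tendsto_pow_atTop_nhds_zero_of_lt_one (by norm_num) (by norm_num)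
  filter_upwards [hlim.eventually (gt_mem_nhds (show (0 : ℝ) < d / 2 by linarith))] with m hm
  linarith

theorem nd_of_small {K k : ℕ} (hL : Rich L K) (hk : 0 < k) {e e' : ℝ} (he : 0 ≤ e)
    (h2 : 2 * e < e') (h : LogGen (Small L k) e) : LogGen (fun m T => NTest m m T) e' := by
  refine flp_shrink hL hk ?_ h
  filter_upwards [tail_small (show 0 < e' - 2 * e by linarith)] with m hm T hT A _ _ G hG
  have h1 := hG T hT
  rw [abs_le]
  constructor <;> linarith [h1.1, h1.2]

theorem ntest_circuit {m : ℕ} (C : Circuit m) (hC : C.size ≤ m) : NTest m m (fun x => C.eval x) := by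
  refine ⟨0, C, hC, fun x => ?_⟩
  have e : ∀ y : Fin 0 → Bool, Fin.append x y = x := fun y => by
    funext i
    exact Fin.append_left x y i
  constructor
  · intro h
    exact ⟨fun i => i.elim0, by rw [e]; exact h⟩
  · rintro ⟨y, hy⟩
    rw [e] at hy
    exact hy

theorem ntest_not_circuit {m : ℕ} (C : Circuit m) (hC : C.size ≤ m) :
    NTest m m (fun x => !(C.eval x)) := by
  obtain ⟨n, G, w⟩ := C
  have h := ntest_circuit ⟨n + 1, .snoc G (.not w), Fin.last _⟩ (show G.size + 0 ≤ m from hC)
  have e : (fun x => (⟨n + 1, .snoc G (.not w), Fin.last _⟩ : Circuit m).eval x) =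
      fun x => !((⟨n, G, w⟩ : Circuit m).eval x) := by
    funext x
    exact Gates.eval_snoc_last G _ x
  rwa [e] at h

theorem circ_of_small {K k : ℕ} (hL : Rich L K) (hk : 0 < k) {e : ℝ} (he : 0 < e)
    (he' : e < 1) (h : LogGen (Small L k) e) : GenExists (fun _ _ => True) (1 / 8) := by
  have h1 : LogGen (fun m T => ∃ C : Circuit m, C.size ≤ m ∧ T = fun x => C.eval x)
      ((e + 1) / 2) := by
    refine flp_shrink hL hk ?_ h
    filter_upwards [tail_small (show 0 < (1 - e) / 2 by linarith)] with m hm T hT A _ _ G hG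
    obtain ⟨C, hC, rfl⟩ := hT
    have h1 := (hG _ (ntest_circuit C hC)).1
    have h2 := (hG _ (ntest_not_circuit C hC)).1
    rw [prob_not, prob_not] at h2
    rw [abs_le]
    constructor <;> linarith
  obtain ⟨d, G, hd, hG, hl, c, hc⟩ := h1
  have h2 : GenExists (fun _ C => C.nots ≤ 1) ((e + 1) / 2) := by
    refine ⟨d, G, hd, hG, hl, c, ?_⟩
    filter_upwards [hc] with m hm
    exact ⟨hm.1, hm.2.1, fun C _ hs => hm.2.2 _ ⟨C, hs, rfl⟩⟩
  exact gen_of_one (by linarith) (by linarith) (by norm_num) h2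

theorem circ_of_nd {e : ℝ} (h : LogGen (fun m T => NTest m m T) e) :
    GenExists (fun _ _ => True) e := by
  obtain ⟨d, G, hd, hG, hl, c, hc⟩ := h
  refine ⟨d, G, hd, hG, hl, c, ?_⟩
  filter_upwards [hc] with m hm
  exact ⟨hm.1, hm.2.1, fun C _ hs => hm.2.2 _ (ntest_circuit C hs)⟩

end Pool.Agent.MP_ca1109_lc.Csp
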