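import Pool.Agent.MP_ca1109_lc.Csp.J2
import Pool.Agent.MP_ca1109_lc.Csp.H4

/-!
# Amplification: the uniform families
-/

namespace Pool.Agent.MP_ca1109_lc.Csp

open Finset Pool.Agent.H66 Pool.Agent.MP_ca1109_lc.Mpg

variable {𝒞 : ℕ → ∀ n : ℕ, BF n → Prop}

/-- A uniform family of generators with logarithmic seeds and the bounds `θ`, `κ`. -/
def UFamC (𝒞 : ℕ → ∀ n : ℕ, BF n → Prop) (θ κ : ℝ) : Prop :=
  ∃ (D : ℕ → ℕ) (H : ℕ → List Bool → List Bool), PolyTime D ∧
    PolyTime (fun p : ℕ × List Bool => H p.1 p.2) ∧ (∀ n s, (H n s).length = n) ∧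
    ∃ f : ℕ, ∀ᶠ n : ℕ in Filter.atTop, 2 ^ D n ≤ n ^ f ∧
      UpC 𝒞 n n θ κ (fun s : Fin (D n) → Bool => bits n (H n (List.ofFn s)))

theorem le_wcost (n S : ℕ) : S ≤ wcost n S := by
  unfold wcost
  omega

theorem UFamC.step (h𝒞 : Amp 𝒞) {e₀ η θ κ : ℝ} (he₀ : 0 ≤ e₀) (hη : 0 < η)
    (hU : UFamC 𝒞 θ κ) {d : ℕ → ℕ}
    {G : ℕ → List Bool → List Bool} (hd : PolyTime d)
    (hG : PolyTime fun p : ℕ × List Bool => G p.1 p.2) {c : ℝ}
    (hc : ∀ᶠ m : ℕ in Filter.atTop, (d m : ℝ) ≤ c * Real.logb 2 m ∧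
      ∀ f, 𝒞 (m - 1) m f → prob (fun s : Fin (d m) → Bool => f (bits m (G m (List.ofFn s)))) ≤
        prob f + e₀) :
    UFamC 𝒞 (η + (e₀ + η) * θ) ((e₀ + η) * κ) := by
  obtain ⟨D, H, hD, hH, hlen, f, hf⟩ := hU
  set e : ℕ := 2 * f + 10 with he
  set k : ℕ := ⌈c⌉₊ * e with hk
  refine ⟨fun n => D n + (d (n ^ e) + 4 * Nat.clog 2 n), hyb D d H G e, ?_,
    polyTime_hyb hD hd hH hG e, fun n s => by simp [hyb], f + (k + 5), ?_⟩
  · exact PolyTime.add hD (PolyTime.add (hd.comp (polyTime_pow e PolyTime.id))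
      (PolyTime.mul (PolyTime.const 4) polyTime_clog))
  have htend : Filter.Tendsto (fun n : ℕ => n ^ e) Filter.atTop Filter.atTop :=
    Filter.tendsto_pow_atTop (by omega)
  have hlarge : ∀ᶠ n : ℕ in Filter.atTop, 1 / η ^ 3 ≤ (n : ℝ) :=
    tendsto_natCast_atTop_atTop.eventually (Filter.eventually_ge_atTop _)
  filter_upwards [hf, htend.eventually hc, hlarge, Filter.eventually_ge_atTop 2000] with n hf1 hc1
    hη1 hn
  obtain ⟨hf1, hf2⟩ := hf1
  obtain ⟨hc1, hc2⟩ := hc1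
  set M : ℕ := n ^ e with hM
  set τ : ℕ := 4 * Nat.clog 2 n with hτ
  have hn1 : 1 ≤ n := by omega
  have ht1 : 2 ^ τ ≤ 16 * n ^ 4 := by
    rw [hτ, mul_comm, pow_mul]
    calc (2 ^ Nat.clog 2 n) ^ 4 ≤ (2 * n) ^ 4 := Nat.pow_le_pow_left (two_pow_clog_le n hn1) 4
      _ = 16 * n ^ 4 := by ring
  have ht2 : n ^ 4 ≤ 2 ^ τ := by
    rw [hτ, mul_comm 4, pow_mul]
    exact Nat.pow_le_pow_left (Nat.le_pow_clog one_lt_two n) 4
  have hMbig : 16 * n ^ 5 ≤ M := by
    calc 16 * n ^ 5 ≤ n * n ^ 5 := Nat.mul_le_mul_right _ (by omega)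
      _ = n ^ 6 := by ring
      _ ≤ n ^ e := Nat.pow_le_pow_right hn1 (by omega)
  have hτM : 2 ^ τ ≤ M := by
    refine ht1.trans (le_trans ?_ hMbig)
    exact Nat.mul_le_mul_left _ (Nat.pow_le_pow_right hn1 (by omega))
  constructor
  · have hexp : n ^ (f + (k + 5)) = n ^ f * (n ^ k * n ^ 5) := by rw [pow_add, pow_add]
    have hexp' : 2 ^ (D n + (d M + τ)) = 2 ^ D n * (2 ^ d M * 2 ^ τ) := by rw [pow_add, pow_add]
    show 2 ^ (D n + (d M + τ)) ≤ n ^ (f + (k + 5))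
    rw [hexp, hexp']
    refine Nat.mul_le_mul hf1 (Nat.mul_le_mul ?_ ?_)
    · refine pow_le_of_logb hn1 ?_
      refine hc1.trans ?_
      have hlog : Real.logb 2 ((M : ℕ) : ℝ) = e * Real.logb 2 n := by
        rw [hM]
        push_cast
        rw [Real.logb_pow]
      have hl0 : 0 ≤ Real.logb 2 n := Real.logb_nonneg (by norm_num) (by exact_mod_cast hn1)
      rw [hlog, hk]
      push_cast
      have hcc : c ≤ (⌈c⌉₊ : ℝ) := Nat.le_ceil c
      have : 0 ≤ (e : ℝ) * Real.logb 2 n := by positivity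
      nlinarith
    · calc 2 ^ τ ≤ 16 * n ^ 4 := ht1
        _ ≤ n * n ^ 4 := Nat.mul_le_mul_right _ (by omega)
        _ = n ^ 5 := by ring
  -- the blocks
  have hpos0 : ∀ (w : Fin τ → Bool) (j : Fin n), bval (List.ofFn w) * n + j < M := by
    intro w j
    have h1 := bval_lt (List.ofFn w)
    rw [List.length_ofFn] at h1
    calc bval (List.ofFn w) * n + j < bval (List.ofFn w) * n + n := by have := j.2; omega
      _ = (bval (List.ofFn w) + 1) * n := by ring
      _ ≤ (16 * n ^ 4) * n := Nat.mul_le_mul_right _ (by omega)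
      _ = 16 * n ^ 5 := by ring
      _ ≤ M := hMbig
  let pos : (Fin τ → Bool) → Fin n → Fin M := fun w j => ⟨bval (List.ofFn w) * n + j, hpos0 w j⟩
  have hpos : Function.Injective fun q : (Fin τ → Bool) × Fin n => pos q.1 q.2 := by
    rintro ⟨w, j⟩ ⟨w', j'⟩ h
    have h1 : bval (List.ofFn w) * n + j = bval (List.ofFn w') * n + j' := congrArg Fin.val h
    have hj := j.2
    have hj' := j'.2
    have h2 : (j : ℕ) = j' := by
      have := congrArg (fun x => x % n) h1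
      simpa only [Nat.mul_add_mod', Nat.mod_eq_of_lt hj, Nat.mod_eq_of_lt hj'] using this
    have h3 : bval (List.ofFn w) = bval (List.ofFn w') := by
      rw [h2] at h1
      exact Nat.eq_of_mul_eq_mul_right (by omega) (by omega : bval (List.ofFn w) * n = bval (List.ofFn w') * n)
    have h4 := bval_inj _ _ (by simp) h3
    rw [List.ofFn_inj] at h4
    rw [h4, Fin.ext h2]
  have hcardI : Fintype.card (Fin τ → Bool) = 2 ^ τ := by simp
  have hcardA : Fintype.card (Fin (D n) → Bool) = 2 ^ D n := by simp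
  have hblk := upC_block h𝒞 (S := n ^ f * n + n ^ f * (n ^ f + 1)) _ hc2 pos hpos he₀ hη (by
      rw [hcardI]
      have h1 : (n : ℝ) ^ 4 ≤ ((2 ^ τ : ℕ) : ℝ) := by exact_mod_cast ht2
      have h2 : (1 : ℝ) ≤ n := by exact_mod_cast hn1
      have h4 : 1 ≤ (n : ℝ) * η ^ 3 := by
        rwa [div_le_iff₀ (by positivity)] at hη1
      calc (1 : ℝ) ≤ (n : ℝ) * η ^ 3 := h4
        _ ≤ ((2 ^ τ : ℕ) : ℝ) * η ^ 3 := by
          gcongr
          exact (Nat.le_self_pow (by norm_num) n).trans ht2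
        _ ≤ 4 * ((2 ^ τ : ℕ) : ℝ) * η ^ 3 := by
          have : 0 ≤ ((2 ^ τ : ℕ) : ℝ) * η ^ 3 := by positivity
          linarith) (by
      rw [hcardI]
      have h1 : _ ≤ M := size_bound n f (2 ^ τ) hn ht1
      have h2 := le_wcost n (n ^ f * n + n ^ f * (n ^ f + 1))
      have h3 : 2 ^ τ * (n ^ f * n + n ^ f * (n ^ f + 1)) ≤
        2 ^ τ * wcost n (n ^ f * n + n ^ f * (n ^ f + 1)) := Nat.mul_le_mul_left _ h2
      have h4 : 2 ^ τ * wcost n (n ^ f * n + n ^ f * (n ^ f + 1)) + 2 ^ τ * (2 ^ τ + 1) + 1 ≤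
        (n + 1) * (2 ^ τ * wcost n (n ^ f * n + n ^ f * (n ^ f + 1)) + 2 ^ τ * (2 ^ τ + 1) + 1) :=
        Nat.le_mul_of_pos_left _ (by omega)
      omega)
  have hx := upC_xor h𝒞 (S' := n ^ f * n + n ^ f * (n ^ f + 1)) hf2 hblk hη.le (by positivity) (by
    rw [hcardA]
    have h1 : 2 ^ D n * n ≤ n ^ f * n := Nat.mul_le_mul_right _ hf1
    have h2 : 2 ^ D n * (2 ^ D n + 1) ≤ n ^ f * (n ^ f + 1) := Nat.mul_le_mul hf1 (by omega)
    omega)
  let E : (Fin (D n) → Bool) × ((Fin (d M) → Bool) × (Fin τ → Bool)) ≃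
      (Fin (D n + (d M + τ)) → Bool) :=
    ((Equiv.refl _).prodCongr (Fin.appendEquiv _ _)).trans (Fin.appendEquiv _ _)
  refine UpC.equiv E ?_
  convert hx using 2 with q
  obtain ⟨u, v, w⟩ := q
  funext j
  have hE : E (u, (v, w)) = Fin.append u (Fin.append v w) := rfl
  obtain ⟨s1, s2, s3⟩ := segs u v w
  have hcv : cval M (List.ofFn w) = bval (List.ofFn w) := cval_eq M _ (by
    rw [List.length_ofFn]; omega)
  show ((List.range n).map _).getD j false = _
  rw [hE]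
  have hmap : ∀ F : ℕ → Bool, ((List.range n).map F).getD j false = F j := fun F => by
    simp only [List.getD_eq_getElem?_getD, List.getElem?_map, List.getElem?_range j.2,
      Option.map_some, Option.getD_some]
  rw [hmap]
  show xor ((H n (seg 0 (D n) (List.ofFn (Fin.append u (Fin.append v w))))).getD j false)
    ((G M (seg (D n) (d M) (List.ofFn (Fin.append u (Fin.append v w))))).getD
      (cval M (seg (D n + d M) τ (List.ofFn (Fin.append u (Fin.append v w)))) * n + j) false) = _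
  rw [s1, s2, s3, hcv]
  rfl

theorem upC_trivial {A : Type} [Fintype A] [Nonempty A] (n S : ℕ) (H : A → Fin n → Bool) :
    UpC 𝒞 n S 0 1 H := by
  intro f _
  have := prob_le_one (fun a => f (H a))
  linarith

theorem ufamC_zero : UFamC 𝒞 0 1 := by
  refine ⟨fun _ => 0, fun n _ => List.replicate n false, PolyTime.const 0,
    PolyTime.replicate PolyTime.fst (PolyTime.const false), fun n s => by simp, 0, ?_⟩
  exact Filter.Eventually.of_forall fun n => ⟨by simp, upC_trivial n n _⟩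

theorem ufamC_iterate (h𝒞 : Amp 𝒞) {e₀ η : ℝ} (he₀ : 0 ≤ e₀) (hη : 0 < η) (hκ : e₀ + η < 1)
    {d : ℕ → ℕ} {G : ℕ → List Bool → List Bool} (hd : PolyTime d)
    (hG : PolyTime fun p : ℕ × List Bool => G p.1 p.2) {c : ℝ}
    (hc : ∀ᶠ m : ℕ in Filter.atTop, (d m : ℝ) ≤ c * Real.logb 2 m ∧
      ∀ f, 𝒞 (m - 1) m f → prob (fun s : Fin (d m) → Bool => f (bits m (G m (List.ofFn s)))) ≤
        prob f + e₀) (a : ℕ) :
    ∃ θ : ℝ, θ ≤ η / (1 - (e₀ + η)) ∧ UFamC 𝒞 θ ((e₀ + η) ^ a) := by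
  have h1 : 0 < 1 - (e₀ + η) := by linarith
  induction a with
  | zero =>
    refine ⟨0, by positivity, ?_⟩
    rw [pow_zero]
    exact ufamC_zero
  | succ a ih =>
    obtain ⟨θ, hθ, hU⟩ := ih
    refine ⟨η + (e₀ + η) * θ, ?_, ?_⟩
    · have h2 : (e₀ + η) * θ ≤ (e₀ + η) * (η / (1 - (e₀ + η))) :=
        mul_le_mul_of_nonneg_left hθ (by positivity)
      have h3 : η + (e₀ + η) * (η / (1 - (e₀ + η))) = η / (1 - (e₀ + η)) := by
        have h4 := div_mul_cancel₀ η h1.ne'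
        linear_combination -h4
      linarith
    · rw [pow_succ']
      exact hU.step h𝒞 he₀ hη hd hG hc

theorem nget_of_pred {m : ℕ} {f : BF m} (hm : 1 ≤ m) (h : NGets (m - 1) m f) : NTest m m f := by
  have := h.ntest
  rwa [Nat.sub_add_cancel hm] at this

/-- Generators against nondeterministic circuits with an error smaller than one give generators
with arbitrarily small errors. -/
theorem nd_amplify {e δ : ℝ} (he : 0 < e) (he' : e < 1) (hδ : 0 < δ)
    (h : LogGen (fun m T => NTest m m T) e) : LogGen (fun m T => NTest m m T) δ := by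
  obtain ⟨d, G, hd, hG, hl, c, hc⟩ := h
  set η : ℝ := min ((1 - e) / 2) (δ / 2 * ((1 - e) / 2)) with hη
  have e0 : 0 < 1 - e := by linarith
  have hη0 : 0 < η := lt_min (by positivity) (by positivity)
  have hη1 : η ≤ (1 - e) / 2 := min_le_left _ _
  have hη2 : η ≤ δ / 2 * ((1 - e) / 2) := min_le_right _ _
  have hκ : e + η < 1 := by linarith
  have hc' : ∀ᶠ m : ℕ in Filter.atTop, (d m : ℝ) ≤ c * Real.logb 2 m ∧
      ∀ f, ND (m - 1) m f → prob (fun s : Fin (d m) → Bool => f (bits m (G m (List.ofFn s)))) ≤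
        prob f + e := by
    filter_upwards [hc, Filter.eventually_ge_atTop 1] with m hm hm1
    refine ⟨hm.1, fun f hf => ?_⟩
    rcases hf with hf | hf
    · have := (abs_le.1 (hm.2.2 f (nget_of_pred hm1 hf))).2
      linarith
    · have h1 := (abs_le.1 (hm.2.2 _ (nget_of_pred hm1 hf))).1
      rw [prob_not, prob_not] at h1
      linarith
  obtain ⟨a, ha⟩ := exists_pow_lt_of_lt_one (by positivity : 0 < δ / 2) hκ
  obtain ⟨θ, hθ, hU⟩ := ufamC_iterate amp_nd he.le hη0 hκ hd hG hc' a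
  have h1 : η / (1 - (e + η)) ≤ δ / 2 := by
    rw [div_le_iff₀ (by linarith)]
    refine hη2.trans ?_
    refine mul_le_mul_of_nonneg_left ?_ (by positivity)
    linarith
  obtain ⟨D, H, hD, hH, hlen, f, hf⟩ := hU
  refine ⟨D, H, hD, hH, fun m s _ => hlen m s, f, ?_⟩
  have h2 : ∀ᶠ n : ℕ in Filter.atTop, (n : ℝ) ^ f / (2 : ℝ) ^ n < 1 :=
    (tendsto_pow_const_div_const_pow_of_one_lt f (by norm_num : (1 : ℝ) < 2)).eventually
      (gt_mem_nhds one_pos)
  filter_upwards [hf, h2, Filter.eventually_ge_atTop 1] with m hm hm1 hm2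
  obtain ⟨hm3, hm4⟩ := hm
  have hm0 : (0 : ℝ) < m := by exact_mod_cast hm2
  refine ⟨?_, ?_, fun T hT => ?_⟩
  · have h2 : ((2 : ℝ) ^ D m) ≤ (m : ℝ) ^ f := by exact_mod_cast hm3
    have h3 := Real.logb_le_logb_of_le (by norm_num : (1 : ℝ) < 2) (by positivity) h2
    rwa [Real.logb_pow, Real.logb_pow, Real.logb_self_eq_one (by norm_num), mul_one] at h3
  · rw [div_lt_one (by positivity)] at hm1
    have h2 : m ^ f < 2 ^ m := by exact_mod_cast hm1
    exact (Nat.pow_lt_pow_iff_right (by norm_num)).1 (hm3.trans_lt h2)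
  · have hκ0 : 0 ≤ (e + η) ^ a := by positivity
    have k1 := hm4 T (Or.inl hT.nGets)
    have k2 := hm4 (fun x => !(T x)) (Or.inr (by simpa using hT.nGets))
    rw [prob_not, prob_not] at k2
    have h4 := prob_nonneg T
    have h5 := prob_le_one T
    rw [abs_le]
    constructor
    · nlinarith
    · nlinarith

end Pool.Agent.MP_ca1109_lc.Csp
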