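import Pool.Agent.MP_ca1109_lc.Csp.D
import Pool.Agent.MP_ca1109_lc.Csp.F2
import Pool.Agent.MP_ca1109_lc.Csp.G
import Pool.Agent.MP_ca1109_lc.Csp.J3

/-!
# The trichotomy
-/

namespace Pool.Agent.MP_ca1109_lc.Csp

open Set Pool.Agent.H66 Pool.Agent.MP_ca1109_lc.Mpg

variable {L : Lang} {k : ℕ} {e : ℝ}

theorem small_of_pow (hk : 0 < k) (h : LogGen (fun m T => PTest L (m ^ k) m T) e) :
    LogGen (Small L k) e := by
  refine h.mono ?_
  rintro n T ⟨s, hs, hT⟩
  exact hT.mono (((Nat.le_self_pow hk.ne' s).trans hs).trans (Nat.le_self_pow hk.ne' n))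

theorem horn_hard (hL : Horn L) (hE : ¬ Easy L) (hk : 0 < k) (he : 0 < e) (he' : e < 1 / 2)
    (h : LogGen (Small L k) e) : GenExists (fun _ _ => True) (1 / 8) := by
  obtain ⟨K, hK⟩ := imp3_of hL hE
  exact gen_of_imp3 hK hk he he' h

theorem semi_hard (hL : Horn L ∨ CoHorn L) (hE : ¬ Easy L) (hk : 0 < k) (he : 0 < e)
    (he' : e < 1 / 2) (h : LogGen (Small L k) e) : GenExists (fun _ _ => True) (1 / 8) := by
  rcases hL with hL | hL
  · exact horn_hard hL hE hk he he' h
  · exact horn_hard (horn_dual hL) (fun h' => hE (easy_dual' h')) hk he he' (small_flip h)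

theorem semi_large (hL : Horn L ∨ CoHorn L) (he : 0 < e)
    (h : GenExists (fun _ _ => True) (1 / 8)) : LogGen (fun m T => PTest L (m ^ k) m T) e := by
  rcases hL with hL | hL
  · exact horn_large hL h k he
  · exact pow_flip (horn_large (horn_dual hL) h k he)

theorem rich_of_not (hE : ¬ Easy L) (hH : ¬ Horn L) (hC : ¬ CoHorn L) : ∃ K, Rich L K := by
  refine rich_of fun k f hf => ?_
  rcases unary_or hf with h | h | h | h
  · exact h
  · exact absurd h hH
  · exact absurd h hC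
  · exact absurd h hE

theorem trichotomy (L : Lang) :
    (∀ e : ℝ, 0 < e → LogGen (QFree L) e) ∧
    (Easy L → ∀ e : ℝ, 0 < e → LogGen (PAny L) e) ∧
    (¬ Easy L → Horn L ∨ CoHorn L → ∀ (k : ℕ) (e : ℝ), 0 < k → 0 < e → e < 1 / 2 →
      (LogGen (Small L k) e ↔ GenExists (fun _ _ => True) (1 / 8)) ∧
      (LogGen (fun m T => PTest L (m ^ k) m T) e ↔ GenExists (fun _ _ => True) (1 / 8))) ∧
    (¬ Easy L → ¬ Horn L → ¬ CoHorn L → ∀ (k : ℕ) (e : ℝ), 0 < k → 0 < e →
      (e < 1 / 2 →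
        (LogGen (Small L k) e ↔ LogGen (fun m T => NTest m m T) (1 / 8)) ∧
        (LogGen (fun m T => PTest L (m ^ k) m T) e ↔ LogGen (fun m T => NTest m m T) (1 / 8))) ∧
      (e < 1 → LogGen (Small L k) e → GenExists (fun _ _ => True) (1 / 8))) ∧
    (∀ e d : ℝ, 0 < e → e < 1 → 0 < d → d < 1 →
      (LogGen (fun m T => NTest m m T) e ↔ LogGen (fun m T => NTest m m T) d)) := by
  refine ⟨fun e he => qfree_gen L he, fun h e he => easy_gen h he, fun hE hL k e hk he he' => ?_,
    fun hE hH hC k e hk he => ?_, fun e d he he' hd hd' =>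
      ⟨nd_amplify he he' hd, nd_amplify hd hd' he⟩⟩
  · exact ⟨⟨semi_hard hL hE hk he he', fun h => small_of_pow hk (semi_large hL he h)⟩,
      fun h => semi_hard hL hE hk he he' (small_of_pow hk h), semi_large hL he⟩
  · obtain ⟨K, hK⟩ := rich_of_not hE hH hC
    refine ⟨fun he' => ?_, fun he' h => circ_of_small hK hk he he' h⟩
    have h1 : LogGen (Small L k) e → LogGen (fun m T => NTest m m T) (1 / 8) := fun h =>
      nd_amplify (e := (1 + 2 * e) / 2) (by positivity) (by linarith) (by norm_num)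
        (nd_of_small hK hk he.le (by linarith) h)
    have h2 : LogGen (fun m T => NTest m m T) (1 / 8) →
        LogGen (fun m T => PTest L (m ^ k) m T) e := fun h =>
      nd_gen L k (nd_amplify (by norm_num) (by norm_num) he h)
    exact ⟨⟨h1, fun h => small_of_pow hk (h2 h)⟩, fun h => h1 (small_of_pow hk h), h2⟩

end Pool.Agent.MP_ca1109_lc.Csp
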