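import Pool.Agent.MP_ca1109_lc.Csp.H1
import Pool.Agent.MP_ca1109_lc.MonoStep

/-!
# Amplification for classes of tests closed under thresholds of translated copies
-/

namespace Pool.Agent.MP_ca1109_lc.Csp

open Set Pool.Agent.H66 Pool.Agent.MP_ca1109_lc.Mpg

/-- Classes of tests closed under translations and thresholds of translated copies. -/
structure Amp (𝒞 : ℕ → ∀ n : ℕ, BF n → Prop) : Prop where
  mono : ∀ {S S' n : ℕ} {f : BF n}, 𝒞 S n f → S ≤ S' → 𝒞 S' n f
  tr : ∀ {S n : ℕ} {f : BF n}, 𝒞 S n f → ∀ c, 𝒞 S n (fun z => f (vxor c z))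
  th : ∀ {S n : ℕ} {f : BF n}, 𝒞 S n f → ∀ {M : ℕ} {ι : Type} [Fintype ι]
    (pos : ι → Fin n → Fin M) (c : ι → Fin n → Bool) (j : ℕ),
    𝒞 (Fintype.card ι * S + Fintype.card ι * (Fintype.card ι + 1)) M
      (th ((Finset.univ : Finset ι).toList.map fun a y => f fun i => xor (c a i) (y (pos a i))) j)

/-- Nondeterministic tests and their complements. -/
def ND (S n : ℕ) (f : BF n) : Prop := NGets S n f ∨ NGets S n fun x => !(f x)

theorem countP_univ {ι α : Type} [Fintype ι] (F : ι → α → Bool) (y : α) :
    (((Finset.univ : Finset ι).toList.map F).countP fun g => g y) =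
      (Finset.univ.filter fun a => F a y = true).card := by
  rw [List.countP_map, Finset.card_filter, ← Finset.sum_map_toList]
  generalize (Finset.univ : Finset ι).toList = L
  induction L with
  | nil => rfl
  | cons a L ih =>
    rw [List.countP_cons, ih, List.map_cons, List.sum_cons, add_comm]
    rfl

theorem th_univ {ι α : Type} [Fintype ι] (F : ι → α → Bool) (j : ℕ) (y : α) :
    th ((Finset.univ : Finset ι).toList.map F) j y =
      decide (j ≤ (Finset.univ.filter fun a => F a y = true).card) := by
  rw [th, countP_univ]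

/-- Literals are free. -/
theorem gets_lits (m : ℕ) : Gets true (bas m) 0
    (bas m ∪ ⋃ q : Fin m × Bool, {fun z : Fin m → Bool => xor q.2 (z q.1)}) := by
  have h1 : ∀ q : Fin m × Bool, Gets true (bas m) 0 {fun z : Fin m → Bool => xor q.2 (z q.1)} := by
    rintro ⟨i, c⟩
    cases c
    · refine Gets.of_subset ?_
      rw [Set.singleton_subset_iff]
      have : (fun z : Fin m → Bool => xor false (z i)) = fun z => z i := by
        funext z; simp
      rw [this]
      exact inp_mem_bas i
    · refine ((Gets.refl true (bas m)).not rfl (inp_mem_bas i)).weaken subset_rfl le_rfl ?_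
      rw [Set.singleton_subset_iff]
      left
      funext z; simp
  have h2 := Gets.iUnion (neg := true) (B := bas m) 0 _ h1
  rw [Nat.mul_zero] at h2
  exact (Gets.refl true (bas m)).union h2

/-- Substitution of literals. -/
theorem gets_sub {S n m : ℕ} {f : BF n} (hf : Gets true (bas n) S {f}) (pos : Fin n → Fin m)
    (c : Fin n → Bool) : Gets true (bas m) S {fun z => f fun i => xor (c i) (z (pos i))} := by
  have h3 := hf.pull fun (z : Fin m → Bool) i => xor (c i) (z (pos i))
  have h4 := (gets_lits m).trans' (h3.weaken (B' := bas m ∪ (bas m ∪ ⋃ q : Fin m × Bool,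
    {fun z : Fin m → Bool => xor q.2 (z q.1)})) ?_ le_rfl subset_rfl)
  · rw [Nat.zero_add] at h4
    refine h4.weaken subset_rfl le_rfl ?_
    rw [Set.singleton_subset_iff]
    exact ⟨f, rfl, rfl⟩
  · rintro _ ⟨g, (⟨j, rfl⟩ | (rfl | hg)), rfl⟩
    · exact Or.inr (Or.inr (Set.mem_iUnion.2 ⟨(pos j, c j), rfl⟩))
    · exact Or.inl false_mem_bas
    · rw [Set.mem_singleton_iff] at hg
      subst hg
      exact Or.inl true_mem_bas

theorem NGets.mono {S S' n : ℕ} {f : BF n} (h : NGets S n f) (hS : S ≤ S') : NGets S' n f := by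
  obtain ⟨a, g, h1, h2⟩ := h
  exact ⟨a, g, h1.weaken subset_rfl hS subset_rfl, h2⟩

theorem NGets.sub {S n m : ℕ} {f : BF n} (h : NGets S n f) (pos : Fin n → Fin m)
    (c : Fin n → Bool) : NGets S m (fun z => f fun i => xor (c i) (z (pos i))) := by
  obtain ⟨a, g, h1, h2⟩ := h
  refine ⟨a, fun z => g fun i => xor (Fin.append c (fun _ : Fin a => false) i)
    (z (Fin.addCases (fun i => Fin.castAdd a (pos i)) (fun i => Fin.natAdd m i) i)),
    gets_sub h1 _ _, fun x => ?_⟩
  rw [h2]
  refine exists_congr fun y => ?_
  have e : (fun i => xor (Fin.append c (fun _ : Fin a => false) i)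
      (Fin.append x y (Fin.addCases (fun i => Fin.castAdd a (pos i)) (fun i => Fin.natAdd m i) i))) =
      Fin.append (fun i => xor (c i) (x (pos i))) y := by
    funext i
    refine Fin.addCases (fun i => ?_) (fun i => ?_) i
    · simp
    · simp
  exact Iff.of_eq (congrArg (fun w => g w = true) e.symm)

theorem NGets.th {S n : ℕ} {f : BF n} (h : NGets S n f) {M : ℕ} {ι : Type} [Fintype ι]
    (pos : ι → Fin n → Fin M) (c : ι → Fin n → Bool) (j : ℕ) :
    NGets (Fintype.card ι * S + Fintype.card ι * (Fintype.card ι + 1)) M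
      (th ((Finset.univ : Finset ι).toList.map fun a y => f fun i => xor (c a i) (y (pos a i))) j) := by
  classical
  obtain ⟨a, g, h1, h2⟩ := h
  obtain ⟨t, ht⟩ : ∃ t, t = Fintype.card ι := ⟨_, rfl⟩
  let E : ι × Fin a ≃ Fin (t * a) :=
    ((Fintype.equivFinOfCardEq ht.symm).prodCongr (Equiv.refl _)).trans finProdFinEquiv
  -- the copy `l` of `g`
  let F : ι → BF (M + t * a) := fun l z => g fun i =>
    xor (Fin.append (c l) (fun _ : Fin a => false) i)
      (z (Fin.addCases (fun i => Fin.castAdd (t * a) (pos l i)) (fun i => Fin.natAdd M (E (l, i))) i))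
  have hF : ∀ l (x : Fin M → Bool) (y : Fin (t * a) → Bool),
      F l (Fin.append x y) = g (Fin.append (fun i => xor (c l i) (x (pos l i)))
        (fun i => y (E (l, i)))) := by
    intro l x y
    show g _ = g _
    congr 1
    funext i
    refine Fin.addCases (fun i => ?_) (fun i => ?_) i
    · simp
    · simp
  refine ⟨t * a, Pool.Agent.MP_ca1109_lc.th ((Finset.univ : Finset ι).toList.map F) j, ?_, fun x => ?_⟩
  · have h3 : ∀ l, Gets true (bas (M + t * a)) S {F l} := fun l => gets_sub h1 _ _
    have h4 := Gets.iUnion (neg := true) (B := bas (M + t * a)) S _ h3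
    have h5 := gets_th (neg := true) (B := bas (M + t * a) ∪ ⋃ l, {F l})
      ((Finset.univ : Finset ι).toList.map F) (fun g hg => by
        obtain ⟨l, _, rfl⟩ := List.mem_map.1 hg
        exact Or.inr (Set.mem_iUnion.2 ⟨l, rfl⟩)) (Or.inl false_mem_bas) (Or.inl true_mem_bas)
    rw [List.length_map, Finset.length_toList, Finset.card_univ] at h5
    refine (h4.trans' h5).weaken subset_rfl le_rfl ?_
    rw [Set.singleton_subset_iff]
    exact ⟨j, rfl⟩
  · rw [th_univ, decide_eq_true_eq]
    simp only [th_univ, decide_eq_true_eq]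
    constructor
    · intro hj
      have h3 : ∀ l, ∃ y : Fin a → Bool, (f fun i => xor (c l i) (x (pos l i))) = true →
          g (Fin.append (fun i => xor (c l i) (x (pos l i))) y) = true := by
        intro l
        by_cases hl : (f fun i => xor (c l i) (x (pos l i))) = true
        · obtain ⟨y, hy⟩ := (h2 _).1 hl
          exact ⟨y, fun _ => hy⟩
        · exact ⟨fun _ => false, fun h => absurd h hl⟩
      choose y hy using h3
      refine ⟨fun q => y (E.symm q).1 (E.symm q).2, hj.trans (Finset.card_le_card ?_)⟩
      intro l hl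
      rw [Finset.mem_filter] at hl ⊢
      refine ⟨hl.1, ?_⟩
      rw [hF]
      simpa using hy l hl.2
    · rintro ⟨y, hy⟩
      refine hy.trans (Finset.card_le_card ?_)
      intro l hl
      rw [Finset.mem_filter] at hl ⊢
      refine ⟨hl.1, (h2 _).2 ⟨fun i => y (E (l, i)), ?_⟩⟩
      rw [← hF]
      exact hl.2

theorem th_compl {ι α : Type} [Fintype ι] (F : ι → α → Bool) (j : ℕ) (y : α) :
    (!(th ((Finset.univ : Finset ι).toList.map F) j y)) =
      th ((Finset.univ : Finset ι).toList.map fun a y => !(F a y)) (Fintype.card ι + 1 - j) y := by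
  classical
  rw [th_univ, th_univ, ← decide_not]
  congr 1
  have h1 := Finset.card_filter_add_card_filter_not (s := (Finset.univ : Finset ι))
    (fun a => F a y = true)
  rw [Finset.card_univ] at h1
  have h2 : (Finset.univ.filter fun a => (!(F a y)) = true) =
      Finset.univ.filter fun a => ¬ F a y = true := by
    ext a
    simp
  rw [h2]
  apply propext
  omega

theorem amp_nd : Amp ND where
  mono h hS := h.imp (fun h => h.mono hS) fun h => h.mono hS
  tr h c := h.imp (fun h => h.sub id c) fun h => h.sub id c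
  th {S n f} h {M ι} _ pos c j := by
    rcases h with h | h
    · exact Or.inl (h.th pos c j)
    · right
      have h1 := h.th pos c (Fintype.card ι + 1 - j)
      have e : (fun x => !(Pool.Agent.MP_ca1109_lc.th ((Finset.univ : Finset ι).toList.map
          fun (a : ι) (y : Fin M → Bool) => f fun i => xor (c a i) (y (pos a i))) j x)) =
          Pool.Agent.MP_ca1109_lc.th ((Finset.univ : Finset ι).toList.map
            fun (a : ι) (y : Fin M → Bool) => !(f fun i => xor (c a i) (y (pos a i))))
            (Fintype.card ι + 1 - j) := by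
        funext x
        exact th_compl _ j x
      rw [e]
      exact h1

end Pool.Agent.MP_ca1109_lc.Csp
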