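import Pool.Agent.MP_ca1109_lc.Csp.J1

/-!
# Amplification: blocks, exclusive or
-/

namespace Pool.Agent.MP_ca1109_lc.Csp

open Finset Pool.Agent.H66 Pool.Agent.MP_ca1109_lc.Mpg

variable {𝒞 : ℕ → ∀ n : ℕ, BF n → Prop}

/-- One-sided fooling of the tests of size `S` in the class. -/
def UpC (𝒞 : ℕ → ∀ n : ℕ, BF n → Prop) {A : Type} [Fintype A] (n S : ℕ) (θ κ : ℝ)
    (H : A → Fin n → Bool) : Prop :=
  ∀ f : BF n, 𝒞 S n f → prob (fun a => f (H a)) ≤ prob f + θ + κ * (1 - prob f)

theorem UpC.equiv {A B : Type} [Fintype A] [Fintype B] {n S : ℕ} {θ κ : ℝ} (e : B ≃ A)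
    {H : A → Fin n → Bool} (h : UpC 𝒞 n S θ κ (fun b => H (e b))) : UpC 𝒞 n S θ κ H := by
  intro f hf
  have h1 := h f hf
  have h2 := prob_equiv e (fun a => f (H a))
  rwa [h2] at h1

/-- The blocks of a generator. -/
theorem upC_block (h𝒞 : Amp 𝒞) {I A : Type} [Fintype I] [DecidableEq I] [Fintype A] [Nonempty A]
    {n M S : ℕ} {e η : ℝ} (G : A → Fin M → Bool)
    (hG : ∀ f, 𝒞 (M - 1) M f → prob (fun a => f (G a)) ≤ prob f + e)
    (pos : I → Fin n → Fin M) (hpos : Function.Injective fun q : I × Fin n => pos q.1 q.2)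
    (he : 0 ≤ e) (hη : 0 < η) (hI : 1 ≤ 4 * (Fintype.card I : ℝ) * η ^ 3)
    (hM : Fintype.card I * S + Fintype.card I * (Fintype.card I + 1) + 1 ≤ M) :
    UpC 𝒞 n S η (e + η) (fun (p : A × I) j => G p.1 (pos p.2 j)) := by
  classical
  intro f hf
  set t : ℝ := (Fintype.card I : ℝ) with ht
  have htpos : 0 < t := by
    by_contra hcon
    have h0 : t = 0 := le_antisymm (not_lt.1 hcon) (Nat.cast_nonneg _)
    rw [h0] at hI
    linarith
  have hIpos : 0 < Fintype.card I := by
    rw [ht] at htpos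
    exact_mod_cast htpos
  have : Nonempty I := Fintype.card_pos_iff.1 hIpos
  set p : ℝ := prob f with hp
  have hp1 : p ≤ 1 := prob_le_one f
  by_cases hpη : 1 ≤ p + η
  · have h1 := prob_le_one (fun q : A × I => f fun j => G q.1 (pos q.2 j))
    have h2 : 0 ≤ (e + η) * (1 - p) := mul_nonneg (by positivity) (by linarith)
    show prob (fun q : A × I => f fun j => G q.1 (pos q.2 j)) ≤ _
    linarith
  rw [not_le] at hpη
  have hbound : 1 / (4 * t * η ^ 2) ≤ η := by
    rw [div_le_iff₀ (by positivity)]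
    calc (1 : ℝ) ≤ 4 * t * η ^ 3 := hI
      _ = η * (4 * t * η ^ 2) := by ring
  set c : ℕ := ⌈t * (p + η)⌉₊ with hc
  have hW := h𝒞.mono (h𝒞.th hf pos (fun _ _ => false) c) (show _ ≤ M - 1 by omega)
  have hWe : th ((Finset.univ : Finset I).toList.map fun a y => f fun i =>
      xor false (y (pos a i))) c = th (blk pos f) c := by
    simp only [Bool.false_xor]
    rfl
  rw [hWe] at hW
  set W : BF M := th (blk pos f) c with hWdef
  have hPW : prob W ≤ η := by
    refine le_trans (prob_dev pos hpos f hη hIpos _ fun y hy => ?_) hbound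
    simp only [hWdef, th, decide_eq_true_eq] at hy
    have h1 : t * (p + η) ≤ (((blk pos f).countP fun f => f y : ℕ) : ℝ) :=
      (Nat.le_ceil _).trans (by exact_mod_cast hy)
    refine le_trans ?_ (le_abs_self _)
    rw [← ht, ← hp]
    linarith
  have hPG := hG W hW
  have hgood : ∀ a, W (G a) = false →
      avg (fun i : I => ind (f fun j => G a (pos i j))) ≤ p + η := by
    intro a ha
    rw [avg, div_le_iff₀ htpos, ← blk_countP]
    have g1 : ((blk pos f).countP fun f => f (G a)) < c := by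
      simpa [hWdef, th] using ha
    have g3 : (((blk pos f).countP fun f => f (G a) : ℕ) : ℝ) < t * (p + η) :=
      Nat.lt_ceil.1 g1
    linarith
  have hall : ∀ a, avg (fun i : I => ind (f fun j => G a (pos i j))) ≤
      ind (W (G a)) + (1 - ind (W (G a))) * (p + η) := by
    intro a
    cases hb : W (G a)
    · simpa [ind] using hgood a hb
    · simp only [ind, if_true]
      refine (avg_mono (g := fun _ => (1 : ℝ)) fun i => ?_).trans ?_
      · exact ind_le_one _
      · rw [avg_const]; simp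
  rw [prob_eq_avg, avg_prod fun a i => ind (f fun j => G a (pos i j))]
  refine (avg_mono hall).trans ?_
  have e4 : (fun a => ind (W (G a)) + (1 - ind (W (G a))) * (p + η)) =
      fun a => (1 - (p + η)) * ind (W (G a)) + (p + η) := by
    funext a; ring
  rw [e4, avg_add, avg_mul_left, avg_const, ← prob_eq_avg]
  have hb0 := prob_nonneg (fun a => W (G a))
  have h5 : 0 ≤ 1 - p := by linarith
  have h6 : prob (fun a => W (G a)) * (1 - p) ≤ (e + η) * (1 - p) :=
    mul_le_mul_of_nonneg_right (by linarith) h5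
  nlinarith

/-- The exclusive or of two generators. -/
theorem upC_xor (h𝒞 : Amp 𝒞) {A B : Type} [Fintype A] [Nonempty A] [Fintype B] [Nonempty B]
    {n S S' : ℕ}
    {θ κ η κ' : ℝ} {H : A → Fin n → Bool} {H' : B → Fin n → Bool} (hH : UpC 𝒞 n S θ κ H)
    (hH' : UpC 𝒞 n S' η κ' H') (hη : 0 ≤ η) (hκ' : 0 ≤ κ')
    (hS : Fintype.card A * S + Fintype.card A * (Fintype.card A + 1) ≤ S') :
    UpC 𝒞 n S (η + κ' * θ) (κ' * κ) (fun p : A × B => vxor (H p.1) (H' p.2)) := by
  intro f hf
  set p : ℝ := prob f with hp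
  set N : ℝ := (Fintype.card A : ℝ) with hN
  have hN0 : 0 < N := card_pos_real
  -- the counting function
  let L : List (BF n) := (univ : Finset A).toList.map fun a z => f (vxor (H a) z)
  have hL : L.length = Fintype.card A := by
    simp [L, Finset.length_toList]
  let Φ : (Fin n → Bool) → ℕ := fun z => L.countP fun g => g z
  have hΦN : ∀ z, Φ z ≤ Fintype.card A := fun z => by
    have := List.countP_le_length (p := fun g : BF n => g z) (l := L)
    rwa [hL] at this
  have hΦ : ∀ z, (Φ z : ℝ) = N * avg fun a => ind (f (vxor (H a) z)) := by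
    intro z
    have key : ∀ L : List (BF n), ((L.countP fun f => f z : ℕ) : ℝ) =
        (L.map fun f => ind (f z)).sum := by
      intro L
      induction L with
      | nil => simp
      | cons f L ih =>
        rw [List.countP_cons, List.map_cons, List.sum_cons, Nat.cast_add, ih]
        cases f z <;> simp [ind, add_comm]
    have h1 : (Φ z : ℝ) = ∑ a, ind (f (vxor (H a) z)) := by
      show ((L.countP fun g => g z : ℕ) : ℝ) = _
      rw [key, List.map_map]
      exact Finset.sum_map_toList univ _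
    rw [h1, avg, mul_div_assoc', mul_comm, mul_div_assoc, div_self hN0.ne', mul_one]
  -- bound for every `z`
  set u : ℝ := p + θ + κ * (1 - p) with hu
  have hΦu : ∀ z, (Φ z : ℝ) ≤ N * u := by
    intro z
    rw [hΦ]
    refine mul_le_mul_of_nonneg_left ?_ hN0.le
    have h1 := hH (fun x => f (vxor z x)) (h𝒞.tr hf z)
    rw [prob_vxor] at h1
    rw [prob_eq_avg] at h1
    simp only [vxor_comm z] at h1
    exact h1
  -- the average
  have hΦavg : avg (fun z => (Φ z : ℝ)) = N * p := by
    simp only [hΦ]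
    rw [avg_mul_left]
    congr 1
    have h1 : avg (fun z : Fin n → Bool => avg fun a => ind (f (vxor (H a) z))) =
        avg fun a => avg fun z : Fin n → Bool => ind (f (vxor (H a) z)) := by
      rw [← avg_prod fun (z : Fin n → Bool) a => ind (f (vxor (H a) z)),
        ← avg_prod fun a (z : Fin n → Bool) => ind (f (vxor (H a) z))]
      exact avg_equiv (Equiv.prodComm _ _) fun q : A × (Fin n → Bool) => ind (f (vxor (H q.1) q.2))
    rw [h1]
    have h2 : ∀ a, avg (fun z : Fin n → Bool => ind (f (vxor (H a) z))) = p := by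
      intro a
      rw [← prob_eq_avg fun z => f (vxor (H a) z), prob_vxor]
    simp only [h2]
    exact avg_const p
  -- the maximum
  obtain ⟨z₀, -, hz₀⟩ := Finset.exists_max_image (univ : Finset (Fin n → Bool)) Φ ⟨_, mem_univ (fun _ => false)⟩
  set J : ℕ := Φ z₀ with hJ
  have hJmax : ∀ z, Φ z ≤ J := fun z => hz₀ z (mem_univ z)
  have hJu : (J : ℝ) ≤ N * u := hΦu z₀
  have hJN : (J : ℝ) ≤ N := by
    rw [hN]
    exact_mod_cast hΦN z₀
  have hlay : ∀ z, (Φ z : ℝ) = ∑ j ∈ range J, ind (th L (j + 1) z) := fun z => layer (hJmax z)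
  -- the thresholds
  have hD : ∀ j, 𝒞 S' n (th L (j + 1)) := by
    intro j
    exact h𝒞.mono (h𝒞.th hf (fun _ : A => id) H (j + 1)) hS
  have hq : ∑ j ∈ range J, prob (th L (j + 1)) = N * p := by
    rw [← hΦavg]
    simp only [hlay]
    rw [avg_sum]
    exact Finset.sum_congr rfl fun j _ => prob_eq_avg _
  -- the main computation
  have h1 : prob (fun q : A × B => f (vxor (H q.1) (H' q.2))) =
      (∑ j ∈ range J, prob fun b => th L (j + 1) (H' b)) / N := by
    have e1 : prob (fun q : A × B => f (vxor (H q.1) (H' q.2))) =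
        avg fun b => avg fun a => ind (f (vxor (H a) (H' b))) := by
      rw [prob_eq_avg, ← avg_prod fun b a => ind (f (vxor (H a) (H' b)))]
      exact avg_equiv (Equiv.prodComm A B) fun q : B × A => ind (f (vxor (H q.2) (H' q.1)))
    have e2 : ∀ b, avg (fun a => ind (f (vxor (H a) (H' b)))) =
        N⁻¹ * ∑ j ∈ range J, ind (th L (j + 1) (H' b)) := by
      intro b
      rw [← hlay, hΦ, inv_mul_cancel_left₀ hN0.ne']
    rw [e1]
    simp only [e2]
    rw [avg_mul_left, avg_sum, div_eq_inv_mul]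
    congr 1
    exact Finset.sum_congr rfl fun j _ => (prob_eq_avg _).symm
  rw [h1, div_le_iff₀ hN0]
  have h2 : ∑ j ∈ range J, prob (fun b => th L (j + 1) (H' b)) ≤
      ∑ j ∈ range J, (prob (th L (j + 1)) + η + κ' * (1 - prob (th L (j + 1)))) :=
    Finset.sum_le_sum fun j _ => hH' _ (hD j)
  have h3 : ∑ j ∈ range J, (prob (th L (j + 1)) + η + κ' * (1 - prob (th L (j + 1)))) =
      (1 - κ') * (N * p) + J * (η + κ') := by
    have e3 : ∀ j, prob (th L (j + 1)) + η + κ' * (1 - prob (th L (j + 1))) =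
        (1 - κ') * prob (th L (j + 1)) + (η + κ') := fun j => by ring
    simp only [e3]
    rw [Finset.sum_add_distrib, ← Finset.mul_sum, hq, Finset.sum_const, Finset.card_range,
      nsmul_eq_mul]
  have h4 : (J : ℝ) * η ≤ N * η := mul_le_mul_of_nonneg_right hJN hη
  have h5 : (J : ℝ) * κ' ≤ N * u * κ' := mul_le_mul_of_nonneg_right hJu hκ'
  calc ∑ j ∈ range J, prob (fun b => th L (j + 1) (H' b))
      ≤ (1 - κ') * (N * p) + J * (η + κ') := h2.trans h3.le
    _ ≤ (1 - κ') * (N * p) + (N * η + N * u * κ') := by linarith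
    _ = (p + (η + κ' * θ) + κ' * κ * (1 - p)) * N := by rw [hu]; ring

end Pool.Agent.MP_ca1109_lc.Csp
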