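import Pool.Agent.MP_ca1109_lc.Csp.I

/-!
# Tests of unbounded size
-/

namespace Pool.Agent.MP_ca1109_lc.Csp

open Set Pool.Agent.H66 Pool.Agent.MP_ca1109_lc.Mpg
open Pool.Agent.MP_ca1109_lc.Post (IsAnd)

variable {L : Lang} {n : ℕ} {e : ℝ}

/-- Tests which are preserved by all polymorphisms are definable. -/
theorem any_of_inv {T : (Fin n → Bool) → Bool}
    (h : ∀ (k : ℕ) (f : (Fin k → Bool) → Bool), Pol L f → ∀ t : Fin k → Fin n → Bool,
      (∀ j, T (t j) = true) → T (fun c => f fun j => t j c) = true) : PAny L n T := by
  obtain ⟨s, hs⟩ := inv_pol T h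
  exact ⟨s, ptest_iff.2 hs⟩

/-- The number of zeros. -/
def zs (g : Fin n → Bool) : ℕ := (Finset.univ.filter fun i => g i = false).card

theorem prob_below (g : Fin n → Bool) :
    prob (fun x : Fin n → Bool => decide (∀ i, g i = false → x i = false)) = (1 / 2) ^ zs g := by
  classical
  have h1 := prob_marginal (J := {i : Fin n // g i = false}) (fun j => j.1)
    (fun i j h => Subtype.ext h) (fun y => decide (∀ j, y j = false))
  have h2 : (fun x : Fin n → Bool => decide (∀ i, g i = false → x i = false)) =
      fun x : Fin n → Bool => decide (∀ j : {i : Fin n // g i = false}, x j.1 = false) := by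
    funext x
    simp
  have h12 : (Finset.univ.filter fun y : {i : Fin n // g i = false} → Bool =>
      (decide (∀ j, y j = false)) = true) = {fun _ => false} := by
    ext y
    simp only [Finset.mem_filter, Finset.mem_univ, true_and, Finset.mem_singleton,
      decide_eq_true_eq]
    exact ⟨fun h => funext h, fun h i => by rw [h]⟩
  rw [h2, h1, prob, h12, Finset.card_singleton, Fintype.card_fun, Fintype.card_bool,
    Fintype.card_subtype]
  push_cast
  rw [div_pow, one_pow]
  rfl

/-- The union bound over a finite type. -/
theorem prob_ex_le {A X : Type} [Fintype A] [Fintype X] (F : A → X → Bool) {c : ℝ}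
    (h : ∀ a, prob (F a) ≤ c) : prob (fun x => decide (∃ a, F a x = true)) ≤ Fintype.card A * c := by
  classical
  have h1 := prob_any_le ((Finset.univ : Finset A).toList.map F)
  have h2 : (fun x => ((Finset.univ : Finset A).toList.map F).any fun f => f x) =
      fun x => decide (∃ a, F a x = true) := by
    funext x
    rw [Bool.eq_iff_iff]
    simp
  rw [h2] at h1
  refine h1.trans ?_
  refine (List.sum_le_card_nsmul _ c ?_).trans (le_of_eq ?_)
  · intro x hx
    rw [List.mem_map] at hx
    obtain ⟨f, hf, rfl⟩ := hx
    rw [List.mem_map] at hf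
    obtain ⟨a, _, rfl⟩ := hf
    exact h a
  · rw [List.length_map, List.length_map, Finset.length_toList, Finset.card_univ, nsmul_eq_mul]

/-- The test `(x = 0 or x is below a sparse output) or the block is full`. -/
def catch' {A : Type} [Fintype A] (g : A → Fin n → Bool) (K b l : ℕ) (x : Fin n → Bool) : Bool :=
  decide (∀ i : Fin n, (i : ℕ) / b = l → x i = true) ||
    (decide (∀ i, x i = false) ||
      decide (∃ a, (decide (K ≤ zs (g a)) && decide (∀ i, g a i = false → x i = false)) = true))

theorem catch_inv {A : Type} [Fintype A] (g : A → Fin n → Bool) (K b l : ℕ) {k : ℕ}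
    {f : (Fin k → Bool) → Bool} (hf : IsAnd f) (t : Fin k → Fin n → Bool)
    (ht : ∀ j, catch' g K b l (t j) = true) : catch' g K b l (fun c => f fun j => t j c) = true := by
  unfold catch' at ht ⊢
  simp only [Bool.or_eq_true, decide_eq_true_eq, Bool.and_eq_true] at ht ⊢
  rcases hf with hf | ⟨S, hf⟩
  · right; left
    exact fun i => hf _
  · by_cases hS : ∀ j ∈ S, ∀ i : Fin n, (i : ℕ) / b = l → t j i = true
    · left
      intro i hi
      rw [hf]
      exact fun j hj => hS j hj i hi
    · push Not at hS
      obtain ⟨j, hj, i, hi, hji⟩ := hS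
      right
      have h1 : ∀ c, t j c = false → (f fun j => t j c) = false := by
        intro c hc
        rw [← Bool.not_eq_true, hf]
        intro h
        have := h j hj
        rw [hc] at this
        exact absurd this (by simp)
      rcases ht j with h | h | ⟨a, ha, h⟩
      · exact absurd (h i hi) hji
      · left
        exact fun c => h1 c (h c)
      · right
        exact ⟨a, ha, fun c hc => h1 c (h c hc)⟩

/-- A block which is hit by few of the dense outputs. -/
theorem exists_block {A : Type} [Fintype A] (g : A → Fin n → Bool) (K b q : ℕ)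
    (hq : 0 < q) : ∃ l < q, q * (Finset.univ.filter fun a => zs (g a) < K ∧
      ∃ i : Fin n, (i : ℕ) / b = l ∧ g a i = false).card ≤ K * Fintype.card A := by
  classical
  by_contra hc
  push Not at hc
  have h1 : ∀ a, ((Finset.range q).filter fun l => zs (g a) < K ∧
      ∃ i : Fin n, (i : ℕ) / b = l ∧ g a i = false).card ≤ K := by
    intro a
    by_cases ha : zs (g a) < K
    · have h2 : ((Finset.range q).filter fun l => zs (g a) < K ∧
          ∃ i : Fin n, (i : ℕ) / b = l ∧ g a i = false) ⊆
          (Finset.univ.filter fun i : Fin n => g a i = false).image fun i : Fin n => (i : ℕ) / b := by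
        intro l hl
        rw [Finset.mem_filter] at hl
        obtain ⟨i, hi1, hi2⟩ := hl.2.2
        exact Finset.mem_image.2 ⟨i, by simpa using hi2, hi1⟩
      exact ((Finset.card_le_card h2).trans Finset.card_image_le).trans ha.le
    · rw [Finset.filter_false_of_mem (fun l _ h => ha h.1), Finset.card_empty]
      exact Nat.zero_le _
  have h2 : ∑ l ∈ Finset.range q, (Finset.univ.filter fun a => zs (g a) < K ∧
      ∃ i : Fin n, (i : ℕ) / b = l ∧ g a i = false).card ≤ K * Fintype.card A := by
    have h3 : ∑ l ∈ Finset.range q, (Finset.univ.filter fun a => zs (g a) < K ∧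
        ∃ i : Fin n, (i : ℕ) / b = l ∧ g a i = false).card =
        ∑ a, ((Finset.range q).filter fun l => zs (g a) < K ∧
        ∃ i : Fin n, (i : ℕ) / b = l ∧ g a i = false).card := by
      simp only [Finset.card_filter]
      exact Finset.sum_comm
    rw [h3]
    refine (Finset.sum_le_sum fun a _ => h1 a).trans (le_of_eq ?_)
    rw [Finset.sum_const, Finset.card_univ, smul_eq_mul, mul_comm]
  have h4 : q * (K * Fintype.card A) < ∑ l ∈ Finset.range q,
      q * (Finset.univ.filter fun a => zs (g a) < K ∧
      ∃ i : Fin n, (i : ℕ) / b = l ∧ g a i = false).card := by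
    have h5 : ∑ l ∈ Finset.range q, K * Fintype.card A = q * (K * Fintype.card A) := by
      rw [Finset.sum_const, Finset.card_range, smul_eq_mul]
    rw [← h5]
    exact Finset.sum_lt_sum_of_nonempty (Finset.nonempty_range_iff.2 hq.ne')
      fun l hl => hc l (Finset.mem_range.1 hl)
  rw [← Finset.mul_sum] at h4
  exact absurd (Nat.mul_le_mul_left q h2) (not_le.2 h4)

theorem prob_block (b l : ℕ) (hb : 0 < b) (hl : (l + 1) * b ≤ n) :
    prob (fun x : Fin n → Bool => decide (∀ i : Fin n, (i : ℕ) / b = l → x i = true)) =
      (1 / 2) ^ b := by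
  rw [← prob_all_true b]
  have hlt : ∀ j : Fin b, l * b + j < n := fun j => by
    have := j.2
    calc l * b + j < l * b + b := by omega
      _ = (l + 1) * b := by ring
      _ ≤ n := hl
  have h1 := prob_marginal (fun j : Fin b => (⟨l * b + j, hlt j⟩ : Fin n)) (fun i j h => by
    apply Fin.ext
    have := congrArg Fin.val h
    simp only at this
    omega) (fun y : Fin b → Bool => decide (∀ j, y j = true))
  rw [← h1]
  congr 1
  funext x
  rw [Bool.eq_iff_iff, decide_eq_true_eq, decide_eq_true_eq]
  constructor
  · intro h j
    refine h _ ?_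
    show (l * b + j) / b = l
    rw [mul_comm, Nat.mul_add_div hb, Nat.div_eq_of_lt j.2, add_zero]
  · intro h i hi
    have h2 : (i : ℕ) = l * b + (i : ℕ) % b := by
      rw [← hi, mul_comm]
      exact (Nat.div_add_mod _ _).symm
    have h3 := h ⟨(i : ℕ) % b, Nat.mod_lt _ hb⟩
    have h4 : i = ⟨l * b + (i : ℕ) % b, hlt ⟨(i : ℕ) % b, Nat.mod_lt _ hb⟩⟩ := Fin.ext h2
    rw [h4]
    exact h3

/-- The main inequality for Horn languages. -/
theorem horn_ineq (hL : Horn L) (hE : ¬ Easy L) {A : Type} [Fintype A] [Nonempty A]
    (g : A → Fin n → Bool) (hG : ∀ T, PAny L n T → |prob (fun a => T (g a)) - prob T| ≤ e)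
    (K b q : ℕ) (hb : 0 < b) (hq : 0 < q) (hn : q * b ≤ n) :
    1 - (K : ℝ) / q ≤ e + (1 / 2) ^ b + (1 / 2) ^ n + Fintype.card A * (1 / 2) ^ K := by
  classical
  obtain ⟨l, hl, hcard⟩ := exists_block g K b q hq
  have hany : PAny L n (catch' g K b l) := any_of_inv fun k f hf t ht =>
    catch_inv g K b l (isAnd_of hL hE hf) t ht
  have h1 := (abs_le.1 (hG _ hany)).2
  have h2 : prob (catch' g K b l) ≤ (1 / 2) ^ b + ((1 / 2) ^ n + Fintype.card A * (1 / 2) ^ K) := by
    refine (prob_or_le _ _).trans (add_le_add (le_of_eq ?_)
      ((prob_or_le _ _).trans (add_le_add (le_of_eq ?_) ?_)))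
    · exact prob_block b l hb (le_trans (Nat.mul_le_mul_right b hl) hn)
    · have h3 := prob_below (fun _ : Fin n => false)
      have h4 : zs (fun _ : Fin n => false) = n := by simp [zs]
      rw [h4] at h3
      rw [← h3]
      congr 1
      funext x
      simp
    · refine prob_ex_le _ fun a => ?_
      by_cases ha : K ≤ zs (g a)
      · have h3 : (fun x : Fin n → Bool => decide (K ≤ zs (g a)) &&
            decide (∀ i, g a i = false → x i = false)) =
            fun x => decide (∀ i, g a i = false → x i = false) := by
          funext x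
          simp [ha]
        rw [h3, prob_below]
        exact pow_le_pow_of_le_one (by norm_num) (by norm_num) ha
      · have h3 : (fun x : Fin n → Bool => decide (K ≤ zs (g a)) &&
            decide (∀ i, g a i = false → x i = false)) = fun _ => false := by
          funext x
          simp [ha]
        rw [h3, Post.p7_false]
        positivity
  have h3 : 1 - (K : ℝ) / q ≤ prob (fun a => catch' g K b l (g a)) := by
    have h4 := prob_not (fun a => catch' g K b l (g a))
    have h5 : prob (fun a => !(catch' g K b l (g a))) ≤ (K : ℝ) / q := by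
      have h6 : prob (fun a => !(catch' g K b l (g a))) ≤ prob (fun a => decide (zs (g a) < K ∧
          ∃ i : Fin n, (i : ℕ) / b = l ∧ g a i = false)) := by
        refine prob_mono fun a ha => ?_
        unfold catch' at ha
        simp only [Bool.not_eq_true', Bool.or_eq_false_iff, decide_eq_false_iff_not, not_exists,
          Bool.and_eq_true, decide_eq_true_eq, not_and] at ha
        obtain ⟨ha1, -, ha2⟩ := ha
        rw [decide_eq_true_eq]
        push Not at ha1
        obtain ⟨i, hi1, hi2⟩ := ha1
        refine ⟨?_, i, hi1, by simpa using hi2⟩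
        by_contra hc
        exact ha2 a (not_lt.1 hc) fun i hi => hi
      refine h6.trans ?_
      have hA : (0 : ℝ) < Fintype.card A := card_pos_real
      have hq' : (0 : ℝ) < q := by exact_mod_cast hq
      rw [prob, div_le_div_iff₀ hA hq', mul_comm]
      simp only [decide_eq_true_eq]
      exact_mod_cast hcard
    linarith
  linarith

end Pool.Agent.MP_ca1109_lc.Csp
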