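import Pool.Agent.MP_ca1109_lc.Csp.K

/-!
# Generators for tests of unbounded size exist only for easy languages
-/

namespace Pool.Agent.MP_ca1109_lc.Csp

open Set Pool.Agent.H66 Pool.Agent.MP_ca1109_lc.Mpg
open Pool.Agent.MP_ca1109_lc.Post (IsAnd)

variable {L : Lang} {n : ℕ} {e : ℝ}

theorem tendsto_sqrt : Filter.Tendsto Nat.sqrt Filter.atTop Filter.atTop := by
  refine Filter.tendsto_atTop.2 fun j => ?_
  filter_upwards [Filter.eventually_ge_atTop (j * j)] with n hn
  exact Nat.le_sqrt.2 hn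

theorem tail_pow (c : ℕ) {d : ℝ} (hd : 0 < d) :
    ∀ᶠ K : ℕ in Filter.atTop, ((K + 1 : ℕ) : ℝ) ^ c * (1 / 2) ^ K < d := by
  have h1 := (tendsto_pow_const_div_const_pow_of_one_lt c (by norm_num : (1 : ℝ) < 2)).comp
    (Filter.tendsto_add_atTop_nat 1)
  filter_upwards [h1.eventually (gt_mem_nhds (show (0 : ℝ) < d / 2 by linarith))] with K hK
  have h2 : ((K + 1 : ℕ) : ℝ) ^ c / 2 ^ (K + 1) < d / 2 := hK
  have h3 : ((K + 1 : ℕ) : ℝ) ^ c * (1 / 2) ^ K = 2 * (((K + 1 : ℕ) : ℝ) ^ c / 2 ^ (K + 1)) := by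
    rw [one_div, inv_pow, pow_succ]
    field_simp
  rw [h3]
  linarith

theorem half_small {d : ℝ} (hd : 0 < d) : ∀ᶠ m : ℕ in Filter.atTop, (1 / 2 : ℝ) ^ m < d := by
  have hlim : Filter.Tendsto (fun M : ℕ => (1 / 2 : ℝ) ^ M) Filter.atTop (nhds 0) :=
    tendsto_pow_atTop_nhds_zero_of_lt_one (by norm_num) (by norm_num)
  exact hlim.eventually (gt_mem_nhds hd)

/-- The number of seeds. -/
theorem seeds_le {D : ℕ → ℕ} {c : ℝ} {P : ℕ → Prop}
    (h : ∀ᶠ n : ℕ in Filter.atTop, (D n : ℝ) ≤ c * Real.logb 2 n ∧ P n) :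
    ∃ f : ℕ, ∀ᶠ n : ℕ in Filter.atTop, 2 ^ D n ≤ n ^ f ∧ P n := by
  refine ⟨⌈c⌉₊, ?_⟩
  filter_upwards [h, Filter.eventually_ge_atTop 1] with n hn hn1
  refine ⟨pow_le_of_logb hn1 (hn.1.trans ?_), hn.2⟩
  exact mul_le_mul_of_nonneg_right (Nat.le_ceil c)
    (Real.logb_nonneg (by norm_num) (by exact_mod_cast hn1))

theorem horn_not_any (hL : Horn L) (hE : ¬ Easy L) (he : e < 1) : ¬ LogGen (PAny L) e := by
  rintro ⟨D, G, -, -, -, c, hc⟩
  obtain ⟨f, hf⟩ := seeds_le hc
  have hd : 0 < (1 - e) / 5 := by linarith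
  obtain ⟨b, hb1, hb2⟩ := ((half_small hd).and (Filter.eventually_ge_atTop 1)).exists
  have hK1 : ∀ᶠ K : ℕ in Filter.atTop, 2 * (b : ℝ) < (1 - e) / 5 * K := by
    have h1 := tendsto_natCast_atTop_atTop (R := ℝ) |>.eventually
      (Filter.eventually_gt_atTop (2 * (b : ℝ) / ((1 - e) / 5)))
    filter_upwards [h1] with K hK
    rw [div_lt_iff₀ hd] at hK
    linarith
  obtain ⟨n, ⟨⟨⟨hn1, -, hn2⟩, hK2⟩, hK3, hn3⟩, hn4, hK4⟩ := ((hf.and
    (tendsto_sqrt.eventually hK1)).and ((tendsto_sqrt.eventually (tail_pow (2 * f) hd)).and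
      (half_small hd))).and ((Filter.eventually_ge_atTop (2 * b)).and
        (tendsto_sqrt.eventually (Filter.eventually_ge_atTop 1))) |>.exists
  set K := Nat.sqrt n with hK
  have hq0 : 0 < n / b := Nat.div_pos (by omega) (by omega)
  have h1 := horn_ineq hL hE (fun s : Fin (D n) → Bool => bits n (G n (List.ofFn s))) hn2
    K b (n / b) (by omega) hq0 (Nat.div_mul_le_self n b)
  have hcard : ((Fintype.card (Fin (D n) → Bool) : ℕ) : ℝ) ≤ ((K + 1 : ℕ) : ℝ) ^ (2 * f) := by
    rw [Fintype.card_fun, Fintype.card_bool, Fintype.card_fin]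
    have h2 : n ≤ (K + 1) ^ 2 := by
      have := Nat.lt_succ_sqrt n
      rw [← hK] at this
      rw [sq]
      exact this.le
    have h3 : 2 ^ D n ≤ (K + 1) ^ (2 * f) := by
      refine hn1.trans ?_
      rw [pow_mul]
      exact Nat.pow_le_pow_left h2 f
    exact_mod_cast h3
  have h2 : ((Fintype.card (Fin (D n) → Bool) : ℕ) : ℝ) * (1 / 2) ^ K < (1 - e) / 5 :=
    lt_of_le_of_lt (mul_le_mul_of_nonneg_right hcard (by positivity)) hK3
  have h3 : (K : ℝ) / ((n / b : ℕ) : ℝ) < (1 - e) / 5 := by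
    have hq : (0 : ℝ) < ((n / b : ℕ) : ℝ) := by exact_mod_cast hq0
    rw [div_lt_iff₀ hq]
    have h4 : n ≤ 2 * b * (n / b) := by
      have h5 := Nat.div_add_mod n b
      have h6 := Nat.mod_lt n (show b > 0 by omega)
      have h7 : b ≤ b * (n / b) := Nat.le_mul_of_pos_right _ hq0
      calc n = b * (n / b) + n % b := h5.symm
        _ ≤ b * (n / b) + b * (n / b) := by omega
        _ = 2 * b * (n / b) := by ring
    have h5 : K * K ≤ n := Nat.sqrt_le n
    have h6 : (K : ℝ) * K ≤ 2 * b * ((n / b : ℕ) : ℝ) := by exact_mod_cast h5.trans h4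
    have hK0 : (0 : ℝ) < K := by exact_mod_cast hK4
    have h7 : (K : ℝ) * K < ((1 - e) / 5 * ((n / b : ℕ) : ℝ)) * K := by
      calc (K : ℝ) * K ≤ 2 * b * ((n / b : ℕ) : ℝ) := h6
        _ < ((1 - e) / 5 * K) * ((n / b : ℕ) : ℝ) := mul_lt_mul_of_pos_right hK2 hq
        _ = ((1 - e) / 5 * ((n / b : ℕ) : ℝ)) * K := by ring
    exact lt_of_mul_lt_mul_right h7 hK0.le
  linarith

theorem prob_point (m : ℕ) (v : Fin m → Bool) :
    prob (fun y : Fin m → Bool => decide (∀ i, y i = v i)) = (1 / 2) ^ m := by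
  have h12 : (Finset.univ.filter fun y : Fin m → Bool =>
      (decide (∀ i, y i = v i)) = true) = {v} := by
    ext y
    simp only [Finset.mem_filter, Finset.mem_univ, true_and, Finset.mem_singleton,
      decide_eq_true_eq]
    exact ⟨fun h => funext h, fun h i => by rw [h]⟩
  rw [prob, h12, Finset.card_singleton, Fintype.card_fun, Fintype.card_bool, Fintype.card_fin]
  push_cast
  rw [div_pow, one_pow]

/-- The main inequality for languages with essentially unary polymorphisms. -/
theorem unary_ineq (hU : ∀ (k : ℕ) (f : (Fin k → Bool) → Bool), Pol L f → Unary f) {A : Type}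
    [Fintype A] [Nonempty A] (g : A → Fin n → Bool)
    (hG : ∀ T, PAny L n T → |prob (fun a => T (g a)) - prob T| ≤ e) {m : ℕ} (hm : 0 < m)
    (h : 2 * m ≤ n) : 1 ≤ e + 2 * (1 / 2) ^ m + Fintype.card A * (1 / 2) ^ m := by
  classical
  let v : A → Fin m → Bool := fun a i => (g a (Fin.castLE (by omega) i) ^^ g a ⟨m, by omega⟩)
  let T : (Fin m → Bool) → Bool := fun y => decide (∃ a, decide (∀ i, y i = v a i) = true)
  let T'' : (Fin n → Bool) → Bool := fun z => eqs m n h hm z ||
    T fun i => (z (Fin.castLE (by omega) i) ^^ z ⟨m, by omega⟩)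
  have hcomp : ∀ z, T'' (fun i => !(z i)) = T'' z := by
    intro z
    show (eqs m n h hm (fun i => !(z i)) || T fun i => ((!(z (Fin.castLE (by omega) i))) ^^
      (!(z ⟨m, by omega⟩)))) = _
    congr 1
    · unfold eqs
      congr 1
      apply propext
      refine forall_congr' fun j => ?_
      exact (by decide : ∀ a b : Bool, ((!a) = (!b)) ↔ (a = b)) _ _
    · congr 1
      funext i
      cases z (Fin.castLE (by omega) i) <;> cases z ⟨m, by omega⟩ <;> rfl
  have hany : PAny L n T'' := by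
    refine any_of_inv fun k f hf t ht => ?_
    rcases hU k f hf with ⟨c, hc⟩ | ⟨i, c, hc⟩
    · have h1 : eqs m n h hm (fun c => f fun j => t j c) = true := by
        unfold eqs
        rw [decide_eq_true_eq]
        intro j
        exact (hc _).trans (hc _).symm
      show (eqs m n h hm (fun c => f fun j => t j c) || _) = true
      rw [h1, Bool.true_or]
    · have e1 : (fun c => f fun j => t j c) = fun l => (t i l ^^ c) := funext fun _ => hc _
      rw [e1]
      cases c
      · simpa using ht i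
      · have h1 := hcomp (t i)
        rw [ht i] at h1
        simpa using h1
  have h1 := (abs_le.1 (hG _ hany)).2
  have h2 : prob (fun a => T'' (g a)) = 1 := by
    have h3 : (fun a => T'' (g a)) = fun _ => true := by
      funext a
      have h4 : T (fun i => (g a (Fin.castLE (by omega) i) ^^ g a ⟨m, by omega⟩)) = true := by
        show decide (∃ a', decide (∀ i, v a i = v a' i) = true) = true
        exact decide_eq_true ⟨a, decide_eq_true fun i => rfl⟩
      show (eqs m n h hm (g a) || T _) = true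
      rw [h4, Bool.or_true]
    rw [h3]
    exact prob_const_true
  have h3 := prob_or_le (eqs m n h hm)
    (fun z => T fun i => (z (Fin.castLE (by omega) i) ^^ z ⟨m, by omega⟩))
  rw [prob_eqs h hm, prob_flp h hm T] at h3
  have h4 : prob T ≤ Fintype.card A * (1 / 2) ^ m :=
    prob_ex_le _ fun a => (prob_point m (v a)).le
  have h5 : prob T'' ≤ 2 * (1 / 2) ^ m + prob T := h3
  linarith

theorem unary_not_any (hU : ∀ (k : ℕ) (f : (Fin k → Bool) → Bool), Pol L f → Unary f)
    (he : e < 1) : ¬ LogGen (PAny L) e := by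
  rintro ⟨D, G, -, -, -, c, hc⟩
  obtain ⟨f, hf⟩ := seeds_le hc
  have hd : 0 < (1 - e) / 3 := by linarith
  have ht : Filter.Tendsto (fun n : ℕ => n / 2) Filter.atTop Filter.atTop :=
    Filter.tendsto_atTop.2 fun j => by
      filter_upwards [Filter.eventually_ge_atTop (2 * j)] with n hn
      omega
  obtain ⟨n, ⟨⟨hn1, -, hn2⟩, hm3, hm4⟩, hn3, hm5⟩ := ((hf.and
    ((ht.eventually (tail_pow (2 * f) hd)).and (ht.eventually (tail_small hd)))).and
      ((Filter.eventually_ge_atTop 2).and
        (ht.eventually (Filter.eventually_ge_atTop 1)))) |>.exists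
  set m := n / 2 with hm
  have h1 := unary_ineq hU (fun s : Fin (D n) → Bool => bits n (G n (List.ofFn s))) hn2
    (m := m) (by omega) (by omega)
  have hcard : ((Fintype.card (Fin (D n) → Bool) : ℕ) : ℝ) ≤ ((m + 1 : ℕ) : ℝ) ^ (2 * f) := by
    rw [Fintype.card_fun, Fintype.card_bool, Fintype.card_fin]
    have h2 : n ≤ (m + 1) ^ 2 := by
      have : n ≤ 2 * m + 1 := by omega
      nlinarith
    have h3 : 2 ^ D n ≤ (m + 1) ^ (2 * f) := by
      refine hn1.trans ?_
      rw [pow_mul]
      exact Nat.pow_le_pow_left h2 f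
    exact_mod_cast h3
  have h2 : ((Fintype.card (Fin (D n) → Bool) : ℕ) : ℝ) * (1 / 2) ^ m < (1 - e) / 3 :=
    lt_of_le_of_lt (mul_le_mul_of_nonneg_right hcard (by positivity)) hm3
  linarith

/-- Generators against the definable tests of unbounded size exist exactly for easy languages. -/
theorem any_iff (he : 0 < e) (he' : e < 1) : LogGen (PAny L) e ↔ Easy L := by
  refine ⟨fun h => ?_, fun h => easy_gen h he⟩
  by_contra hE
  by_cases hH : Horn L
  · exact horn_not_any hH hE he' h
  by_cases hC : CoHorn L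
  · refine horn_not_any (horn_dual hC) (fun h' => hE (easy_dual' h')) he' ?_
    exact logGen_flip (fun _ _ hT => hT.imp fun _ hs => ptest_flip' hs) h
  · refine unary_not_any (fun k f hf => ?_) he' h
    rcases unary_or hf with h | h | h | h
    · exact h
    · exact absurd h hH
    · exact absurd h hC
    · exact absurd h hE

end Pool.Agent.MP_ca1109_lc.Csp
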