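import Pool.Agent.MP_ca1109_lc.Csp.K2

/-!
# The classification
-/

namespace Pool.Agent.MP_ca1109_lc.Csp

open Set Pool.Agent.H66 Pool.Agent.MP_ca1109_lc.Mpg

theorem classification (L : Lang) :
    (∀ e : ℝ, 0 < e → e < 1 → (LogGen (PAny L) e ↔ Easy L)) ∧
    (¬ Easy L → ∀ (k : ℕ) (e : ℝ), 0 < k → 0 < e → e < 1 / 2 →
      (Horn L ∨ CoHorn L →
        (LogGen (Small L k) e ↔ GenExists (fun _ _ => True) (1 / 8)) ∧
        (LogGen (fun m T => PTest L (m ^ k) m T) e ↔ GenExists (fun _ _ => True) (1 / 8))) ∧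
      (¬ (Horn L ∨ CoHorn L) → ∀ d : ℝ, 0 < d → d < 1 →
        (LogGen (Small L k) e ↔ LogGen (fun m T => NTest m m T) d) ∧
        (LogGen (fun m T => PTest L (m ^ k) m T) e ↔ LogGen (fun m T => NTest m m T) d))) ∧
    (¬ Easy L → ¬ (Horn L ∨ CoHorn L) → ∀ (k : ℕ) (e : ℝ), 0 < k → 0 < e → e < 1 →
      LogGen (Small L k) e → GenExists (fun _ _ => True) (1 / 8)) := by
  obtain ⟨-, -, h3, h4, h5⟩ := trichotomy L
  refine ⟨fun e he he' => any_iff he he', fun hE k e hk he he' => ⟨fun hL => h3 hE hL k e hk he he',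
    fun hL d hd hd' => ?_⟩, fun hE hL k e hk he he' => ?_⟩
  · rw [not_or] at hL
    have h6 := (h4 hE hL.1 hL.2 k e hk he).1 he'
    have h7 := h5 (1 / 8) d (by norm_num) (by norm_num) hd hd'
    exact ⟨h6.1.trans h7, h6.2.trans h7⟩
  · rw [not_or] at hL
    exact (h4 hE hL.1 hL.2 k e hk he).2 he'

end Pool.Agent.MP_ca1109_lc.Csp
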